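import Pool.Agent.Lib.PRank.Defs

namespace Pool.Agent.Lib.PRank

open MvPolynomial

variable {ι V J R A : Type*} [DecidableEq ι] {sl : V → ι}

lemma weight_wt_apply (d : V →₀ ℕ) (k : ι) :
    Finsupp.weight (wt sl) d k = ∑ v ∈ d.support, if sl v = k then d v else 0 := by
  rw [Finsupp.weight_apply, Finsupp.sum, Finset.sum_apply]
  refine Finset.sum_congr rfl fun v _ => ?_
  by_cases h : sl v = k
  · simp [wt, h]
  · simp [wt, h, Ne.symm h]

lemma degree_eq_sum_weight [Fintype ι] (d : V →₀ ℕ) :
    d.degree = ∑ k, Finsupp.weight (wt sl) d k := by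
  simp_rw [weight_wt_apply]
  rw [Finset.sum_comm, Finsupp.degree_apply]
  refine Finset.sum_congr rfl fun v _ => ?_
  simp

lemma sum_ind [Fintype ι] (S : Finset ι) : ∑ k, ind S k = S.card := by
  simp [ind]

lemma le_weight_wt (d : V →₀ ℕ) (v : V) : d v ≤ Finsupp.weight (wt sl) d (sl v) := by
  rw [weight_wt_apply]
  by_cases hv : v ∈ d.support
  · have := Finset.single_le_sum (f := fun w => if sl w = sl v then d w else 0)
      (fun w _ => Nat.zero_le _) hv
    simpa using this
  · simp [Finsupp.notMem_support_iff.mp hv]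

lemma ind_erase_add {S : Finset ι} {v : V} (h : sl v ∈ S) :
    ind (S.erase (sl v)) + wt sl v = ind S := by
  funext k
  by_cases hk : k = sl v
  · subst hk; simp [ind, wt, h]
  · simp [ind, wt, hk]

lemma ind_union {S S' : Finset ι} (h : Disjoint S S') : ind S + ind S' = ind (S ∪ S') := by
  funext k
  have : k ∈ S → k ∉ S' := fun hk => Finset.disjoint_left.mp h hk
  simp only [ind, Pi.add_apply, Finset.mem_union]
  by_cases h1 : k ∈ S <;> by_cases h2 : k ∈ S' <;> simp_all

lemma ind_singleton (v : V) : ind ({sl v} : Finset ι) = wt sl v := by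
  funext k
  simp [ind, wt, Pi.single_apply]

lemma ind_empty : ind (∅ : Finset ι) = 0 := by
  funext k; simp [ind]

section Semiring

variable [CommSemiring R]

namespace IsML

variable {S : Finset ι} {f g : MvPolynomial V R}

lemma zero (S : Finset ι) : IsML sl S (0 : MvPolynomial V R) :=
  isWeightedHomogeneous_zero R _ _

lemma add (hf : IsML sl S f) (hg : IsML sl S g) : IsML sl S (f + g) :=
  IsWeightedHomogeneous.add hf hg

lemma C_mul (hf : IsML sl S f) (r : R) : IsML sl S (C r * f) :=
  IsWeightedHomogeneous.C_mul hf r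

lemma smul (hf : IsML sl S f) (r : R) : IsML sl S (r • f) := by
  rw [smul_eq_C_mul]; exact hf.C_mul r

lemma sum {κ : Type*} (s : Finset κ) (φ : κ → MvPolynomial V R)
    (h : ∀ i ∈ s, IsML sl S (φ i)) : IsML sl S (∑ i ∈ s, φ i) :=
  IsWeightedHomogeneous.sum s φ _ h

lemma mul {S' : Finset ι} (hd : Disjoint S S') (hf : IsML sl S f) (hg : IsML sl S' g) :
    IsML sl (S ∪ S') (f * g) := by
  have := IsWeightedHomogeneous.mul hf hg
  rwa [ind_union hd] at this

lemma X (v : V) : IsML sl {sl v} (X v : MvPolynomial V R) := by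
  unfold IsML
  rw [ind_singleton]
  exact isWeightedHomogeneous_X R _ _

lemma of_support_subset [CommSemiring A] {g : MvPolynomial V A} (hf : IsML sl S f)
    (h : g.support ⊆ f.support) : IsML sl S g := fun _ hd =>
  hf (mem_support_iff.mp (h (mem_support_iff.mpr hd)))

lemma map [CommSemiring A] (φ : R →+* A) (hf : IsML sl S f) : IsML sl S (map φ f) :=
  hf.of_support_subset (support_map_subset _ _)

lemma of_map [CommSemiring A] {φ : R →+* A} (hφ : Function.Injective φ)
    (hf : IsML sl S (MvPolynomial.map φ f)) : IsML sl S f :=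
  hf.of_support_subset (by rw [support_map_of_injective _ hφ])

lemma isHomogeneous [Fintype ι] (hf : IsML sl S f) : f.IsHomogeneous S.card := by
  intro d hd
  have h := hf hd
  have h2 := degree_eq_sum_weight (sl := sl) d
  rw [h, sum_ind] at h2
  rw [← h2, Finsupp.degree_eq_weight_one]
  rfl

lemma totalDegree_le [Fintype ι] (hf : IsML sl S f) : f.totalDegree ≤ S.card :=
  hf.isHomogeneous.totalDegree_le

lemma mem_vars (hf : IsML sl S f) {v : V} (hv : v ∈ f.vars) : sl v ∈ S := by
  classical
  obtain ⟨d, hd, hvd⟩ := (MvPolynomial.mem_vars_iff_mem_support v).mp hv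
  have h1 := hf (mem_support_iff.mp hd)
  have h2 := le_weight_wt (sl := sl) d v
  rw [h1] at h2
  by_contra hS
  simp only [ind, hS, if_false] at h2
  exact (Finsupp.mem_support_iff.mp hvd) (by omega)

/-- A form on the slots `S` depends only on the coordinates in those slots. -/
lemma aeval_congr [CommSemiring A] [Algebra R A] (hf : IsML sl S f) {x y : V → A}
    (h : ∀ v, sl v ∈ S → x v = y v) : aeval x f = aeval y f := by
  rw [aeval_def, aeval_def]
  refine eval₂_congr _ _ _ fun {i} {c} hi hc => h i (hf.mem_vars ?_)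
  classical
  exact (MvPolynomial.mem_vars_iff_mem_support i).mpr ⟨c, mem_support_iff.mpr hc, hi⟩

lemma eval_congr (hf : IsML sl S f) {x y : V → R}
    (h : ∀ v, sl v ∈ S → x v = y v) : eval x f = eval y f := by
  have := hf.aeval_congr (A := R) h
  simpa [coe_aeval_eq_eval] using this

lemma pderiv (hf : IsML sl S f) {v : V} (hv : sl v ∈ S) :
    IsML sl (S.erase (sl v)) (pderiv v f) :=
  IsWeightedHomogeneous.pderiv hf (ind_erase_add hv)

lemma pderiv_eq_zero (hf : IsML sl S f) {v : V} (hv : sl v ∉ S) :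
    MvPolynomial.pderiv v f = 0 :=
  pderiv_eq_zero_of_notMem_vars fun h => hv (hf.mem_vars h)

/-- Euler identity in one slot. -/
lemma euler [Fintype V] (hf : IsML sl S f) {k : ι} (hk : k ∈ S) :
    f = ∑ v ∈ Finset.univ.filter (fun v => sl v = k), MvPolynomial.X v * MvPolynomial.pderiv v f := by
  have h1 : f.IsWeightedHomogeneous (fun v => if sl v = k then 1 else 0) 1 := by
    intro d hd
    have h2 := congrFun (hf hd) k
    rw [weight_wt_apply] at h2
    rw [Finsupp.weight_apply, Finsupp.sum]
    simp only [ind, hk, if_true] at h2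
    refine Eq.trans (Finset.sum_congr rfl fun v _ => ?_) h2
    split_ifs <;> simp
  have h3 := h1.sum_weight_X_mul_pderiv
  rw [one_smul] at h3
  rw [Finset.sum_filter]
  conv_lhs => rw [← h3]
  refine Finset.sum_congr rfl fun v _ => ?_
  split_ifs <;> simp

/-- A form is linear in each of its slots. -/
lemma aeval_upd [Fintype V] [CommSemiring A] [Algebra R A] (hf : IsML sl S f) {k : ι} (hk : k ∈ S)
    (x y : V → A) : aeval (upd sl k x y) f =
      ∑ v ∈ Finset.univ.filter (fun v => sl v = k), y v * aeval x (MvPolynomial.pderiv v f) := by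
  conv_lhs => rw [hf.euler hk]
  rw [map_sum]
  refine Finset.sum_congr rfl fun v hv => ?_
  have hv' : sl v = k := by simpa using hv
  rw [map_mul, aeval_X]
  congr 1
  · simp [upd, hv']
  · refine (hf.pderiv (hv' ▸ hk)).aeval_congr fun w hw => ?_
    have : sl w ≠ k := by rw [← hv']; exact (Finset.mem_erase.mp hw).1
    simp [upd, this]

lemma eval_upd [Fintype V] (hf : IsML sl S f) {k : ι} (hk : k ∈ S)
    (x y : V → R) : eval (upd sl k x y) f =
      ∑ v ∈ Finset.univ.filter (fun v => sl v = k), y v * eval x (MvPolynomial.pderiv v f) := by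
  have := hf.aeval_upd (A := R) hk x y
  simpa [coe_aeval_eq_eval] using this

lemma aeval_upd_of_notMem [CommSemiring A] [Algebra R A] (hf : IsML sl S f) {k : ι} (hk : k ∉ S)
    (x y : V → A) : aeval (upd sl k x y) f = aeval x f :=
  hf.aeval_congr fun v hv => by
    have : sl v ≠ k := fun h => hk (h ▸ hv)
    simp [upd, this]

lemma eq_C_of_empty (hf : IsML sl ∅ f) : f = C (coeff 0 f) := by
  refine (vars_eq_empty_iff_eq_C).mp ?_ |>.trans rfl
  ext v
  simpa using fun h => by simpa using hf.mem_vars h

lemma mem_idealOfVars (hf : IsML sl S f) (hS : S.Nonempty) : f ∈ idealOfVars V R := by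
  rw [← pow_one (idealOfVars V R), mem_pow_idealOfVars_iff']
  intro d hd
  by_contra h
  have h0 : d = 0 := by
    rw [Nat.lt_one_iff, Finsupp.degree_eq_zero_iff] at hd; exact hd
  obtain ⟨k, hk⟩ := hS
  have := congrFun (hf h) k
  simp [h0, ind, hk] at this

lemma rename {V' : Type*} {sl' : V' → ι} (u : V → V') (hu : ∀ v, sl' (u v) = sl v)
    (hf : IsML sl S f) : IsML sl' S (rename u f) := by
  classical
  rw [f.as_sum, map_sum]
  refine IsML.sum _ _ fun d hd => ?_
  rw [rename_monomial]
  refine isWeightedHomogeneous_monomial _ _ _ ?_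
  rw [← hf (mem_support_iff.mp hd), Finsupp.weight_apply, Finsupp.weight_apply,
    Finsupp.sum_mapDomain_index (by simp) (by intros; simp [add_smul])]
  refine Finsupp.sum_congr fun v _ => ?_
  simp [wt, hu]

/-- Substituting for each variable a linear form in the same slot keeps multilinearity. -/
lemma aeval_linear [CommSemiring A] [Algebra R A] {V' : Type*} {sl' : V' → ι}
    (σ : V → MvPolynomial V' A) (hσ : ∀ v, IsML sl' {sl v} (σ v)) (hf : IsML sl S f) :
    IsML sl' S (aeval σ f) := by
  classical
  rw [f.as_sum, map_sum]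
  refine IsML.sum _ _ fun d hd => ?_
  rw [aeval_monomial, Finsupp.prod]
  have h1 : IsWeightedHomogeneous (wt sl') (∏ v ∈ d.support, σ v ^ d v)
      (∑ v ∈ d.support, d v • wt sl v) := by
    refine IsWeightedHomogeneous.prod _ _ _ fun v _ => ?_
    have := IsWeightedHomogeneous.pow (hσ v) (d v)
    rwa [ind_singleton] at this
  have h2 : (∑ v ∈ d.support, d v • wt sl v) = ind S := by
    rw [← hf (mem_support_iff.mp hd), Finsupp.weight_apply, Finsupp.sum]
  rw [h2] at h1
  have h3 : algebraMap R (MvPolynomial V' A) (coeff d f) = C (algebraMap R A (coeff d f)) := rfl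
  rw [h3]
  exact IsML.C_mul h1 _

/-- A multilinear form that vanishes at every point is zero. -/
lemma eq_zero_of_eval [Fintype V] (hf : IsML sl S f) (h : ∀ x : V → R, eval x f = 0) : f = 0 := by
  classical
  induction S using Finset.induction_on generalizing f with
  | empty =>
    have h1 := h 0
    rw [hf.eq_C_of_empty, eval_C] at h1
    rw [hf.eq_C_of_empty, h1, C_0]
  | insert k S hk ih =>
    rw [hf.euler (Finset.mem_insert_self k S)]
    refine Finset.sum_eq_zero fun v hv => ?_
    have hv' : sl v = k := by simpa using hv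
    have h1 := hf.pderiv (v := v) (hv' ▸ Finset.mem_insert_self k S)
    rw [hv', Finset.erase_insert hk] at h1
    rw [ih h1, mul_zero]
    intro x
    have h2 := hf.eval_upd (Finset.mem_insert_self k S) x (Pi.single v 1)
    rw [h, Finset.sum_eq_single v] at h2
    · simpa using h2.symm
    · intro w _ hw; simp [hw]
    · intro hv2; exact absurd hv hv2

end IsML

lemma isML_top [Fintype ι] (f : MvPolynomial V R) : IsML sl Finset.univ (top sl f) :=
  weightedHomogeneousComponent_isWeightedHomogeneous _ _

lemma IsML.top_eq [Fintype ι] {f : MvPolynomial V R} (hf : IsML sl Finset.univ f) :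
    top sl f = f :=
  IsWeightedHomogeneous.weightedHomogeneousComponent_same hf

lemma top_map [Fintype ι] [CommSemiring A] (φ : R →+* A) (f : MvPolynomial V R) :
    top sl (map φ f) = map φ (top sl f) := by
  classical
  ext d
  simp only [top, coeff_weightedHomogeneousComponent, coeff_map]
  split_ifs <;> simp

lemma isML_dsum {S : Finset ι} {T : J → MvPolynomial V R} (hT : ∀ j, IsML sl S (T j)) (m : ℕ)
    (jl : J × Fin m) : IsML (fun vl : V × Fin m => sl vl.1) S (dsum m T jl) :=
  (hT jl.1).rename _ fun _ => rfl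

end Semiring

section Ring

variable [CommRing R]

lemma IsML.neg {S : Finset ι} {f : MvPolynomial V R} (hf : IsML sl S f) : IsML sl S (-f) :=
  IsWeightedHomogeneous.neg hf

lemma IsML.sub {S : Finset ι} {f g : MvPolynomial V R} (hf : IsML sl S f) (hg : IsML sl S g) :
    IsML sl S (f - g) :=
  IsWeightedHomogeneous.sub hf hg

lemma mem_pt {z : V → R} {f : MvPolynomial V R} : f ∈ pt z ↔ eval z f = 0 := Iff.rfl

namespace Gen

variable {s t : ℕ} {T T' : J → MvPolynomial V R}

lemma mono (h : Gen sl s T) (hst : s ≤ t) : Gen sl t T :=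
  let ⟨G, h1, h2, h3⟩ := h
  ⟨G, h1.trans hst, h2, h3⟩

lemma comp {J' : Type*} (h : Gen sl s T) (u : J' → J) : Gen sl s (fun j => T (u j)) :=
  let ⟨G, h1, h2, h3⟩ := h
  ⟨G, h1, h2, fun j => h3 (u j)⟩

/-- Build `Gen` from a family of generators. -/
lemma of_family {κ : Type*} [Fintype κ] (g : κ → MvPolynomial V R) (hc : Fintype.card κ ≤ s)
    (hg : ∀ i, g i = 0 ∨ ∃ S : Finset ι, S.Nonempty ∧ IsML sl S (g i))
    (hT : ∀ j, T j ∈ Ideal.span (Set.range g)) : Gen sl s T := by
  classical
  refine ⟨(Finset.univ.image g).filter (· ≠ 0), ?_, ?_, fun j => ?_⟩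
  · exact (Finset.card_filter_le _ _).trans (Finset.card_image_le.trans (by simpa using hc))
  · intro f hf
    obtain ⟨hf1, hf2⟩ := Finset.mem_filter.mp hf
    obtain ⟨i, -, rfl⟩ := Finset.mem_image.mp hf1
    exact (hg i).resolve_left hf2
  · refine (Ideal.span_le.mpr ?_) (hT j)
    rintro _ ⟨i, rfl⟩
    by_cases h : g i = 0
    · rw [h]; exact zero_mem _
    · exact Ideal.subset_span (by simp [h])

lemma zero (hT : ∀ j, T j = 0) : Gen sl s T :=
  ⟨∅, by simp, by simp, fun j => by rw [hT j]; exact zero_mem _⟩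

lemma eq_zero (h : Gen sl 0 T) (j : J) : T j = 0 := by
  obtain ⟨G, h1, -, h3⟩ := h
  have : G = ∅ := Finset.card_eq_zero.mp (by omega)
  simpa [this] using h3 j

lemma add (h : Gen sl s T) (h' : Gen sl t T') : Gen sl (s + t) (fun j => T j + T' j) := by
  classical
  obtain ⟨G, h1, h2, h3⟩ := h
  obtain ⟨G', h1', h2', h3'⟩ := h'
  refine ⟨G ∪ G', (Finset.card_union_le _ _).trans (by omega), fun g hg => ?_, fun j => ?_⟩
  · rcases Finset.mem_union.mp hg with h | h
    exacts [h2 g h, h2' g h]
  · exact add_mem (Ideal.span_mono (by simp) (h3 j)) (Ideal.span_mono (by simp) (h3' j))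

lemma map [CommRing A] (φ : R →+* A) (h : Gen sl s T) :
    Gen sl s (fun j => MvPolynomial.map φ (T j)) := by
  classical
  obtain ⟨G, h1, h2, h3⟩ := h
  refine ⟨G.image (MvPolynomial.map φ), Finset.card_image_le.trans h1, fun g hg => ?_, fun j => ?_⟩
  · obtain ⟨f, hf, rfl⟩ := Finset.mem_image.mp hg
    obtain ⟨S, hS, hf'⟩ := h2 f hf
    exact ⟨S, hS, hf'.map φ⟩
  · rw [Finset.coe_image, ← Ideal.map_span]
    exact Ideal.mem_map_of_mem _ (h3 j)

/-- Common zeros of the generators are common zeros of the family. -/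
lemma aeval_eq_zero [CommRing A] [Algebra R A] {G : Set (MvPolynomial V R)}
    {f : MvPolynomial V R} (hf : f ∈ Ideal.span G) {x : V → A} (hx : ∀ g ∈ G, aeval x g = 0) :
    aeval x f = 0 := by
  have : Ideal.span G ≤ RingHom.ker (aeval x : MvPolynomial V R →ₐ[R] A) :=
    Ideal.span_le.mpr hx
  exact this hf

/-- The trivial bound by the number of variables. -/
lemma of_card [Fintype V] [Fintype ι] [Nonempty ι] (hT : ∀ j, IsML sl Finset.univ (T j)) :
    Gen sl (Fintype.card V) T :=
  of_family X le_rfl (fun v => Or.inr ⟨{sl v}, by simp, IsML.X v⟩)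
    fun j => (hT j).mem_idealOfVars Finset.univ_nonempty

/-- The trivial bound by the number of slices. -/
lemma of_card_slices [Fintype J] [Fintype ι] [Nonempty ι] (hT : ∀ j, IsML sl Finset.univ (T j)) :
    Gen sl (Fintype.card J) T :=
  of_family T le_rfl (fun j => Or.inr ⟨_, Finset.univ_nonempty, hT j⟩)
    fun j => Ideal.subset_span ⟨j, rfl⟩

end Gen

end Ring

end Pool.Agent.Lib.PRank
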