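import Pool.Agent.Lib.PRank.Basic

namespace Pool.Agent.Lib.PRank

open MvPolynomial

section Aux

variable {ι V R : Type*} [DecidableEq ι] {sl : V → ι}

/-- A product of variables, one in each slot satisfying `p`, is multilinear in these slots. -/
lemma isML_prod_X [Fintype ι] [CommSemiring R] (p : ι → Prop) [DecidablePred p]
    (w : {k // p k} → V) (hw : ∀ k, sl (w k) = k.1) :
    IsML sl (Finset.univ.filter p) (∏ k, X (w k) : MvPolynomial V R) := by
  have h1 : IsWeightedHomogeneous (wt sl) (∏ k, X (w k) : MvPolynomial V R)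
      (∑ k, wt sl (w k)) :=
    IsWeightedHomogeneous.prod _ _ _ fun k _ => isWeightedHomogeneous_X R _ _
  have h2 : (∑ k, wt sl (w k)) = ind (Finset.univ.filter p) := by
    funext m
    rw [Finset.sum_apply]
    by_cases hm : p m
    · rw [Finset.sum_eq_single ⟨m, hm⟩]
      · simp [wt, hw, ind, hm]
      · intro b _ hb
        have : m ≠ b.1 := fun h => hb (Subtype.ext h.symm)
        simp [wt, hw, this]
      · simp
    · rw [Finset.sum_eq_zero]
      · simp [ind, hm]
      · intro b _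
        have : m ≠ b.1 := fun h => hm (h ▸ b.2)
        simp [wt, hw, this]
  unfold IsML
  rwa [h2] at h1

/-- The multilinear part of a multiple of a form. -/
lemma top_mul [Fintype ι] [CommSemiring R] {S : Finset ι} {g : MvPolynomial V R}
    (hg : IsML sl S g) (h : MvPolynomial V R) :
    top sl (h * g) = weightedHomogeneousComponent (wt sl) (ind Sᶜ) h * g := by
  classical
  induction h using MvPolynomial.induction_on' with
  | monomial d c =>
    have h1 : IsWeightedHomogeneous (wt sl) (monomial d c : MvPolynomial V R)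
        (Finsupp.weight (wt sl) d) := isWeightedHomogeneous_monomial _ _ _ rfl
    have h2 := IsWeightedHomogeneous.mul h1 hg
    have h3 : ind Sᶜ + ind S = ind (Finset.univ : Finset ι) := by
      rw [ind_union disjoint_compl_left]
      congr 1
      ext k
      simp [em']
    by_cases hd : Finsupp.weight (wt sl) d = ind Sᶜ
    · rw [hd] at h1 h2
      rw [h3] at h2
      rw [h1.weightedHomogeneousComponent_same]
      exact h2.weightedHomogeneousComponent_same
    · rw [h1.weightedHomogeneousComponent_ne _ (Ne.symm hd), zero_mul]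
      refine h2.weightedHomogeneousComponent_ne _ fun h => hd ?_
      rw [← h3] at h
      exact (add_right_cancel h).symm
  | add p q hp hq => rw [add_mul, map_add, map_add, add_mul, hp, hq]

end Aux

variable {κ R : Type*} [Fintype κ] [DecidableEq κ] {N : κ → Type*} [∀ i, Fintype (N i)]
  [CommRing R]

lemma isML_slices (i₀ : κ) (t : (∀ i, N i) → R) (j : N i₀) :
    IsML Sigma.fst Finset.univ (slices i₀ t j) := by
  refine IsML.sum _ _ fun a _ => IsML.C_mul ?_ _
  have h1 : IsWeightedHomogeneous (wt (Sigma.fst : (Σ k : {i // i ≠ i₀}, N k.1) → _))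
      (∏ k, X ⟨k, a k⟩ : MvPolynomial (Σ k : {i // i ≠ i₀}, N k.1) R)
      (∑ k, wt Sigma.fst (⟨k, a k⟩ : Σ k : {i // i ≠ i₀}, N k.1)) :=
    IsWeightedHomogeneous.prod _ _ _ fun k _ => isWeightedHomogeneous_X R _ _
  have h2 : (∑ k, wt Sigma.fst (⟨k, a k⟩ : Σ k : {i // i ≠ i₀}, N k.1)) = ind Finset.univ := by
    funext m
    rw [Finset.sum_apply]
    simp [wt, ind, Pi.single_apply]
  unfold IsML
  rwa [h2] at h1

/-- A product of functions on complementary nonempty proper sets of coordinates. -/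
def Term (F : (∀ i, N i) → R) : Prop :=
  ∃ (S : Finset κ) (f : (∀ i : {i // i ∈ S}, N i.1) → R) (g : (∀ i : {i // i ∉ S}, N i.1) → R),
    (S.Nonempty ∧ S ≠ Finset.univ) ∧ ∀ x, F x = f (fun i => x i.1) * g (fun i => x i.1)

omit [DecidableEq κ] [∀ i, Fintype (N i)] in
lemma apr_iff_term (t : (∀ i, N i) → R) (s : ℕ) :
    APR s t ↔ ∃ F : Fin s → (∀ i, N i) → R, (∀ k, Term (F k)) ∧ ∀ x, t x = ∑ k, F k x := by
  constructor
  · rintro ⟨S, f, g, hS, ht⟩
    exact ⟨fun k x => f k (fun i => x i.1) * g k (fun i => x i.1),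
      fun k => ⟨S k, f k, g k, hS k, fun _ => rfl⟩, ht⟩
  · rintro ⟨F, hF, ht⟩
    choose S f g hS hfg using hF
    exact ⟨S, f, g, hS, fun x => by rw [ht x]; exact Finset.sum_congr rfl fun k _ => hfg k x⟩

omit [DecidableEq κ] [∀ i, Fintype (N i)] in
lemma term_zero [Nontrivial κ] (i₀ : κ) : Term (0 : (∀ i, N i) → R) := by
  refine ⟨{i₀}, 0, 0, ⟨by simp, fun h => ?_⟩, fun x => by simp⟩
  obtain ⟨i, hi⟩ := exists_ne i₀
  have : i ∈ ({i₀} : Finset κ) := h ▸ Finset.mem_univ i
  exact hi (by simpa using this)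

omit [DecidableEq κ] [∀ i, Fintype (N i)] in
lemma apr_of_family [Nontrivial κ] (i₀ : κ) {α : Type*} [Fintype α] {s : ℕ}
    (hs : Fintype.card α ≤ s) (F : α → (∀ i, N i) → R) (hF : ∀ a, Term (F a))
    {t : (∀ i, N i) → R} (ht : ∀ x, t x = ∑ a, F a x) : APR s t := by
  classical
  obtain ⟨e⟩ : Nonempty (α ↪ Fin s) :=
    Function.Embedding.nonempty_of_card_le (by simpa using hs)
  refine (apr_iff_term t s).mpr ⟨Function.extend e F 0, fun k => ?_, fun x => ?_⟩
  · by_cases hk : ∃ a, e a = k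
    · obtain ⟨a, rfl⟩ := hk
      rw [e.injective.extend_apply]
      exact hF a
    · rw [Function.extend_apply' _ _ _ hk]
      exact term_zero i₀
  · rw [ht x]
    refine Fintype.sum_of_injective e e.injective _ _ (fun k hk => ?_) fun a => ?_
    · rw [Function.extend_apply' _ _ _ hk]
      rfl
    · rw [e.injective.extend_apply]

lemma slices_sum {α : Type*} [Fintype α] (i₀ : κ) (F : α → (∀ i, N i) → R)
    {t : (∀ i, N i) → R} (ht : ∀ x, t x = ∑ a, F a x) (j : N i₀) :
    slices i₀ t j = ∑ a, slices i₀ (F a) j := by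
  unfold slices
  rw [Finset.sum_comm]
  refine Finset.sum_congr rfl fun a _ => ?_
  rw [ht, map_sum, Finset.sum_mul]

/-- Splitting a multilinear polynomial whose coefficients factor. -/
lemma sum_split {ι : Type*} [Fintype ι] [DecidableEq ι] {M : ι → Type*} [∀ k, Fintype (M k)]
    (p : ι → Prop) [DecidablePred p] (U : (∀ k : {k // p k}, M k.1) → R)
    (W : (∀ k : {k // ¬ p k}, M k.1) → R) :
    (∑ a : (∀ k, M k), C (U (fun k => a k.1) * W (fun k => a k.1)) * ∏ k, X ⟨k, a k⟩ :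
      MvPolynomial (Σ k, M k) R) =
    (∑ b : (∀ k : {k // p k}, M k.1), C (U b) * ∏ k : {k // p k}, X ⟨k.1, b k⟩) *
      ∑ c : (∀ k : {k // ¬ p k}, M k.1), C (W c) * ∏ k : {k // ¬ p k}, X ⟨k.1, c k⟩ := by
  rw [Finset.sum_mul_sum, ← Fintype.sum_prod_type']
  refine Fintype.sum_equiv (Equiv.piEquivPiSubtypeProd p M) _ _ fun a => ?_
  have h3 := Fintype.prod_subtype_mul_prod_subtype p
    (fun k => (X ⟨k, a k⟩ : MvPolynomial (Σ k, M k) R))
  rw [← h3, map_mul]
  exact mul_mul_mul_comm _ _ _ _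

/-- The slices of a product `u * v`, where `u` depends only on the slots of `S`, `v` only on the
others, and `i₀ ∉ S`, are multiples of one form. -/
lemma slices_mul (i₀ : κ) {S : Finset κ} (hS : S.Nonempty) (hi : i₀ ∉ S)
    (u v : (∀ i, N i) → R) (hu : ∀ x y, (∀ i ∈ S, x i = y i) → u x = u y)
    (hv : ∀ x y, (∀ i ∉ S, x i = y i) → v x = v y) :
    ∃ G : MvPolynomial (Σ k : {i // i ≠ i₀}, N k.1) R,
      (∃ S' : Finset {i // i ≠ i₀}, S'.Nonempty ∧ IsML Sigma.fst S' G) ∧
      ∀ j, G ∣ slices i₀ (fun x => u x * v x) j := by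
  have hne : (Finset.univ.filter (fun k : {i // i ≠ i₀} => k.1 ∈ S)).Nonempty := by
    obtain ⟨k, hk⟩ := hS
    exact ⟨⟨k, fun h => hi (h ▸ hk)⟩, by simpa using hk⟩
  rcases isEmpty_or_nonempty (∀ i, N i) with hE | ⟨⟨x₀⟩⟩
  · refine ⟨0, ⟨_, hne, IsML.zero _⟩, fun j => ?_⟩
    rw [zero_dvd_iff]
    exact Finset.sum_eq_zero fun a _ => hE.elim ((Equiv.piSplitAt i₀ N).symm (j, a))
  obtain ⟨U, hU⟩ : ∃ U : (∀ k : {k : {i // i ≠ i₀} // k.1 ∈ S}, N k.1.1) → R,
      ∀ j (a : ∀ k : {i // i ≠ i₀}, N k.1),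
        u ((Equiv.piSplitAt i₀ N).symm (j, a)) = U (fun k => a k.1) := by
    refine ⟨fun b => u (fun i => if h : i ∈ S then b ⟨⟨i, fun h' => hi (h' ▸ h)⟩, h⟩ else x₀ i),
      fun j a => hu _ _ fun i hiS => ?_⟩
    have hi0 : i ≠ i₀ := fun h => hi (h ▸ hiS)
    simp [Equiv.piSplitAt, hi0, hiS]
  obtain ⟨W, hW⟩ : ∃ W : N i₀ → (∀ k : {k : {i // i ≠ i₀} // ¬ k.1 ∈ S}, N k.1.1) → R,
      ∀ j (a : ∀ k : {i // i ≠ i₀}, N k.1),
        v ((Equiv.piSplitAt i₀ N).symm (j, a)) = W j (fun k => a k.1) := by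
    refine ⟨fun j c => v ((Equiv.piSplitAt i₀ N).symm
      (j, fun k => if h : k.1 ∈ S then x₀ k.1 else c ⟨k, h⟩)),
      fun j a => hv _ _ fun i hiS => ?_⟩
    by_cases hi0 : i = i₀
    · subst hi0
      simp [Equiv.piSplitAt]
    · simp [Equiv.piSplitAt, hi0, hiS]
  refine ⟨_, ⟨_, hne, IsML.sum Finset.univ (fun b => C (U b) *
    ∏ k : {k : {i // i ≠ i₀} // k.1 ∈ S}, X (⟨k.1, b k⟩ : Σ k : {i // i ≠ i₀}, N k.1))
      fun b _ => IsML.C_mul (isML_prod_X (sl := Sigma.fst) (fun k : {i // i ≠ i₀} => k.1 ∈ S)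
        (fun k => (⟨k.1, b k⟩ : Σ k : {i // i ≠ i₀}, N k.1)) fun _ => rfl) _⟩, fun j => ?_⟩
  refine ⟨_, Eq.trans ?_ (sum_split (M := fun k : {i // i ≠ i₀} => N k.1)
    (fun k : {i // i ≠ i₀} => k.1 ∈ S) U (W j))⟩
  unfold slices
  refine Finset.sum_congr rfl fun a _ => ?_
  beta_reduce
  rw [hU, hW]

lemma Term.slices_dvd (i₀ : κ) {F : (∀ i, N i) → R} (hF : Term F) :
    ∃ G : MvPolynomial (Σ k : {i // i ≠ i₀}, N k.1) R,
      (∃ S' : Finset {i // i ≠ i₀}, S'.Nonempty ∧ IsML Sigma.fst S' G) ∧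
      ∀ j, G ∣ slices i₀ F j := by
  obtain ⟨S, f, g, ⟨hS, hS'⟩, hF⟩ := hF
  have hu : ∀ x y : ∀ i, N i, (∀ i ∈ S, x i = y i) →
      f (fun i => x i.1) = f (fun i => y i.1) := fun x y h => by
    congr 1; funext i; exact h i.1 i.2
  have hv : ∀ x y : ∀ i, N i, (∀ i ∉ S, x i = y i) →
      g (fun i => x i.1) = g (fun i => y i.1) := fun x y h => by
    congr 1; funext i; exact h i.1 i.2
  by_cases hi : i₀ ∈ S
  · have hF' : F = fun x => g (fun i => x i.1) * f (fun i => x i.1) := by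
      funext x; rw [hF x, mul_comm]
    rw [hF']
    refine slices_mul i₀ (S := Sᶜ) ?_ (by simpa using hi) _ _ ?_ ?_
    · rw [Finset.nonempty_iff_ne_empty]
      simpa using hS'
    · exact fun x y h => hv x y fun i hi => h i (by simpa using hi)
    · exact fun x y h => hu x y fun i hi => h i (by simpa using hi)
  · have hF' : F = fun x => f (fun i => x i.1) * g (fun i => x i.1) := funext hF
    rw [hF']
    exact slices_mul i₀ hS hi _ _ hu hv

open Classical in
/-- The point with coordinate `1` at the variables chosen by `a` and `0` elsewhere. -/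
noncomputable def dirac {ι : Type*} {M : ι → Type*} (a : ∀ k, M k) : (Σ k, M k) → R :=
  fun v => if v.2 = a v.1 then 1 else 0

lemma eval_dirac_slices (i₀ : κ) (t : (∀ i, N i) → R) (j : N i₀)
    (a : ∀ k : {i // i ≠ i₀}, N k.1) :
    eval (dirac a) (slices i₀ t j) = t ((Equiv.piSplitAt i₀ N).symm (j, a)) := by
  classical
  unfold slices
  rw [map_sum, Finset.sum_eq_single a]
  · simp [dirac]
  · intro b _ hb
    obtain ⟨k, hk⟩ := Function.ne_iff.mp hb
    rw [map_mul, map_prod, Finset.prod_eq_zero (Finset.mem_univ k), mul_zero]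
    simp [dirac, hk]
  · simp

omit [∀ i, Fintype (N i)] in
lemma term_eval (i₀ : κ) {S : Finset {i // i ≠ i₀}} (hS : S.Nonempty)
    {g : MvPolynomial (Σ k : {i // i ≠ i₀}, N k.1) R} (hg : IsML Sigma.fst S g)
    {h : N i₀ → MvPolynomial (Σ k : {i // i ≠ i₀}, N k.1) R}
    (hh : ∀ j, IsML Sigma.fst Sᶜ (h j)) :
    Term (fun x : ∀ i, N i => eval (dirac fun k : {i // i ≠ i₀} => x k.1) (h (x i₀) * g)) := by
  classical
  let S' : Finset κ := S.map (Function.Embedding.subtype _)
  have hi : i₀ ∉ S' := by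
    intro h
    obtain ⟨k, -, hk⟩ := Finset.mem_map.mp h
    exact k.2 hk
  have hmem : ∀ k : {i // i ≠ i₀}, k.1 ∈ S' ↔ k ∈ S := fun k =>
    Finset.mem_map' (Function.Embedding.subtype _)
  refine ⟨S',
    fun y => eval (fun v : (Σ k : {i // i ≠ i₀}, N k.1) =>
      if hv : v.1.1 ∈ S' then (if v.2 = y ⟨v.1.1, hv⟩ then (1 : R) else 0) else 0) g,
    fun y => eval (fun v : (Σ k : {i // i ≠ i₀}, N k.1) =>
      if hv : v.1.1 ∉ S' then (if v.2 = y ⟨v.1.1, hv⟩ then (1 : R) else 0) else 0)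
        (h (y ⟨i₀, hi⟩)),
    ⟨Finset.map_nonempty.mpr hS, fun h => hi (h ▸ Finset.mem_univ _)⟩, fun x => ?_⟩
  beta_reduce
  rw [map_mul, mul_comm]
  congr 1
  · refine hg.eval_congr fun v hv => ?_
    have := (hmem v.1).mpr hv
    simp [dirac, this]
  · refine (hh (x i₀)).eval_congr fun v hv => ?_
    have : v.1.1 ∉ S' := fun h => (Finset.mem_compl.mp hv) ((hmem v.1).mp h)
    simp [dirac, this]

/-- Partition rank of an array in terms of its slices. -/
theorem apr_iff_gen [Nontrivial κ] (i₀ : κ) (t : (∀ i, N i) → R) (s : ℕ) :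
    APR s t ↔ Gen Sigma.fst s (slices i₀ t) := by
  classical
  constructor
  · intro h
    obtain ⟨F, hF, ht⟩ := (apr_iff_term t s).mp h
    choose G hG hdvd using fun k => (hF k).slices_dvd i₀
    refine Gen.of_family G (by simp) (fun k => Or.inr (hG k)) fun j => ?_
    rw [slices_sum i₀ F ht]
    refine Ideal.sum_mem _ fun k _ => ?_
    obtain ⟨c, hc⟩ := hdvd k j
    rw [hc]
    exact Ideal.mul_mem_right _ _ (Ideal.subset_span ⟨k, rfl⟩)
  · rintro ⟨G, hc, hG, hT⟩
    choose! S hS hML using hG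
    have hT' : ∀ j, ∃ c : G → MvPolynomial (Σ k : {i // i ≠ i₀}, N k.1) R,
        slices i₀ t j = ∑ g : G, c g * g.1 := fun j => by
      obtain ⟨c, -, hc⟩ := Submodule.mem_span_finset.mp (hT j)
      refine ⟨fun g => c g.1, ?_⟩
      rw [← hc, ← Finset.sum_coe_sort G (fun g => c g • g)]
      rfl
    choose c hc' using hT'
    refine apr_of_family i₀ (α := G) (by simpa using hc)
      (fun g x => eval (dirac fun k : {i // i ≠ i₀} => x k.1)
        (weightedHomogeneousComponent (wt Sigma.fst) (ind (S g.1)ᶜ) (c (x i₀) g) * g.1))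
      (fun g => term_eval i₀ (hS g.1 g.2) (hML g.1 g.2)
        (h := fun j => weightedHomogeneousComponent (wt Sigma.fst) (ind (S g.1)ᶜ) (c j g))
        fun j => weightedHomogeneousComponent_isWeightedHomogeneous _ _) fun x => ?_
    have h1 := eval_dirac_slices i₀ t (x i₀) (fun k => x k.1)
    have h2 : (Equiv.piSplitAt i₀ N).symm (x i₀, fun k => x k.1) = x :=
      (Equiv.piSplitAt i₀ N).symm_apply_apply x
    rw [h2] at h1
    rw [← h1, ← (isML_slices i₀ t (x i₀)).top_eq, hc', map_sum, map_sum]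
    refine Finset.sum_congr rfl fun g _ => ?_
    rw [top_mul (hML g.1 g.2)]

end Pool.Agent.Lib.PRank
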