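import Pool.Agent.Lib.PRank.Dim

namespace Pool.Agent.Lib.PRank

open MvPolynomial

variable {k V : Type*} [Field k]

namespace CountAux

lemma mem_pt {z : V → k} {p : MvPolynomial V k} : p ∈ pt z ↔ eval z p = 0 := RingHom.mem_ker

lemma aeval_mem_pow {κ A : Type*} [CommRing A] [Algebra k A] (f : κ → A) (m : ℕ)
    (G : MvPolynomial κ k) (hG : ∀ γ ∈ G.support, m ≤ γ.degree) :
    aeval f G ∈ (Ideal.span (Set.range f)) ^ m := by
  rw [aeval_def, eval₂_eq]
  refine Ideal.sum_mem _ fun γ hγ => Ideal.mul_mem_left _ _ ?_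
  have h1 : ∏ i ∈ γ.support, f i ^ γ i ∈ ∏ i ∈ γ.support, (Ideal.span (Set.range f)) ^ γ i :=
    Ideal.prod_mem_prod fun i _ => Ideal.pow_mem_pow (Ideal.subset_span (Set.mem_range_self i)) _
  rw [Finset.prod_pow_eq_pow_sum] at h1
  refine Ideal.pow_le_pow_right ?_ h1
  have := hG γ hγ
  rwa [Finsupp.degree_apply] at this

lemma aeval_homog {κ A : Type*} [CommRing A] [Algebra k A] (w : κ → k) (t : A) {m : ℕ}
    {H : MvPolynomial κ k} (hH : H.IsHomogeneous m) :
    aeval (fun i => algebraMap k A (w i) * t) H = algebraMap k A (eval w H) * t ^ m := by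
  rw [aeval_def, eval₂_eq, eval_eq, map_sum, Finset.sum_mul]
  refine Finset.sum_congr rfl fun γ hγ => ?_
  have h1 : ∑ i ∈ γ.support, γ i = m := by
    have := hH (mem_support_iff.mp hγ)
    rw [← this, Finsupp.weight_apply, Finsupp.sum]
    simp
  simp only [mul_pow, Finset.prod_mul_distrib, Finset.prod_pow_eq_pow_sum, h1, map_mul, map_prod,
    map_pow]
  ring

/-- Analytic independence of a system of parameters at a point. -/
lemma analytic_indep [Infinite k] [Fintype V] {κ : Type*} [Fintype κ]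
    (hκ : Fintype.card κ = Fintype.card V) (f : κ → MvPolynomial V k) (z : V → k)
    (hz : pt z ∈ (Ideal.span (Set.range f)).minimalPrimes) (m : ℕ) (H : MvPolynomial κ k)
    (hH : H.IsHomogeneous m) (hH0 : H ≠ 0) (h : MvPolynomial V k) (hh : eval z h ≠ 0) :
    h * aeval f H ∉ pt z * (Ideal.span (Set.range f)) ^ m := by
  classical
  intro hmem
  obtain ⟨w, hw⟩ : ∃ w : κ → k, eval w H ≠ 0 := by
    by_contra hc
    push Not at hc
    exact hH0 (MvPolynomial.funext fun x => by simpa using hc x)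
  by_cases hw0 : ∀ i, w i = 0
  · have h1 := aeval_homog (A := k) w (0 : k) hH
    have h2 : (fun i => algebraMap k k (w i) * (0 : k)) = w := by
      funext i; simp [hw0 i]
    rw [h2] at h1
    have h3 : aeval w H = eval w H := by simp
    rw [h3] at h1
    have hm : m = 0 := by
      by_contra hm
      rw [zero_pow hm, mul_zero] at h1
      exact hw h1
    subst hm
    have h4 : H = C (coeff 0 H) := totalDegree_eq_zero_iff_eq_C.mp
      (Nat.le_zero.mp hH.totalDegree_le)
    rw [pow_zero, mul_one, h4, mem_pt] at hmem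
    rw [h4] at hw
    simp only [eval_C] at hw
    simp only [aeval_C, algebraMap_eq, map_mul, eval_C, mul_eq_zero] at hmem
    rcases hmem with h5 | h5
    · exact hh h5
    · exact hw h5
  push Not at hw0
  obtain ⟨i₀, hi₀⟩ := hw0
  obtain ⟨t, ht⟩ : ∃ t : MvPolynomial V k, t = C (w i₀)⁻¹ * f i₀ := ⟨_, rfl⟩
  obtain ⟨g, hg⟩ : ∃ g : {i // i ≠ i₀} → MvPolynomial V k,
      g = fun i => f i.1 - C (w i.1) * t := ⟨_, rfl⟩
  obtain ⟨J, hJ⟩ : ∃ J : Ideal (MvPolynomial V k), J = Ideal.span (Set.range g) := ⟨_, rfl⟩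
  have hfi : ∀ i, f i - C (w i) * t ∈ J := by
    intro i
    by_cases hi : i = i₀
    · subst hi
      have : f i - C (w i) * t = 0 := by
        rw [ht, ← mul_assoc, ← map_mul, mul_inv_cancel₀ hi₀, map_one, one_mul, sub_self]
      rw [this]; exact J.zero_mem
    · rw [hJ]
      exact Ideal.subset_span ⟨⟨i, hi⟩, by rw [hg]⟩
  have htI : t ∈ Ideal.span (Set.range f) := by
    rw [ht]; exact Ideal.mul_mem_left _ _ (Ideal.subset_span ⟨i₀, rfl⟩)
  have hJI : J ≤ Ideal.span (Set.range f) := by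
    rw [hJ, Ideal.span_le]
    rintro _ ⟨i, rfl⟩
    rw [hg]
    exact Ideal.sub_mem _ (Ideal.subset_span ⟨i.1, rfl⟩) (Ideal.mul_mem_left _ _ htI)
  have hπ : ∀ i, Ideal.Quotient.mkₐ k J (f i)
      = algebraMap k _ (w i) * Ideal.Quotient.mkₐ k J t := by
    intro i
    have := Ideal.Quotient.eq.mpr (hfi i)
    rw [map_mul] at this
    exact this
  have h1 : Ideal.Quotient.mkₐ k J (aeval f H)
      = algebraMap k _ (eval w H) * Ideal.Quotient.mkₐ k J t ^ m := by
    rw [← aeval_homog w _ hH, comp_aeval_apply]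
    congr 2
    funext i
    exact hπ i
  have h2 : Ideal.map (Ideal.Quotient.mk J) (Ideal.span (Set.range f))
      ≤ Ideal.span {Ideal.Quotient.mk J t} := by
    rw [Ideal.map_span, Ideal.span_le]
    rintro _ ⟨_, ⟨i, rfl⟩, rfl⟩
    have := hπ i
    simp only [Ideal.Quotient.mkₐ_eq_mk] at this
    rw [this]
    exact Ideal.mul_mem_left _ _ (Ideal.mem_span_singleton_self _)
  have h3 := Ideal.mem_map_of_mem (Ideal.Quotient.mk J) hmem
  rw [Ideal.map_mul, Ideal.map_pow] at h3
  have h4 := Ideal.mul_mono_right (Ideal.pow_right_mono h2 m) h3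
  rw [Ideal.span_singleton_pow, Ideal.mem_mul_span_singleton] at h4
  obtain ⟨μ', hμ', hμ⟩ := h4
  obtain ⟨μ, hμz, rfl⟩ := (Ideal.mem_map_iff_of_surjective _ Ideal.Quotient.mk_surjective).mp hμ'
  have h5 : (h * C (eval w H) - μ) * t ^ m ∈ J := by
    rw [← Ideal.Quotient.eq_zero_iff_mem]
    simp only [Ideal.Quotient.mkₐ_eq_mk] at h1
    rw [map_mul, h1] at hμ
    rw [map_mul, map_sub, map_mul, map_pow, sub_mul, hμ]
    have : Ideal.Quotient.mk J (C (eval w H)) = algebraMap k _ (eval w H) := rfl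
    rw [this]
    ring
  have h6 : pt z ∈ J.minimalPrimes := by
    refine ⟨⟨hz.1.1, hJI.trans hz.1.2⟩, ?_⟩
    rintro P ⟨hP, hJP⟩ hPz
    have h7 : t ∈ P := by
      rcases hP.mem_or_mem (hJP h5) with h8 | h8
      · exfalso
        have h9 := mem_pt.mp (hPz h8)
        rw [map_sub, mem_pt.mp hμz, map_mul, eval_C, sub_zero] at h9
        exact mul_ne_zero hh hw h9
      · exact hP.mem_of_pow_mem _ h8
    refine hz.2 ⟨hP, ?_⟩ hPz
    rw [Ideal.span_le]
    rintro _ ⟨i, rfl⟩
    have := P.add_mem (hJP (hfi i)) (P.mul_mem_left (C (w i)) h7)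
    simpa using this
  rw [hJ] at h6
  have h7 := card_le_of_pt_mem_minimalPrimes z g h6
  have h8 : Fintype.card {i // i ≠ i₀} < Fintype.card κ :=
    Fintype.card_subtype_lt (p := fun i => i ≠ i₀) (x := i₀) (by simp)
  omega

lemma sum_eq_zero_imp [Infinite k] [Fintype V] {κ : Type*} [Fintype κ]
    (hκ : Fintype.card κ = Fintype.card V) (f : κ → MvPolynomial V k) {α : Type*} [Fintype α]
    (z : α → V → k) (hz : ∀ a, pt (z a) ∈ (Ideal.span (Set.range f)).minimalPrimes)
    (h : α → MvPolynomial V k) (h1 : ∀ a, eval (z a) (h a) ≠ 0)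
    (h2 : ∀ a b, a ≠ b → eval (z a) (h b) = 0) (G : α → MvPolynomial κ k)
    (hG : ∑ a, h a * aeval f (G a) = 0) : G = 0 := by
  classical
  by_contra hne
  have hex : ∃ m, ∃ a, ∃ γ ∈ (G a).support, γ.degree = m := by
    obtain ⟨a, ha⟩ := Function.ne_iff.mp hne
    obtain ⟨γ, hγ⟩ := support_nonempty.mpr ha
    exact ⟨_, a, γ, hγ, rfl⟩
  obtain ⟨a, γ₀, hγ₀, hm⟩ := Nat.find_spec hex
  have hmin : ∀ b, ∀ γ ∈ (G b).support, Nat.find hex ≤ γ.degree := fun b γ hγ =>
    Nat.find_min' hex ⟨b, γ, hγ, rfl⟩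
  generalize Nat.find hex = m at hm hmin
  have hH0 : homogeneousComponent m (G a) ≠ 0 := by
    intro h0
    have := congrArg (coeff γ₀) h0
    rw [coeff_homogeneousComponent, if_pos hm, coeff_zero] at this
    exact mem_support_iff.mp hγ₀ this
  refine analytic_indep hκ f (z a) (hz a) m _ (homogeneousComponent_isHomogeneous m (G a)) hH0
    (h a) (h1 a) ?_
  have e1 : h a * aeval f (G a - homogeneousComponent m (G a))
      ∈ pt (z a) * (Ideal.span (Set.range f)) ^ m := by
    refine Ideal.mul_mem_left _ _ ?_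
    have := aeval_mem_pow f (m + 1) (G a - homogeneousComponent m (G a)) (by
      intro γ hγ
      rw [mem_support_iff, coeff_sub, coeff_homogeneousComponent] at hγ
      by_cases hd : γ.degree = m
      · rw [if_pos hd, sub_self] at hγ; exact absurd rfl hγ
      · rw [if_neg hd, sub_zero] at hγ
        have := hmin a γ (mem_support_iff.mpr hγ)
        omega)
    rw [pow_succ'] at this
    exact Ideal.mul_mono_left (hz a).1.2 this
  have e2 : ∑ b ∈ Finset.univ.erase a, h b * aeval f (G b)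
      ∈ pt (z a) * (Ideal.span (Set.range f)) ^ m := by
    refine Ideal.sum_mem _ fun b hb => Ideal.mul_mem_mul ?_ (aeval_mem_pow f m _ (hmin b))
    exact mem_pt.mpr (h2 a b (Finset.ne_of_mem_erase hb).symm)
  rw [← Finset.add_sum_erase _ _ (Finset.mem_univ a)] at hG
  have e3 : h a * aeval f (homogeneousComponent m (G a))
      = -(h a * aeval f (G a - homogeneousComponent m (G a)))
        - ∑ b ∈ Finset.univ.erase a, h b * aeval f (G b) := by
    rw [map_sub]
    linear_combination hG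
  rw [e3]
  exact Ideal.sub_mem _ (neg_mem e1) e2

/-- Exponent vectors of weighted degree at most `N`. -/
def box (σ : Type*) [Fintype σ] [DecidableEq σ] (d : σ → ℕ) (N : ℕ) : Finset (σ → ℕ) :=
  (Fintype.piFinset fun _ => Finset.range (N + 1)).filter fun γ => ∑ i, d i * γ i ≤ N

lemma mem_box {σ : Type*} [Fintype σ] [DecidableEq σ] {d : σ → ℕ} (hd : ∀ i, 1 ≤ d i) {N : ℕ}
    {γ : σ → ℕ} : γ ∈ box σ d N ↔ ∑ i, d i * γ i ≤ N := by
  rw [box, Finset.mem_filter, Fintype.mem_piFinset]
  refine ⟨fun h => h.2, fun h => ⟨fun i => ?_, h⟩⟩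
  have h1 := Finset.single_le_sum (f := fun i => d i * γ i) (fun _ _ => Nat.zero_le _)
    (Finset.mem_univ i)
  have h2 : γ i ≤ d i * γ i := Nat.le_mul_of_pos_left _ (hd i)
  rw [Finset.mem_range]
  omega

lemma card_box_le {σ : Type*} [Fintype σ] [DecidableEq σ] (d : σ → ℕ) (N : ℕ) :
    (box σ d N).card ≤ (N + 1) ^ Fintype.card σ := by
  refine (Finset.card_filter_le _ _).trans ?_
  simp [Fintype.card_piFinset]

lemma card_box_pos {σ : Type*} [Fintype σ] [DecidableEq σ] {d : σ → ℕ} (hd : ∀ i, 1 ≤ d i)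
    (N : ℕ) : 1 ≤ (box σ d N).card :=
  Finset.card_pos.mpr ⟨0, (mem_box hd).mpr (by simp)⟩

lemma card_box_one_le {σ τ : Type*} [Fintype σ] [DecidableEq σ] [Fintype τ] [DecidableEq τ]
    (e : σ ≃ τ) {d : σ → ℕ} (hd : ∀ i, 1 ≤ d i) (N : ℕ) :
    (box τ (fun _ => 1) N).card ≤ (∏ i, d i) * (box σ d N).card := by
  have h1 : (∏ i, d i) = (Fintype.piFinset fun i => Finset.range (d i)).card := by
    simp [Fintype.card_piFinset]
  rw [h1, ← Finset.card_product]
  refine Finset.card_le_card_of_injOn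
    (fun α => (fun i => α (e i) % d i, fun i => α (e i) / d i)) ?_ ?_
  · intro α hα
    have h2 := (mem_box (fun _ => le_rfl)).mp (Finset.mem_coe.mp hα)
    refine Finset.mem_coe.mpr (Finset.mem_product.mpr ⟨?_, ?_⟩)
    · exact Fintype.mem_piFinset.mpr fun i => Finset.mem_range.mpr (Nat.mod_lt _ (hd i))
    · refine (mem_box hd).mpr (le_trans ?_ h2)
      rw [← e.sum_comp]
      exact Finset.sum_le_sum fun i _ => by
        rw [one_mul]; exact Nat.mul_div_le _ _
  · intro α _ β _ hαβ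
    funext v
    obtain ⟨i, rfl⟩ := e.surjective v
    have h2 := congrFun (congrArg Prod.fst hαβ) i
    have h3 := congrFun (congrArg Prod.snd hαβ) i
    simp only at h2 h3
    rw [← Nat.div_add_mod (α (e i)) (d i), ← Nat.div_add_mod (β (e i)) (d i), h2, h3]

lemma card_le_box [Fintype V] [DecidableEq V] {ι : Type*} [Fintype ι] (v : ι → MvPolynomial V k)
    (hv : LinearIndependent k v) (M : ℕ) (hM : ∀ i, (v i).totalDegree ≤ M) :
    Fintype.card ι ≤ (box V (fun _ => 1) M).card := by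
  classical
  obtain ⟨W, hW⟩ : ∃ W : Finset (MvPolynomial V k), W = (box V (fun _ => 1) M).image
      fun α => monomial (Finsupp.equivFunOnFinite.symm α) (1 : k) := ⟨_, rfl⟩
  have h1 : Set.range v ≤ Submodule.span k (W : Set (MvPolynomial V k)) := by
    rintro _ ⟨i, rfl⟩
    rw [SetLike.mem_coe, (v i).as_sum]
    refine Submodule.sum_mem _ fun α hα => ?_
    have h2 : monomial α (coeff α (v i)) = coeff α (v i) • monomial α (1 : k) := by
      rw [smul_monomial, smul_eq_mul, mul_one]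
    rw [h2]
    refine Submodule.smul_mem _ _ (Submodule.subset_span ?_)
    rw [hW, Finset.mem_coe, Finset.mem_image]
    refine ⟨α, (mem_box fun _ => le_rfl).mpr ?_, by simp⟩
    have h3 := (le_totalDegree hα).trans (hM i)
    rw [Finsupp.sum_fintype _ _ (fun _ => rfl)] at h3
    simpa using h3
  have h2 := linearIndependent_le_span_aux' v hv (W : Set (MvPolynomial V k)) h1
  refine h2.trans ?_
  simp only [Finset.coe_sort_coe, Fintype.card_coe]
  rw [hW]
  exact Finset.card_image_le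

lemma growth (A : ℕ → ℕ) (n c D Z : ℕ) (hD : 1 ≤ D) (h0 : 1 ≤ A 0) (h1 : ∀ N, A N ≤ (N + 1) ^ n)
    (h2 : ∀ N, Z * A N ≤ D * A (N + c)) : Z ≤ D := by
  by_contra hlt
  push Not at hlt
  have hD' : (0 : ℝ) < D := by exact_mod_cast hD
  obtain ⟨r, hr⟩ : ∃ r : ℝ, r = (Z : ℝ) / D := ⟨_, rfl⟩
  have hr1 : 1 < r := by
    rw [hr, lt_div_iff₀ hD', one_mul]; exact_mod_cast hlt
  have h3 : ∀ j : ℕ, r ^ j ≤ A (j * c) := by
    intro j
    induction j with
    | zero => simpa using h0
    | succ j ih =>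
      have h4 : (Z : ℝ) * A (j * c) ≤ D * A (j * c + c) := by exact_mod_cast h2 (j * c)
      have h5 : r * A (j * c) ≤ A (j * c + c) := by
        rw [hr, div_mul_eq_mul_div, div_le_iff₀ hD']; linarith
      rw [pow_succ', add_mul, one_mul]
      exact (mul_le_mul_of_nonneg_left ih (by linarith)).trans h5
  have h4 := tendsto_pow_const_div_const_pow_of_one_lt n hr1
  have h5 : (0 : ℝ) < 1 / ((c : ℝ) + 1) ^ n := by positivity
  obtain ⟨j, hj1, hj2⟩ := ((h4.eventually (gt_mem_nhds h5)).and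
    (Filter.eventually_ge_atTop 1)).exists
  have hrj : 0 < r ^ j := by positivity
  rw [div_lt_div_iff₀ hrj (by positivity), one_mul, ← mul_pow] at hj1
  have h6 : (A (j * c) : ℝ) ≤ ((j : ℝ) * (c + 1)) ^ n := by
    have h7 : A (j * c) ≤ (j * (c + 1)) ^ n :=
      (h1 _).trans (Nat.pow_le_pow_left (by rw [mul_add, mul_one]; omega) _)
    exact_mod_cast h7
  linarith [h3 j]

lemma pt_le {P : Ideal (MvPolynomial V k)} {z : V → k} (h : ∀ v, X v - C (z v) ∈ P) :
    pt z ≤ P := by
  have h1 : ∀ p : MvPolynomial V k, p - C (eval z p) ∈ P := by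
    intro p
    induction p using MvPolynomial.induction_on with
    | C a => simp
    | add p q hp hq =>
      have := P.add_mem hp hq
      rw [map_add, map_add]
      convert this using 1
      ring
    | mul_X p v hp =>
      have := P.add_mem (P.mul_mem_right (X v) hp) (P.mul_mem_left (C (eval z p)) (h v))
      rw [map_mul, map_mul, eval_X]
      convert this using 1
      ring
  intro p hp
  have := h1 p
  rwa [mem_pt.mp hp, map_zero, sub_zero] at this

end CountAux

open CountAux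

/-- Bezout inequality for isolated points. -/
theorem card_isolated_le [Infinite k] [Fintype V] {κ : Type*} [Fintype κ]
    (hκ : Fintype.card κ = Fintype.card V) (f : κ → MvPolynomial V k) (d : κ → ℕ)
    (hd : ∀ i, 1 ≤ d i) (hf : ∀ i, (f i).totalDegree ≤ d i) (Z : Finset (V → k))
    (hZ : ∀ z ∈ Z, pt z ∈ (Ideal.span (Set.range f)).minimalPrimes) :
    Z.card ≤ ∏ i, d i := by
  classical
  have hsep : ∀ a : Z, ∃ h : MvPolynomial V k, eval a.1 h ≠ 0 ∧
      ∀ b : Z, b ≠ a → eval b.1 h = 0 := by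
    intro a
    have : ∀ b : Z, b ≠ a → ∃ v, a.1 v ≠ b.1 v := fun b hb =>
      Function.ne_iff.mp fun h => hb (Subtype.ext h.symm)
    choose v hv using this
    refine ⟨∏ b ∈ Finset.univ.attach.filter (fun b : {b // b ∈ (Finset.univ : Finset Z)} =>
      b.1 ≠ a), (if hb : b.1 ≠ a then X (v b.1 hb) - C (b.1.1 (v b.1 hb)) else 1), ?_, ?_⟩
    · rw [map_prod]
      refine Finset.prod_ne_zero_iff.mpr fun b hb => ?_
      have hb' : b.1 ≠ a := (Finset.mem_filter.mp hb).2
      rw [dif_pos hb', map_sub, eval_X, eval_C]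
      exact sub_ne_zero.mpr (hv b.1 hb')
    · intro b hb
      rw [map_prod]
      refine Finset.prod_eq_zero (i := ⟨b, Finset.mem_univ b⟩)
        (Finset.mem_filter.mpr ⟨Finset.mem_attach _ _, hb⟩) ?_
      rw [dif_pos hb, map_sub, eval_X, eval_C, sub_self]
  choose h h1 h2 using hsep
  obtain ⟨Ψ, hΨ⟩ : ∃ Ψ : (Z → MvPolynomial κ k) →ₗ[k] MvPolynomial V k,
      ∀ G, Ψ G = ∑ a, h a * aeval f (G a) :=
    ⟨∑ a, (LinearMap.mulLeft k (h a)) ∘ₗ (aeval f).toLinearMap ∘ₗ LinearMap.proj a,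
      fun G => by simp⟩
  have hker : LinearMap.ker Ψ = ⊥ := by
    rw [LinearMap.ker_eq_bot']
    intro G hG
    rw [hΨ] at hG
    exact sum_eq_zero_imp hκ f (fun a : Z => a.1) (fun a => hZ a.1 a.2) h h1
      (fun a b hab => h2 b a hab) G hG
  have hli := (Pi.linearIndependent_single (R := k) (fun (_ : Z) (γ : κ →₀ ℕ) =>
    (monomial γ (1 : k) : MvPolynomial κ k))
    (fun _ => (basisMonomials κ k).linearIndependent)).map' Ψ hker
  obtain ⟨c, hc⟩ : ∃ c, ∀ a, (h a).totalDegree ≤ c :=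
    ⟨Finset.univ.sup fun a => (h a).totalDegree, fun a =>
      Finset.le_sup (f := fun a => (h a).totalDegree) (Finset.mem_univ a)⟩
  have key : ∀ N, Z.card * (box κ d N).card ≤ (box V (fun _ => 1) (N + c)).card := by
    intro N
    have hinj : Function.Injective (fun p : Z × box κ d N =>
        (⟨p.1, Finsupp.equivFunOnFinite.symm p.2.1⟩ : Σ _ : Z, κ →₀ ℕ)) := by
      intro p q hpq
      simp only [Sigma.mk.injEq, heq_eq_eq, EmbeddingLike.apply_eq_iff_eq] at hpq
      exact Prod.ext hpq.1 (Subtype.ext hpq.2)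
    have h3 := card_le_box _ (hli.comp _ hinj) (N + c) (by
      rintro ⟨a, γ, hγ⟩
      simp only [Function.comp_apply, hΨ]
      rw [Finset.sum_eq_single a (fun b _ hb => by rw [Pi.single_eq_of_ne hb, map_zero, mul_zero])
        (fun h => absurd (Finset.mem_univ a) h), Pi.single_eq_same, aeval_monomial, map_one,
        one_mul, Finsupp.prod_fintype _ _ (fun _ => pow_zero _)]
      refine (totalDegree_mul _ _).trans ?_
      have h4 := (mem_box hd).mp hγ
      have h5 : (∏ i, f i ^ (Finsupp.equivFunOnFinite.symm γ) i).totalDegree ≤ N := by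
        refine (totalDegree_finsetProd _ _).trans (le_trans (Finset.sum_le_sum fun i _ => ?_) h4)
        refine (totalDegree_pow _ _).trans ?_
        rw [mul_comm]
        exact Nat.mul_le_mul (hf i) (by simp)
      have := hc a
      omega)
    simpa using h3
  refine growth (fun N => (box V (fun _ => 1) N).card) (Fintype.card V) c _ _
    (Finset.one_le_prod' fun i _ => hd i) (card_box_pos (fun _ => le_rfl) 0)
    (fun N => card_box_le _ N) fun N => ?_
  have h3 := card_box_one_le (Fintype.equivOfCardEq hκ) hd N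
  calc Z.card * (box V (fun _ => 1) N).card ≤ Z.card * ((∏ i, d i) * (box κ d N).card) :=
        Nat.mul_le_mul_left _ h3
    _ = (∏ i, d i) * (Z.card * (box κ d N).card) := by ring
    _ ≤ _ := Nat.mul_le_mul_left _ (key N)

/-- Points of a box at which the zero set of `Φ` has local dimension at most `e`. -/
theorem card_le_of_codim [Infinite k] [Fintype V] {κ : Type*} (Φ : κ → MvPolynomial V k) (D : ℕ)
    (hD : 1 ≤ D) (hΦ : ∀ a, (Φ a).totalDegree ≤ D) (S : Finset k) (c e : ℕ)
    (hce : c + e = Fintype.card V) (Z : Finset (V → k)) (hS : ∀ z ∈ Z, ∀ v, z v ∈ S)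
    (hΦz : ∀ z ∈ Z, ∀ a, eval z (Φ a) = 0)
    (hdim : ∀ z ∈ Z, ∀ P : Ideal (MvPolynomial V k), P.IsPrime → (∀ a, Φ a ∈ P) → P ≤ pt z →
      ¬ Indep k P (e + 1)) :
    Z.card ≤ D ^ c * S.card ^ e := by
  classical
  rcases Z.eq_empty_or_nonempty with rfl | ⟨z₀, hz₀⟩
  · simp
  obtain ⟨g, hgU, hg⟩ := exists_cut (Z : Set (V → k)) (Submodule.span k (Set.range Φ)) e c ⊥
    (fun z _ P _ _ _ => by
      have : e + c = Fintype.card V := by omega
      rw [this]; exact not_indep_card_succ P)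
    (fun z hz P hP hU hPz => hdim z hz P hP
      (fun a => hU _ (Submodule.subset_span ⟨a, rfl⟩)) hPz)
  obtain ⟨q, hq⟩ : ∃ q : V → MvPolynomial V k, q = fun v => ∏ s ∈ S, (X v - C s) := ⟨_, rfl⟩
  obtain ⟨g', hg'U, hg'⟩ := exists_cut (Z : Set (V → k)) (Submodule.span k (Set.range q)) 0 e
    (Ideal.span (Set.range g))
    (fun z hz P hP hI hPz => by
      rw [zero_add]
      exact hg z hz P hP bot_le (fun i => hI (Ideal.subset_span ⟨i, rfl⟩)) hPz)
    (fun z _ P hP hU hPz => by
      have h1 : P = pt z := by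
        refine le_antisymm hPz (pt_le fun v => ?_)
        have h2 : q v ∈ P := hU _ (Submodule.subset_span ⟨v, rfl⟩)
        rw [hq] at h2
        obtain ⟨s, _, hs⟩ := Ideal.IsPrime.prod_mem_iff.mp h2
        have h3 := mem_pt.mp (hPz hs)
        rw [map_sub, eval_X, eval_C, sub_eq_zero] at h3
        rwa [h3]
      rw [h1]
      exact not_indep_pt z)
  have hdeg : ∀ {τ : Type _} (φ : τ → MvPolynomial V k) (M : ℕ), (∀ a, (φ a).totalDegree ≤ M) →
      ∀ u ∈ Submodule.span k (Set.range φ), u.totalDegree ≤ M := by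
    intro τ φ M hφ u hu
    rw [← mem_restrictTotalDegree]
    refine (Submodule.span_le.mpr ?_ : _ ≤ restrictTotalDegree V k M) hu
    rintro _ ⟨a, rfl⟩
    exact (mem_restrictTotalDegree _ _ _).mpr (hφ a)
  have hdeg' : ∀ u ∈ Submodule.span k (Set.range q), u.totalDegree ≤ S.card := by
    intro u hu
    rw [← mem_restrictTotalDegree]
    refine (Submodule.span_le.mpr ?_ : _ ≤ restrictTotalDegree V k S.card) hu
    rintro _ ⟨v, rfl⟩
    refine (mem_restrictTotalDegree _ _ _).mpr ?_
    rw [hq]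
    refine (totalDegree_finsetProd _ _).trans ?_
    rw [Finset.card_eq_sum_ones]
    refine Finset.sum_le_sum fun s _ => (totalDegree_sub _ _).trans ?_
    simp
  have hvan : ∀ z : V → k, ∀ U : Set (MvPolynomial V k), (∀ u ∈ U, eval z u = 0) →
      ∀ u ∈ Submodule.span k U, u ∈ pt z := by
    intro z U hU u hu
    exact (Submodule.span_le.mpr (fun u hu => mem_pt.mpr (hU u hu)) :
      _ ≤ (pt z).restrictScalars k) hu
  have h := card_isolated_le (κ := Fin c ⊕ Fin e) (by simpa using hce) (Sum.elim g g')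
    (Sum.elim (fun _ => D) (fun _ => S.card)) ?_ ?_ Z ?_
  · simpa [Fintype.prod_sum_type] using h
  · rintro (i | i)
    · exact hD
    · have h1 : 0 < Fintype.card V := by have := i.pos; omega
      obtain ⟨v⟩ := Fintype.card_pos_iff.mp h1
      exact Finset.card_pos.mpr ⟨_, hS z₀ hz₀ v⟩
  · rintro (i | i)
    · exact hdeg Φ D hΦ _ (hgU i)
    · exact hdeg' _ (hg'U i)
  · intro z hz
    refine pt_mem_minimalPrimes ?_ fun P hP hI hPz => ?_
    · rw [Ideal.span_le]
      rintro _ ⟨i | i, rfl⟩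
      · refine hvan z _ ?_ _ (hgU i)
        rintro _ ⟨a, rfl⟩
        exact hΦz z hz a
      · refine hvan z _ ?_ _ (hg'U i)
        rintro _ ⟨v, rfl⟩
        rw [hq, map_prod]
        exact Finset.prod_eq_zero (hS z hz v) (by simp)
    · refine hg' z hz P hP ?_ (fun i => hI (Ideal.subset_span ⟨Sum.inr i, rfl⟩)) hPz
      rw [Ideal.span_le]
      rintro _ ⟨i, rfl⟩
      exact hI (Ideal.subset_span ⟨Sum.inl i, rfl⟩)

end Pool.Agent.Lib.PRank
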