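import Mathlib

/-!
Shared definitions for partition rank of tensors written as families of multilinear polynomials.
Variables `V` are distributed over slots `ι` by `sl : V → ι`; a tensor with one further slot `J`
is the family `T : J → MvPolynomial V R` of its slices.
-/

namespace Pool.Agent.Lib.PRank

open MvPolynomial

variable {ι V J R : Type*}

/-- The multidegree of a variable: the unit vector of its slot. -/
def wt [DecidableEq ι] (sl : V → ι) : V → ι → ℕ := fun v => Pi.single (sl v) 1

/-- The multidegree of a form that is multilinear in the slots of `S`. -/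
def ind [DecidableEq ι] (S : Finset ι) : ι → ℕ := fun k => if k ∈ S then 1 else 0

/-- `f` is a multilinear form in the slots of `S` (and does not involve the other slots). -/
def IsML [DecidableEq ι] [CommSemiring R] (sl : V → ι) (S : Finset ι) (f : MvPolynomial V R) :
    Prop :=
  f.IsWeightedHomogeneous (wt sl) (ind S)

/-- All `T j` lie in an ideal generated by at most `s` multilinear forms, each on a nonempty set
of slots.  For `T j` multilinear in all slots this says that the tensor has partition rank `≤ s`. -/
def Gen [DecidableEq ι] [CommRing R] (sl : V → ι) (s : ℕ) (T : J → MvPolynomial V R) : Prop :=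
  ∃ G : Finset (MvPolynomial V R), G.card ≤ s ∧
    (∀ g ∈ G, ∃ S : Finset ι, S.Nonempty ∧ IsML sl S g) ∧
    ∀ j, T j ∈ Ideal.span (G : Set (MvPolynomial V R))

/-- The part of a polynomial that is multilinear in all slots. -/
noncomputable def top [Fintype ι] [DecidableEq ι] [CommSemiring R] (sl : V → ι) :
    MvPolynomial V R →ₗ[R] MvPolynomial V R :=
  weightedHomogeneousComponent (wt sl) (ind Finset.univ)

/-- The ideal of polynomials vanishing at the point `z`. -/
noncomputable def pt [CommRing R] (z : V → R) : Ideal (MvPolynomial V R) := RingHom.ker (eval z)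

/-- The quotient by `P` contains `e` algebraically independent elements. -/
def Indep (k : Type*) [Field k] (P : Ideal (MvPolynomial V k)) (e : ℕ) : Prop :=
  ∃ y : Fin e → MvPolynomial V k ⧸ P, AlgebraicIndependent k y

/-- The direct sum of `m` copies of `T`; its slot map is `fun vl => sl vl.1`. -/
noncomputable def dsum [CommSemiring R] (m : ℕ) (T : J → MvPolynomial V R) :
    J × Fin m → MvPolynomial (V × Fin m) R :=
  fun jl => rename (fun v => (v, jl.2)) (T jl.1)

/-- The number of common zeros. -/
noncomputable def nz [CommSemiring R] (T : J → MvPolynomial V R) : ℕ :=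
  Nat.card {x : V → R // ∀ j, eval x (T j) = 0}

/-- The analytic rank is at most `a`: the common zeros have density at least `q ^ (-a)`. -/
def ARle [CommSemiring R] (T : J → MvPolynomial V R) (a : ℕ) : Prop :=
  Nat.card R ^ Nat.card V ≤ nz T * Nat.card R ^ a

/-- A point over the rational function field in variables `X` is `s`-free if all but at most `s`
of its coordinates are the variables `u v` themselves. -/
def IsFree {X : Type*} (E : Type*) [Field E] [Fintype V] (u : V → X) (s : ℕ)
    (ξ : V → FractionRing (MvPolynomial X E)) : Prop :=
  ∃ B : Finset V, Fintype.card V ≤ B.card + s ∧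
    ∀ b ∈ B, ξ b = algebraMap (MvPolynomial X E) _ (MvPolynomial.X (u b))

/-- Replace the coordinates of `x` in slot `k` by those of `y`. -/
def upd [DecidableEq ι] (sl : V → ι) (k : ι) (x y : V → R) : V → R :=
  fun v => if sl v = k then y v else x v

/-- The Jacobian matrix of the family `Φ` at the point `y` in the directions `e`. -/
noncomputable def jac {κ B : Type*} [Fintype V] [CommRing R] [CommRing B] [Algebra R B]
    (y : V → B) (Φ : κ → MvPolynomial V R) (e : κ → V → R) : Matrix κ κ B :=
  Matrix.of fun i j => ∑ v, aeval y (pderiv v (Φ i)) * algebraMap R B (e j v)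

/-- The array `t` is a sum of `s` products of functions on complementary nonempty proper sets of
coordinates. -/
def APR {κ : Type*} [Fintype κ] {N : κ → Type*} [CommSemiring R] (s : ℕ) (t : (∀ i, N i) → R) :
    Prop :=
  ∃ (S : Fin s → Finset κ) (f : ∀ k, (∀ i : {i // i ∈ S k}, N i.1) → R)
    (g : ∀ k, (∀ i : {i // i ∉ S k}, N i.1) → R),
    (∀ k, (S k).Nonempty ∧ S k ≠ Finset.univ) ∧
    ∀ x, t x = ∑ k, f k (fun i => x i.1) * g k (fun i => x i.1)

/-- The slices of an array in direction `i₀`, as multilinear polynomials in the other slots;
the slot map is `Sigma.fst`. -/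
noncomputable def slices {κ : Type*} [Fintype κ] [DecidableEq κ] {N : κ → Type*}
    [∀ i, Fintype (N i)] [CommSemiring R] (i₀ : κ) (t : (∀ i, N i) → R) :
    N i₀ → MvPolynomial (Σ k : {i // i ≠ i₀}, N k.1) R :=
  fun j => ∑ a : (∀ k : {i // i ≠ i₀}, N k.1),
    C (t ((Equiv.piSplitAt i₀ N).symm (j, a))) * ∏ k, X ⟨k, a k⟩

end Pool.Agent.Lib.PRank
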