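import Pool.Agent.Lib.PRank.Basic

namespace Pool.Agent.Lib.PRank

open MvPolynomial

variable {k V : Type*} [Field k]

instance pt_isMaximal (z : V → k) : (pt z).IsMaximal :=
  RingHom.ker_isMaximal_of_surjective _ fun a => ⟨C a, eval_C a⟩

lemma indep_iff {P : Ideal (MvPolynomial V k)} {e : ℕ} :
    Indep k P e ↔ ∃ y : Fin e → MvPolynomial V k,
      ∀ H : MvPolynomial (Fin e) k, aeval y H ∈ P → H = 0 := by
  have key : ∀ (y : Fin e → MvPolynomial V k) (H : MvPolynomial (Fin e) k),
      aeval (fun i => Ideal.Quotient.mk P (y i)) H = Ideal.Quotient.mk P (aeval y H) := by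
    intro y H
    have := comp_aeval_apply (f := y) (Ideal.Quotient.mkₐ k P) H
    simpa using this.symm
  constructor
  · rintro ⟨y, hy⟩
    choose y' hy' using fun i => Ideal.Quotient.mk_surjective (y i)
    refine ⟨y', fun H hH => algebraicIndependent_iff.mp hy H ?_⟩
    have : y = fun i => Ideal.Quotient.mk P (y' i) := funext fun i => (hy' i).symm
    rw [this, key, Ideal.Quotient.eq_zero_iff_mem]
    exact hH
  · rintro ⟨y, hy⟩
    refine ⟨fun i => Ideal.Quotient.mk P (y i), algebraicIndependent_iff.mpr fun H hH => hy H ?_⟩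
    rwa [key, Ideal.Quotient.eq_zero_iff_mem] at hH

lemma Indep.zero (P : Ideal (MvPolynomial V k)) [P.IsPrime] : Indep k P 0 :=
  ⟨Fin.elim0, algebraicIndependent_empty_type⟩

lemma Indep.mono {P : Ideal (MvPolynomial V k)} {e e' : ℕ} (h : Indep k P e) (he : e' ≤ e) :
    Indep k P e' :=
  let ⟨y, hy⟩ := h
  ⟨y ∘ Fin.castLE he, hy.comp _ (Fin.castLE_injective he)⟩

lemma Indep.of_le {P Q : Ideal (MvPolynomial V k)} {e : ℕ} (hPQ : P ≤ Q) (h : Indep k Q e) :
    Indep k P e :=
  let ⟨y, hy⟩ := indep_iff.mp h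
  indep_iff.mpr ⟨y, fun H hH => hy H (hPQ hH)⟩

lemma Indep.succ_of_lt {P Q : Ideal (MvPolynomial V k)} [P.IsPrime] {e : ℕ} (hPQ : P < Q)
    (h : Indep k Q e) : Indep k P (e + 1) := by
  obtain ⟨y, hy⟩ := indep_iff.mp h
  obtain ⟨w, hwQ, hwP⟩ := SetLike.exists_of_lt hPQ
  have key : ∀ (n : ℕ) (p : Polynomial (MvPolynomial (Fin e) k)), p.natDegree = n →
      Polynomial.eval₂ (aeval y : MvPolynomial (Fin e) k →ₐ[k] _).toRingHom w p ∈ P → p = 0 := by
    intro n
    induction n using Nat.strong_induction_on with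
    | _ n ih =>
      intro p hn hp
      rw [← Polynomial.X_mul_divX_add p, Polynomial.eval₂_add, Polynomial.eval₂_mul,
        Polynomial.eval₂_X, Polynomial.eval₂_C] at hp
      have h0 : p.coeff 0 = 0 := by
        refine hy _ ?_
        have := Q.sub_mem (hPQ.le hp) (Q.mul_mem_right
          (Polynomial.eval₂ (aeval y : MvPolynomial (Fin e) k →ₐ[k] _).toRingHom w p.divX) hwQ)
        simpa using this
      rw [h0, map_zero, add_zero] at hp
      have h1 := (‹P.IsPrime›.mem_or_mem hp).resolve_left hwP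
      by_cases hn0 : n = 0
      · rw [Polynomial.eq_C_of_natDegree_eq_zero (hn.trans hn0), h0, map_zero]
      · have h2 := ih _ (by rw [Polynomial.natDegree_divX_eq_natDegree_tsub_one]; omega) _ rfl h1
        rw [← Polynomial.X_mul_divX_add p, h2, h0]; simp
  refine indep_iff.mpr ⟨Fin.cons w y, fun H hH => ?_⟩
  have e1 : ∀ H : MvPolynomial (Fin (e + 1)) k, aeval (Fin.cons w y : Fin (e + 1) → _) H =
      Polynomial.eval₂ (aeval y : MvPolynomial (Fin e) k →ₐ[k] _).toRingHom w
        (finSuccEquiv k e H) := by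
    intro H
    induction H using MvPolynomial.induction_on with
    | C a => simp [finSuccEquiv_apply]
    | add p q hp hq => rw [map_add, map_add, Polynomial.eval₂_add, hp, hq]
    | mul_X p i hp =>
      rw [map_mul, map_mul, Polynomial.eval₂_mul, hp]
      congr 1
      refine Fin.cases ?_ (fun j => ?_) i
      · simp [finSuccEquiv_X_zero]
      · simp [finSuccEquiv_X_succ]
  rw [e1] at hH
  exact (finSuccEquiv k e).injective (by rw [key _ _ rfl hH, map_zero])

lemma not_indep_card_succ [Fintype V] (P : Ideal (MvPolynomial V k)) :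
    ¬ Indep k P (Fintype.card V + 1) := by
  intro h
  obtain ⟨y, hy⟩ := indep_iff.mp h
  have h1 : AlgebraicIndependent k y :=
    algebraicIndependent_iff.mpr fun H hH => hy H (hH ▸ P.zero_mem)
  have h2 := h1.lift_cardinalMk_le_trdeg
  rw [MvPolynomial.trdeg_of_isDomain] at h2
  simp only [Cardinal.mk_fintype, Fintype.card_fin, Cardinal.lift_natCast] at h2
  have : Fintype.card V + 1 ≤ Fintype.card V := by exact_mod_cast h2
  omega

lemma not_indep_pt (z : V → k) : ¬ Indep k (pt z) 1 := by
  intro h
  obtain ⟨y, hy⟩ := indep_iff.mp h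
  have h1 := hy (X 0 - C (eval z (y 0))) (by simp [mem_pt])
  have h2 := congrArg (eval fun _ => eval z (y 0) + 1) h1
  simp at h2

lemma card_le_height_pt [Fintype V] (z : V → k) :
    (Fintype.card V : ℕ∞) ≤ (pt z).height := by
  classical
  let φ : Finset V → (MvPolynomial V k →ₐ[k] MvPolynomial V k) := fun B =>
    aeval fun v => if v ∈ B then C (z v) else X v
  have hprime : ∀ B, (RingHom.ker (φ B)).IsPrime := fun B => RingHom.ker_isPrime _
  have key : ∀ B : Finset V, (B.card : ℕ∞) ≤ (RingHom.ker (φ B)).height := by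
    intro B
    induction B using Finset.induction_on with
    | empty => simp
    | insert w B hw ih =>
      have := hprime B
      have := hprime (insert w B)
      have hlt : RingHom.ker (φ B) < RingHom.ker (φ (insert w B)) := by
        refine lt_of_le_of_ne (fun f hf => ?_) fun h => ?_
        · have h1 : φ (insert w B) = (φ (insert w B)).comp (φ B) := by
            ext1 v
            by_cases hv : v ∈ B <;> simp [φ, hv]
          rw [RingHom.mem_ker] at hf ⊢
          rw [h1, AlgHom.comp_apply, hf, map_zero]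
        · have h1 : X w - C (z w) ∈ RingHom.ker (φ (insert w B)) := by
            simp [RingHom.mem_ker, φ]
          rw [← h, RingHom.mem_ker] at h1
          have h2 := congrArg (eval fun _ => z w + 1) h1
          simp [φ, hw] at h2
      rw [Finset.card_insert_of_notMem hw, Nat.cast_add, Nat.cast_one]
      exact (add_le_add_left ih 1).trans (Ideal.height_add_one_le_of_lt_of_isPrime hlt)
  refine (key Finset.univ).trans (Ideal.height_mono fun f hf => ?_)
  rw [RingHom.mem_ker] at hf
  have h1 : ∀ g, eval z (φ Finset.univ g) = eval z g := by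
    intro g
    induction g using MvPolynomial.induction_on with
    | C a => simp [φ]
    | add p q hp hq => simp only [map_add, hp, hq]
    | mul_X p i hp => rw [map_mul, map_mul, map_mul, hp]; simp [φ]
  rw [mem_pt, ← h1, hf, map_zero]

/-- Krull: a point of affine `n`-space is not isolated in the zero set of fewer than `n`
polynomials. -/
lemma card_le_of_pt_mem_minimalPrimes [Fintype V] {κ : Type*} [Fintype κ] (z : V → k)
    (f : κ → MvPolynomial V k) (h : pt z ∈ (Ideal.span (Set.range f)).minimalPrimes) :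
    Fintype.card V ≤ Fintype.card κ := by
  classical
  have h1 : Set.range f = (Finset.univ.image f : Finset _) := by simp
  rw [h1] at h
  have h2 := (card_le_height_pt z).trans (Ideal.height_le_card_of_mem_minimalPrimes_span_finset h)
  have h3 : Fintype.card V ≤ (Finset.univ.image f).card := by exact_mod_cast h2
  exact h3.trans Finset.card_image_le

/-- Generic elements of `U` cut the local dimension at finitely many points down by one each, until
the local dimension of the zero set of `U` is reached. -/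
lemma exists_cut [Infinite k] [Finite V] (Z : Set (V → k)) (U : Submodule k (MvPolynomial V k))
    (e c : ℕ) (I : Ideal (MvPolynomial V k))
    (hI : ∀ z ∈ Z, ∀ P : Ideal (MvPolynomial V k), P.IsPrime → I ≤ P → P ≤ pt z →
      ¬ Indep k P (e + c + 1))
    (hU : ∀ z ∈ Z, ∀ P : Ideal (MvPolynomial V k), P.IsPrime → (∀ u ∈ U, u ∈ P) → P ≤ pt z →
      ¬ Indep k P (e + 1)) :
    ∃ g : Fin c → MvPolynomial V k, (∀ i, g i ∈ U) ∧
      ∀ z ∈ Z, ∀ P : Ideal (MvPolynomial V k), P.IsPrime → I ≤ P → (∀ i, g i ∈ P) → P ≤ pt z →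
        ¬ Indep k P (e + 1) := by
  induction c generalizing I with
  | zero => exact ⟨Fin.elim0, fun i => i.elim0, fun z hz P hP hIP _ hPz => hI z hz P hP hIP hPz⟩
  | succ c ih =>
    have hfin : Finite {P : Ideal (MvPolynomial V k) // P ∈ I.minimalPrimes ∧ ¬ ∀ u ∈ U, u ∈ P} :=
      ((I.finite_minimalPrimes_of_isNoetherianRing _).subset fun P hP => hP.1).to_subtype
    obtain ⟨g₀, hg₀⟩ := Submodule.exists_forall_notMem_of_forall_ne_top
      (fun P : {P : Ideal (MvPolynomial V k) // P ∈ I.minimalPrimes ∧ ¬ ∀ u ∈ U, u ∈ P} =>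
        (P.1.restrictScalars k).comap U.subtype) (by
      rintro ⟨P, hP1, hP2⟩ htop
      refine hP2 fun u hu => ?_
      have : (⟨u, hu⟩ : U) ∈ (P.restrictScalars k).comap U.subtype := by rw [htop]; trivial
      exact this)
    obtain ⟨g, hg, hg'⟩ := ih (I ⊔ Ideal.span {g₀.1}) (by
      intro z hz P hP hIP hPz hind
      obtain ⟨P', hP', hP'P⟩ := Ideal.exists_minimalPrimes_le (le_sup_left.trans hIP)
      have hP'prime : P'.IsPrime := hP'.1.1
      by_cases hUP : ∀ u ∈ U, u ∈ P'
      · exact hU z hz P' hP'prime hUP (hP'P.trans hPz) ((hind.of_le hP'P).mono (by omega))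
      · have hg0 : g₀.1 ∉ P' := hg₀ ⟨P', hP', hUP⟩
        have hlt : P' < P := lt_of_le_of_ne hP'P fun h => hg0 (by
          rw [h]; exact hIP (Ideal.mem_sup_right (Ideal.subset_span rfl)))
        exact hI z hz P' hP'prime hP'.1.2 (hP'P.trans hPz) (hind.succ_of_lt hlt))
    refine ⟨Fin.cons g₀.1 g, fun i => Fin.cases g₀.2 hg i, fun z hz P hP hIP hgP hPz => ?_⟩
    refine hg' z hz P hP (sup_le hIP ?_) (fun i => hgP i.succ) hPz
    rw [Ideal.span_le, Set.singleton_subset_iff]
    exact hgP 0

/-- A point at which every prime over `I` has dimension zero is isolated. -/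
lemma pt_mem_minimalPrimes {I : Ideal (MvPolynomial V k)} {z : V → k} (hI : I ≤ pt z)
    (h : ∀ P : Ideal (MvPolynomial V k), P.IsPrime → I ≤ P → P ≤ pt z → ¬ Indep k P 1) :
    pt z ∈ I.minimalPrimes := by
  refine ⟨⟨inferInstance, hI⟩, fun P hP hPz => ?_⟩
  by_contra hne
  have := hP.1
  have hlt : P < pt z := lt_of_le_of_ne hPz fun h' => hne (h' ▸ le_rfl)
  exact h P hP.1 hP.2 hPz ((Indep.zero (pt z)).succ_of_lt hlt)

end Pool.Agent.Lib.PRank
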