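import Pool.Agent.Lib.PRank.Basic

namespace Pool.Agent.Lib.PRank

open MvPolynomial

section Coefficientwise

variable {V R A : Type*} [CommRing R] [CommRing A] [Algebra R A]

/-- Apply a linear functional to all coefficients of a polynomial. -/
noncomputable def cf (lam : A →ₗ[R] R) (p : MvPolynomial V A) : MvPolynomial V R :=
  ∑ d ∈ p.support, monomial d (lam (coeff d p))

lemma coeff_cf (lam : A →ₗ[R] R) (p : MvPolynomial V A) (d : V →₀ ℕ) :
    coeff d (cf lam p) = lam (coeff d p) := by
  classical
  simp only [cf, coeff_sum, coeff_monomial, Finset.sum_ite_eq']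
  split_ifs with h
  · rfl
  · rw [notMem_support_iff.mp h, map_zero]

lemma support_cf_subset (lam : A →ₗ[R] R) (p : MvPolynomial V A) :
    (cf lam p).support ⊆ p.support := by
  intro d hd
  rw [mem_support_iff] at hd ⊢
  intro h
  rw [coeff_cf, h, map_zero] at hd
  exact hd rfl

lemma cf_zero (lam : A →ₗ[R] R) : cf lam (0 : MvPolynomial V A) = 0 := by
  ext d; simp [coeff_cf]

lemma cf_add (lam : A →ₗ[R] R) (p q : MvPolynomial V A) :
    cf lam (p + q) = cf lam p + cf lam q := by
  ext d; simp [coeff_cf]

lemma cf_sum (lam : A →ₗ[R] R) {κ : Type*} (s : Finset κ) (p : κ → MvPolynomial V A) :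
    cf lam (∑ i ∈ s, p i) = ∑ i ∈ s, cf lam (p i) := by
  ext d; simp [coeff_cf, coeff_sum]

lemma cf_mul_map (lam : A →ₗ[R] R) (p : MvPolynomial V A) (g : MvPolynomial V R) :
    cf lam (p * map (algebraMap R A) g) = cf lam p * g := by
  classical
  ext d
  simp only [coeff_cf, coeff_mul, map_sum, coeff_map]
  refine Finset.sum_congr rfl fun x _ => ?_
  rw [mul_comm, ← Algebra.smul_def, map_smul, smul_eq_mul, mul_comm]

lemma cf_C (lam : A →ₗ[R] R) (a : A) : cf lam (C a : MvPolynomial V A) = C (lam a) := by
  classical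
  ext d
  simp only [coeff_cf, coeff_C]
  split_ifs <;> simp

lemma cf_C_mul_map (lam : A →ₗ[R] R) (a : A) (g : MvPolynomial V R) :
    cf lam (C a * map (algebraMap R A) g) = C (lam a) * g := by
  rw [cf_mul_map, cf_C]

lemma cf_map (lam : A →ₗ[R] R) (g : MvPolynomial V R) :
    cf lam (map (algebraMap R A) g) = C (lam 1) * g := by
  rw [← cf_C_mul_map, C_1, one_mul]

/-- Decomposition of a polynomial along a finite basis of the coefficient algebra. -/
lemma eq_sum_cf {κ : Type*} [Fintype κ] (b : Module.Basis κ R A) (g : MvPolynomial V A) :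
    g = ∑ i, C (b i) * map (algebraMap R A) (cf (b.coord i) g) := by
  ext d
  simp only [coeff_sum, coeff_C_mul, coeff_map, coeff_cf]
  conv_lhs => rw [← b.sum_repr (coeff d g)]
  refine Finset.sum_congr rfl fun i _ => ?_
  rw [Algebra.smul_def, mul_comm]
  rfl

lemma cf_mul_mem {κ : Type*} [Fintype κ] (b : Module.Basis κ R A) (lam : A →ₗ[R] R)
    (I : Ideal (MvPolynomial V R)) (h g : MvPolynomial V A) (hg : ∀ i, cf (b.coord i) g ∈ I) :
    cf lam (h * g) ∈ I := by
  rw [eq_sum_cf b g, Finset.mul_sum, cf_sum]
  refine Submodule.sum_mem _ fun i _ => ?_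
  rw [← mul_assoc, cf_mul_map]
  exact I.mul_mem_left _ (hg i)

/-- The coefficientwise image of an element of an ideal lies in the ideal generated by the
coordinates of the generators. -/
lemma cf_mem_of_mem_span {κ : Type*} [Fintype κ] (b : Module.Basis κ R A) (lam : A →ₗ[R] R)
    (I : Ideal (MvPolynomial V R)) {G : Set (MvPolynomial V A)}
    (hG : ∀ g ∈ G, ∀ i, cf (b.coord i) g ∈ I) {p : MvPolynomial V A} (hp : p ∈ Ideal.span G) :
    cf lam p ∈ I := by
  suffices H : ∀ h : MvPolynomial V A, cf lam (h * p) ∈ I by simpa using H 1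
  induction hp using Submodule.span_induction with
  | mem g hg => exact fun h => cf_mul_mem b lam I h g (hG g hg)
  | zero => intro h; rw [mul_zero, cf_zero]; exact zero_mem _
  | add x y _ _ hx hy => intro h; rw [mul_add, cf_add]; exact add_mem (hx h) (hy h)
  | smul a x _ hx => intro h; rw [smul_eq_mul, ← mul_assoc]; exact hx _

lemma IsML.cf {ι : Type*} [DecidableEq ι] {sl : V → ι} {S : Finset ι} (lam : A →ₗ[R] R)
    {g : MvPolynomial V A} (hg : IsML sl S g) : IsML sl S (cf lam g) :=
  hg.of_support_subset (support_cf_subset lam g)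

/-- Coordinates of a family with few generators have few generators. -/
lemma Gen.cf {ι J κ : Type*} [DecidableEq ι] {sl : V → ι} [Fintype κ] (b : Module.Basis κ R A)
    (lam : J → A →ₗ[R] R) {s : ℕ} {T : J → MvPolynomial V A} (h : Gen sl s T) :
    Gen sl (Fintype.card κ * s) (fun j => cf (lam j) (T j)) := by
  obtain ⟨G, h1, h2, h3⟩ := h
  refine Gen.of_family (κ := κ × G) (fun x => PRank.cf (b.coord x.1) x.2.1) ?_ ?_ fun j => ?_
  · rw [Fintype.card_prod, Fintype.card_coe]
    exact Nat.mul_le_mul_left _ h1
  · intro x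
    obtain ⟨S, hS, hg⟩ := h2 x.2.1 x.2.2
    exact Or.inr ⟨S, hS, hg.cf _⟩
  · exact cf_mem_of_mem_span b _ _
      (fun g hg i => Ideal.subset_span (Set.mem_range_self (f := fun x : κ × G =>
        PRank.cf (b.coord x.1) x.2.1) (i, ⟨g, hg⟩))) (h3 j)

end Coefficientwise

namespace ExtAux

open Finset

open Classical in
lemma card_zero {Y : Type*} [Fintype Y] (k : ℕ) (P : Y → Prop) :
    (univ.filter fun y : Fin (k + 1) → Y => P (y 0)).card =
      (univ.filter P).card * Fintype.card Y ^ k := by
  have : (univ.filter fun y : Fin (k + 1) → Y => P (y 0)) =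
      Fintype.piFinset (Fin.cons (univ.filter P) fun _ => univ : Fin (k + 1) → Finset Y) := by
    ext y
    simp [Fin.forall_fin_succ]
  rw [this, Fintype.card_piFinset, Fin.prod_univ_succ]
  simp

open Classical in
lemma card_all {Y : Type*} [Fintype Y] (k : ℕ) (P : Y → Prop) :
    (univ.filter fun y : Fin k → Y => ∀ i, P (y i)).card = (univ.filter P).card ^ k := by
  have : (univ.filter fun y : Fin k → Y => ∀ i, P (y i)) =
      Fintype.piFinset fun _ => univ.filter P := by
    ext y
    simp
  rw [this, Fintype.card_piFinset]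
  simp

open Classical in
lemma card_split {Ω X Z : Type*} [Fintype Ω] [Fintype X] [Fintype Z] (e : X × Z ≃ Ω)
    (E : Ω → Prop) :
    (univ.filter E).card = ∑ x, (univ.filter fun z => E (e (x, z))).card := by
  simp only [card_filter]
  rw [← e.sum_comp, Fintype.sum_prod_type]

open Classical in
lemma one_slot {Ω X Y : Type*} [Fintype Ω] [Fintype X] [Fintype Y] (k : ℕ)
    (e : X × (Fin (k + 1) → Y) ≃ Ω) (W : X → Y → Prop) (E E' : Ω → Prop)
    (h1 : ∀ x y, E (e (x, y)) → W x (y 0)) (h2 : ∀ x y, (∀ i, W x (y i)) → E' (e (x, y))) :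
    (univ.filter E).card ^ (k + 1) ≤ Fintype.card Ω ^ k * (univ.filter E').card := by
  have a1 : (univ.filter E).card ≤ (∑ x, (univ.filter (W x)).card) * Fintype.card Y ^ k := by
    rw [card_split e, sum_mul]
    refine sum_le_sum fun x _ => ?_
    rw [← card_zero]
    exact card_le_card (monotone_filter_right _ fun y _ => h1 x y)
  have a2 : ∑ x, (univ.filter (W x)).card ^ (k + 1) ≤ (univ.filter E').card := by
    rw [card_split e]
    refine sum_le_sum fun x _ => ?_
    rw [← card_all]
    exact card_le_card (monotone_filter_right _ fun y _ => h2 x y)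
  have a3 := pow_sum_le_card_mul_sum_pow (s := univ) (f := fun x => (univ.filter (W x)).card)
    (fun _ _ => Nat.zero_le _) k
  have a4 : Fintype.card Ω = Fintype.card X * Fintype.card Y ^ (k + 1) := by
    rw [← Fintype.card_congr e]
    simp
  calc (univ.filter E).card ^ (k + 1)
      ≤ ((∑ x, (univ.filter (W x)).card) * Fintype.card Y ^ k) ^ (k + 1) :=
        Nat.pow_le_pow_left a1 _
    _ = (∑ x, (univ.filter (W x)).card) ^ (k + 1) * (Fintype.card Y ^ (k + 1)) ^ k := by
        rw [mul_pow, ← pow_mul, ← pow_mul, mul_comm k]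
    _ ≤ (Fintype.card X ^ k * (univ.filter E').card) * (Fintype.card Y ^ (k + 1)) ^ k := by
        refine Nat.mul_le_mul_right _ (a3.trans ?_)
        simpa using Nat.mul_le_mul_left _ a2
    _ = _ := by rw [a4, mul_pow]; ring

variable {ι V F : Type*} [DecidableEq ι]

/-- All mixed points that use only the first copy outside `U` lie in `Z`. -/
def Ev (sl : V → ι) (k : ℕ) (Z : (V → F) → Prop) (U : Finset ι) (ω : V → Fin (k + 1) → F) : Prop :=
  ∀ c : ι → Fin (k + 1), (∀ s, s ∉ U → c s = 0) → Z fun v => ω v (c (sl v))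

/-- Splitting the coordinates according to a slot. -/
def glue (sl : V → ι) (k : ℕ) (s : ι) :
    ({v // ¬ sl v = s} → Fin (k + 1) → F) × (Fin (k + 1) → {v // sl v = s} → F) ≃
      (V → Fin (k + 1) → F) where
  toFun xy v i := if h : sl v = s then xy.2 i ⟨v, h⟩ else xy.1 ⟨v, h⟩ i
  invFun ω := (fun v i => ω v.1 i, fun i v => ω v.1 i)
  left_inv := by
    rintro ⟨x, y⟩
    ext1
    · funext v i
      simp [v.2]
    · funext i v
      simp [v.2]
  right_inv ω := by
    funext v i
    simp

open Classical in
lemma step [Fintype V] [Fintype F] (sl : V → ι) (k : ℕ) (Z : (V → F) → Prop) (U : Finset ι)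
    (s : ι) (hs : s ∉ U) :
    (univ.filter (Ev sl k Z U)).card ^ (k + 1) ≤
      Fintype.card (V → Fin (k + 1) → F) ^ k * (univ.filter (Ev sl k Z (insert s U))).card := by
  refine one_slot k (glue sl k s) (fun x y₀ => Ev sl k Z U (glue sl k s (x, fun _ => y₀))) _ _
    (fun x y h c hc => ?_) (fun x y h c hc => ?_)
  · convert h c hc using 2 with v
    simp only [glue, Equiv.coe_fn_mk]
    split_ifs with hv
    · rw [show c (sl v) = 0 by rw [hv, hc s hs]]
    · rfl
  · convert h (c s) (Function.update c s 0) (fun t ht => ?_) using 2 with v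
    · simp only [glue, Equiv.coe_fn_mk]
      split_ifs with hv
      · rw [show c (sl v) = c s by rw [hv]]
      · rw [Function.update_of_ne hv]
    · by_cases hts : t = s
      · rw [hts, Function.update_self]
      · rw [Function.update_of_ne hts]
        exact hc t (by simp [ht, hts])

omit [DecidableEq ι] in
open Classical in
lemma base [Fintype V] [Fintype F] (sl : V → ι) (k : ℕ) (Z : (V → F) → Prop) :
    (univ.filter (Ev sl k Z ∅)).card = (univ.filter Z).card * Fintype.card (V → F) ^ k := by
  rw [← card_zero]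
  refine card_equiv (Equiv.piComm _) fun ω => ?_
  simp only [mem_filter, mem_univ, true_and]
  constructor
  · intro h
    exact h (fun _ => 0) fun _ _ => rfl
  · intro h c hc
    have : c = fun _ => 0 := funext fun s => hc s (notMem_empty s)
    rw [this]
    exact h

open Classical in
lemma dens [Fintype V] [Fintype F] [Nonempty F] (sl : V → ι) (k : ℕ) (Z : (V → F) → Prop) (B : ℕ)
    (h : Fintype.card (V → F) ≤ (univ.filter Z).card * B) (U : Finset ι) :
    Fintype.card (V → Fin (k + 1) → F) ≤
      (univ.filter (Ev sl k Z U)).card * B ^ (k + 1) ^ U.card := by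
  induction U using Finset.induction_on with
  | empty =>
    rw [base, card_empty, pow_zero, pow_one, mul_right_comm,
      Fintype.card_congr (Equiv.piComm fun (_ : V) (_ : Fin (k + 1)) => F), Fintype.card_fun,
      Fintype.card_fin, pow_succ']
    exact Nat.mul_le_mul_right _ h
  | insert s U hs ih =>
    have h1 := Nat.pow_le_pow_left ih (k + 1)
    rw [mul_pow, ← pow_mul, ← pow_succ, pow_succ] at h1
    have h2 := h1.trans (Nat.mul_le_mul_right _ (step sl k Z U s hs))
    rw [mul_assoc] at h2
    rw [card_insert_of_notMem hs]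
    exact Nat.le_of_mul_le_mul_left h2 (pow_pos Fintype.card_pos _)

lemma zero_of_mix [Fintype V] [Fintype ι] {K : Type*} [Field F] [Field K] [Algebra F K]
    {sl : V → ι} {κ : Type*} [Fintype κ] (b : κ → K) (ω : V → κ → F) {f : MvPolynomial V F}
    (hf : IsML sl univ f) (h : ∀ c : ι → κ, eval (fun v => ω v (c (sl v))) f = 0) (U : Finset ι) :
    ∀ c : ι → κ, aeval (fun v => if sl v ∈ U then ∑ i, ω v i • b i
      else algebraMap F K (ω v (c (sl v)))) f = 0 := by
  induction U using Finset.induction_on with
  | empty =>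
    intro c
    simp only [notMem_empty, if_false]
    have := aeval_algebraMap_apply K (fun v => ω v (c (sl v))) f
    refine Eq.trans this ?_
    rw [aeval_eq_eval, h, map_zero]
  | insert s U hs ih =>
    intro c
    set x : V → K := fun v => if sl v ∈ U then ∑ i, ω v i • b i
      else algebraMap F K (ω v (c (sl v))) with hx
    have e1 : (fun v => if sl v ∈ insert s U then ∑ i, ω v i • b i
        else algebraMap F K (ω v (c (sl v)))) = upd sl s x fun v => ∑ i, ω v i • b i := by
      funext v
      by_cases hv : sl v = s <;> simp [upd, hx, hv]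
    have e2 : ∀ i, aeval (upd sl s x fun v => algebraMap F K (ω v i)) f = 0 := by
      intro i
      rw [← ih (Function.update c s i)]
      congr 2
      funext v
      by_cases hv : sl v = s
      · simp [upd, hv, hs]
      · simp [upd, hx, hv]
    rw [e1, hf.aeval_upd (mem_univ s)]
    simp only [hf.aeval_upd (mem_univ s)] at e2
    simp only [sum_mul]
    rw [sum_comm]
    refine sum_eq_zero fun i _ => ?_
    rw [← mul_zero (b i), ← e2 i, mul_sum]
    refine sum_congr rfl fun v _ => ?_
    rw [Algebra.smul_def]
    ring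

end ExtAux

variable {ι V J : Type*} [Fintype ι] [DecidableEq ι] [Fintype V] {sl : V → ι}

/-- Analytic rank over an extension field (Jensen, one slot at a time). -/
theorem arle_ext {F K : Type*} [Field F] [Finite F] [Field K] [Finite K] [Algebra F K]
    (T : J → MvPolynomial V F) (hT : ∀ j, IsML sl Finset.univ (T j)) {a : ℕ} (h : ARle T a) :
    ARle (fun j => map (algebraMap F K) (T j)) (Module.finrank F K ^ Fintype.card ι * a) := by
  classical
  cases nonempty_fintype F
  cases nonempty_fintype K
  obtain ⟨k, hk⟩ : ∃ k, Module.finrank F K = k + 1 :=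
    Nat.exists_eq_succ_of_ne_zero Module.finrank_pos.ne'
  let b : Module.Basis (Fin (k + 1)) F K := Module.finBasisOfFinrankEq F K hk
  have hQ : Nat.card K = Nat.card F ^ (k + 1) := by
    rw [Module.natCard_eq_pow_finrank (K := F), hk]
  unfold ARle nz at h ⊢
  have h1 := ExtAux.dens sl k (fun x : V → F => ∀ j, eval x (T j) = 0) (Nat.card F ^ a)
    (by
      rw [Nat.subtype_card (Finset.univ.filter fun x : V → F => ∀ j, eval x (T j) = 0)
        (by simp)] at h
      simpa using h) Finset.univ
  have h2 : (Finset.univ.filter (ExtAux.Ev sl k (fun x : V → F => ∀ j, eval x (T j) = 0)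
      Finset.univ)).card ≤
      Nat.card {x : V → K // ∀ j, eval x (map (algebraMap F K) (T j)) = 0} := by
    rw [Nat.subtype_card (Finset.univ.filter
      fun x : V → K => ∀ j, eval x (map (algebraMap F K) (T j)) = 0) (by simp)]
    refine Finset.card_le_card_of_injOn (fun ω v => ∑ i, ω v i • b i) (fun ω hω => ?_) ?_
    · simp only [Finset.coe_filter, Finset.mem_univ, true_and, Set.mem_ofPred_eq] at hω ⊢
      intro j
      have := ExtAux.zero_of_mix b ω (hT j) (fun c => hω c (by simp) j) Finset.univ fun _ => 0
      rw [eval_map, ← aeval_def]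
      simpa using this
    · intro ω _ ω' _ hω
      funext v
      apply b.equivFun.symm.injective
      simpa using congrFun hω v
  have h3 : Fintype.card (V → Fin (k + 1) → F) = Nat.card K ^ Nat.card V := by
    rw [hQ]
    simp
  rw [← h3, hk]
  refine h1.trans (Nat.mul_le_mul h2 ?_)
  rw [← pow_mul, mul_comm a, Finset.card_univ]
  refine Nat.pow_le_pow_left ?_ _
  rw [hQ]
  exact Nat.le_self_pow (Nat.succ_ne_zero k) _

/-- Writing the generators in a basis of the extension field. -/
theorem gen_of_ext {F K : Type*} [Field F] [Field K] [Algebra F K] [FiniteDimensional F K]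
    (T : J → MvPolynomial V F) {s : ℕ} (h : Gen sl s (fun j => map (algebraMap F K) (T j))) :
    Gen sl (Module.finrank F K * s) T := by
  obtain ⟨lam, hlam⟩ := Module.Projective.exists_dual_eq_one F (one_ne_zero : (1 : K) ≠ 0)
  have := h.cf (Module.finBasis F K) fun _ => lam
  simpa [cf_map, hlam] using this

/-- Schwartz-Zippel for a nonzero tensor. -/
theorem two_mul_nz_le {F : Type*} [Field F] [Finite F] (hq : 2 * Fintype.card ι ≤ Nat.card F)
    (T : J → MvPolynomial V F) (hT : ∀ j, IsML sl Finset.univ (T j)) (hne : ∃ j, T j ≠ 0) :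
    2 * nz T ≤ Nat.card F ^ Nat.card V := by
  classical
  cases nonempty_fintype F
  obtain ⟨j, hj⟩ := hne
  let e := Fintype.equivFin V
  have hp : rename e (T j) ≠ 0 := fun h0 => hj (rename_injective _ e.injective (by simpa using h0))
  have h1 := schwartz_zippel_totalDegree hp (Finset.univ : Finset F)
  have hd : (rename e (T j)).totalDegree ≤ Fintype.card ι :=
    (totalDegree_rename_le _ _).trans (by simpa using (hT j).totalDegree_le)
  set n := (Finset.filter (fun f => eval f (rename e (T j)) = 0)
    (Fintype.piFinset fun _ : Fin (Fintype.card V) => (Finset.univ : Finset F))).card with hn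
  have h2 : nz T ≤ n := by
    unfold nz
    rw [Nat.subtype_card (Finset.univ.filter fun x : V → F => ∀ j, eval x (T j) = 0) (by simp)]
    refine Finset.card_le_card_of_injOn (fun x => x ∘ e.symm) (fun x hx => ?_) ?_
    · simp only [Finset.coe_filter, Finset.mem_univ, true_and, Set.mem_ofPred_eq,
        Fintype.piFinset_univ] at hx ⊢
      rw [eval_rename, Function.comp_assoc, Equiv.symm_comp_self, Function.comp_id]
      exact hx j
    · intro x _ y _ hxy
      exact e.symm.surjective.injective_comp_right hxy
  rw [Finset.card_univ] at h1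
  rw [Nat.card_eq_fintype_card] at hq
  rw [Nat.card_eq_fintype_card, Nat.card_eq_fintype_card]
  have hq0 : (0 : ℚ≥0) < Fintype.card F := by exact_mod_cast Fintype.card_pos
  rw [div_le_div_iff₀ (pow_pos hq0 _) hq0] at h1
  have h3 : n * Fintype.card F ≤
      (rename e (T j)).totalDegree * Fintype.card F ^ Fintype.card V := by exact_mod_cast h1
  have h4 : 2 * n * Fintype.card F ≤ Fintype.card F ^ Fintype.card V * Fintype.card F := by
    calc 2 * n * Fintype.card F = 2 * (n * Fintype.card F) := by ring
      _ ≤ 2 * (Fintype.card ι * Fintype.card F ^ Fintype.card V) :=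
          Nat.mul_le_mul_left _ (h3.trans (Nat.mul_le_mul_right _ hd))
      _ = Fintype.card F ^ Fintype.card V * (2 * Fintype.card ι) := by ring
      _ ≤ _ := Nat.mul_le_mul_left _ hq
  exact (Nat.mul_le_mul_left _ h2).trans (Nat.le_of_mul_le_mul_right h4 Fintype.card_pos)

end Pool.Agent.Lib.PRank
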