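import Pool.Agent.Lib.PRank.MainA
import Pool.Agent.Lib.PRank.Bridge

namespace Pool.Agent.Lib.PRank

open MvPolynomial

open Classical in
/-- A nonzero multilinear form on `S` is nonzero with probability at least `2 ^ (-|S|)`. -/
lemma card_le_card_ne {ι V F : Type*} [DecidableEq ι] [Fintype V] [Field F] [Fintype F]
    {sl : V → ι} (S : Finset ι) : ∀ f : MvPolynomial V F, IsML sl S f → f ≠ 0 →
      Fintype.card (V → F) ≤ 2 ^ S.card * (Finset.univ.filter fun x => eval x f ≠ 0).card := by
  induction S using Finset.induction_on with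
  | empty =>
    intro f hf h0
    have h1 : ∀ x : V → F, eval x f ≠ 0 := by
      intro x
      rw [hf.eq_C_of_empty, eval_C]
      intro h
      exact h0 (by rw [hf.eq_C_of_empty, h, map_zero])
    simp [Finset.filter_true_of_mem fun x _ => h1 x]
  | insert k S hk ih =>
    intro f hf h0
    have hkS : k ∈ insert k S := Finset.mem_insert_self k S
    obtain ⟨v, hv, hv0⟩ : ∃ v, sl v = k ∧ pderiv v f ≠ 0 := by
      by_contra h
      push Not at h
      apply h0
      rw [hf.euler hkS]
      exact Finset.sum_eq_zero fun v hv => by rw [h v (by simpa using hv), mul_zero]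
    have hg := hf.pderiv (v := v) (hv ▸ hkS)
    rw [hv, Finset.erase_insert hk] at hg
    have h1 := ih _ hg hv0
    have hadd : ∀ x : V → F, eval (x + Pi.single v 1) f = eval x f + eval x (pderiv v f) := by
      intro x
      have e1 : upd sl k x x = x := by ext w; simp [upd]
      have e2 : upd sl k x (x + Pi.single v 1) = x + Pi.single v 1 := by
        ext w
        by_cases hw : sl w = k
        · simp [upd, hw]
        · have : w ≠ v := fun h => hw (h ▸ hv)
          simp [upd, hw, this]
      have a1 := hf.eval_upd hkS x x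
      have a2 := hf.eval_upd hkS x (x + Pi.single v 1)
      rw [e1] at a1
      rw [e2] at a2
      rw [a2, a1]
      simp only [Pi.add_apply, add_mul, Finset.sum_add_distrib, add_right_inj]
      rw [Finset.sum_eq_single v]
      · simp
      · intro w _ hw; simp [hw]
      · intro h; exact absurd (by simpa using hv) h
    have h2 : (Finset.univ.filter fun x : V → F => eval x (pderiv v f) ≠ 0 ∧ eval x f = 0).card ≤
        (Finset.univ.filter fun x => eval x f ≠ 0).card := by
      refine Finset.card_le_card_of_injOn (fun x => x + Pi.single v 1) (fun x hx => ?_)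
        fun x _ y _ h => add_right_cancel h
      simp only [Finset.coe_filter, Finset.mem_univ, true_and, Set.mem_ofPred_eq] at hx ⊢
      rw [hadd, hx.2, zero_add]
      exact hx.1
    have h3 : (Finset.univ.filter fun x : V → F => eval x (pderiv v f) ≠ 0) ⊆
        (Finset.univ.filter fun x : V → F => eval x (pderiv v f) ≠ 0 ∧ eval x f = 0) ∪
        (Finset.univ.filter fun x => eval x f ≠ 0) := by
      intro x hx
      simp only [Finset.mem_union, Finset.mem_filter, Finset.mem_univ, true_and] at hx ⊢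
      tauto
    have h4 := (Finset.card_le_card h3).trans (Finset.card_union_le _ _)
    rw [Finset.card_insert_of_notMem hk, pow_succ, mul_assoc]
    exact h1.trans (Nat.mul_le_mul_left _ (by omega))

/-- Partition rank is at most linear in the real-valued analytic rank. -/
theorem exists_gen_real (D : ℕ) (F : Type) [Field F] [Fintype F] : ∃ C : ℝ,
    ∀ (ι V J : Type) [Fintype ι] [DecidableEq ι] [Nonempty ι] [Fintype V] [Fintype J]
      (sl : V → ι), Fintype.card ι = D → ∀ T : J → MvPolynomial V F,
      (∀ j, IsML sl Finset.univ (T j)) → ∃ r : ℕ,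
        (r : ℝ) ≤ C * (-Real.logb (Fintype.card F) ((nz T : ℝ) / Nat.card (V → F))) ∧
        Gen sl r T := by
  classical
  obtain ⟨C, -, hC⟩ := gen_of_arle D
  have hq : (1 : ℝ) < Fintype.card F := by exact_mod_cast Fintype.one_lt_card
  let c : ℝ := -Real.logb (Fintype.card F) (1 - 1 / 2 ^ (D + 1))
  have h2 : (0 : ℝ) < 1 / 2 ^ (D + 1) := by positivity
  have h3 : (1 : ℝ) / 2 ^ (D + 1) < 1 := by
    rw [div_lt_one (by positivity)]
    exact one_lt_pow₀ (by norm_num) (by omega)
  have hc : 0 < c := neg_pos.mpr (Real.logb_neg hq (by linarith) (by linarith))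
  refine ⟨C * (1 + 1 / c), fun ι V J _ _ _ _ _ sl hD T hT => ?_⟩
  have hnz : nz T = (Finset.univ.filter fun x : V → F => ∀ j, eval x (T j) = 0).card := by
    unfold nz
    rw [Nat.subtype_card (Finset.univ.filter fun x : V → F => ∀ j, eval x (T j) = 0) (by simp)]
  have hN : (0 : ℝ) < Nat.card (V → F) := by exact_mod_cast Nat.card_pos
  by_cases h0 : ∀ j, T j = 0
  · refine ⟨0, ?_, Gen.zero h0⟩
    have : nz T = Nat.card (V → F) := by
      rw [hnz, Finset.filter_true_of_mem (by simp [h0]), Finset.card_univ, Nat.card_eq_fintype_card]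
    rw [this, div_self hN.ne']
    simp
  push Not at h0
  obtain ⟨j, hj⟩ := h0
  have hpos : (0 : ℝ) < nz T := by
    rw [hnz]
    norm_cast
    refine Finset.card_pos.mpr ⟨0, ?_⟩
    simp only [Finset.mem_filter, Finset.mem_univ, true_and]
    intro j
    rw [← mem_pt, pt_zero_eq]
    exact (hT j).mem_idealOfVars Finset.univ_nonempty
  have hle : (nz T : ℝ) / Nat.card (V → F) ≤ 1 - 1 / 2 ^ (D + 1) := by
    have h4 := card_le_card_ne _ _ (hT j) hj
    have h5 : nz T + (Finset.univ.filter fun x : V → F => eval x (T j) ≠ 0).card ≤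
        Fintype.card (V → F) := by
      rw [hnz, ← Finset.card_union_of_disjoint]
      · exact Finset.card_le_univ _
      · rw [Finset.disjoint_filter]
        exact fun x _ h h' => h' (h j)
    rw [Finset.card_univ, hD] at h4
    rw [Nat.card_eq_fintype_card] at hN ⊢
    rw [div_le_iff₀ hN]
    have h6 : (Fintype.card (V → F) : ℝ) ≤
      2 ^ D * (Finset.univ.filter fun x : V → F => eval x (T j) ≠ 0).card := by exact_mod_cast h4
    have h7 : (nz T : ℝ) + (Finset.univ.filter fun x : V → F => eval x (T j) ≠ 0).card ≤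
        Fintype.card (V → F) := by exact_mod_cast h5
    generalize ((Finset.univ.filter fun x : V → F => eval x (T j) ≠ 0).card : ℝ) = m at h6 h7
    have h8 : 1 / 2 ^ (D + 1) * (Fintype.card (V → F) : ℝ) ≤ m := by
      rw [one_div, inv_mul_le_iff₀ (by positivity), pow_succ]
      have : (0 : ℝ) ≤ 2 ^ D * m := hN.le.trans h6
      linarith
    linarith
  set A : ℝ := -Real.logb (Fintype.card F) ((nz T : ℝ) / Nat.card (V → F)) with hA
  have hcA : c ≤ A := neg_le_neg (Real.logb_le_logb_of_le hq (div_pos hpos hN) hle)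
  refine ⟨C * ⌈A⌉₊, ?_, hC ι V J F sl hD T hT _ ?_⟩
  · have h9 : (⌈A⌉₊ : ℝ) ≤ A + 1 := (Nat.ceil_lt_add_one (hc.le.trans hcA)).le
    have h10 : 1 ≤ 1 / c * A := by
      rw [one_div, inv_mul_eq_div, one_le_div hc]; exact hcA
    push_cast
    rw [mul_assoc]
    exact mul_le_mul_of_nonneg_left (by linarith) (Nat.cast_nonneg _)
  · have h9 : -(⌈A⌉₊ : ℝ) ≤ Real.logb (Fintype.card F) ((nz T : ℝ) / Nat.card (V → F)) := by
      have := Nat.le_ceil A
      linarith
    rw [Real.le_logb_iff_rpow_le hq (div_pos hpos hN), Real.rpow_neg (by linarith),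
      Real.rpow_natCast, le_div_iff₀ hN, inv_mul_le_iff₀ (by positivity), Nat.card_fun,
      ← Nat.card_eq_fintype_card, mul_comm] at h9
    unfold ARle
    exact_mod_cast h9

section Multi

variable {κ F : Type*} [Fintype κ] [DecidableEq κ] [CommRing F] {N : κ → Type*}
  [∀ i, Fintype (N i)]

/-- The multilinear form with coefficient array `f`. -/
noncomputable def mlOf (f : (∀ i, N i) → F) : MultilinearMap F (fun i => N i → F) F :=
  ∑ a, f a • (MultilinearMap.mkPiAlgebra F κ F).compLinearMap fun i => LinearMap.proj (a i)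

lemma mlOf_apply (f : (∀ i, N i) → F) (x : ∀ i, N i → F) :
    mlOf f x = ∑ a, f a * ∏ i, x i (a i) := by
  simp [mlOf]

lemma eq_mlOf [∀ i, DecidableEq (N i)] (T : MultilinearMap F (fun i => N i → F) F)
    (x : ∀ i, N i → F) : T x = mlOf (fun a => T fun i => Pi.single (a i) 1) x := by
  have h : x = fun i => ∑ j, x i j • Pi.single j (1 : F) := by
    ext i j
    simp [Pi.single_apply]
  rw [mlOf_apply]
  conv_lhs => rw [h]
  rw [T.map_sum]
  refine Finset.sum_congr rfl fun a _ => ?_
  rw [T.map_smul_univ, smul_eq_mul, mul_comm]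

lemma mlOf_mul (p : κ → Prop) [DecidablePred p] (f : (∀ i : {i // p i}, N i.1) → F)
    (g : (∀ i : {i // ¬ p i}, N i.1) → F) (x : ∀ i, N i → F) :
    mlOf (fun a => f (fun i => a i.1) * g (fun i => a i.1)) x =
      mlOf f (fun i => x i.1) * mlOf g (fun i => x i.1) := by
  simp only [mlOf_apply]
  rw [Finset.sum_mul_sum, ← Fintype.sum_prod_type']
  refine Fintype.sum_equiv (Equiv.piEquivPiSubtypeProd p N) _ _ fun a => ?_
  rw [← Fintype.prod_subtype_mul_prod_subtype p fun k => x k (a k)]
  exact mul_mul_mul_comm _ _ _ _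

lemma mlOf_update (i₀ : κ) (t : (∀ i, N i) → F) (x : ∀ i, N i → F) (y : N i₀ → F) :
    mlOf t (Function.update x i₀ y) =
      ∑ j, y j * eval (fun v : Σ k : {i // i ≠ i₀}, N k.1 => x v.1.1 v.2) (slices i₀ t j) := by
  simp only [mlOf_apply, slices, map_sum, map_mul, eval_C, map_prod, eval_X, Finset.mul_sum]
  rw [← Fintype.sum_prod_type']
  refine Fintype.sum_equiv (Equiv.piSplitAt i₀ N) _ _ fun a => ?_
  rw [Fintype.prod_eq_mul_prod_subtype_ne _ i₀, Function.update_self]
  have h1 : ∏ i : {i // i ≠ i₀}, Function.update x i₀ y i.1 (a i.1) =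
      ∏ i : {i // i ≠ i₀}, x i.1 (a i.1) :=
    Finset.prod_congr rfl fun i _ => by rw [Function.update_of_ne i.2]
  rw [h1, Prod.mk.eta, Equiv.symm_apply_apply]
  simp only [Equiv.piSplitAt_apply]
  ring

/-- Splitting off the slot `i₀` from a tuple of vectors. -/
def splitEquiv (F : Type*) (N : κ → Type*) (i₀ : κ) :
    (∀ i, N i → F) ≃ ((Σ k : {i // i ≠ i₀}, N k.1) → F) × (N i₀ → F) :=
  (Equiv.piSplitAt i₀ fun i => N i → F).trans <| (Equiv.prodComm _ _).trans <|
    (Equiv.piCurry fun (k : {i // i ≠ i₀}) (_ : N k.1) => F).symm.prodCongr (Equiv.refl _)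

lemma card_zero_eq (i₀ : κ) (t : (∀ i, N i) → F) :
    Nat.card {x : ∀ i, N i → F // ∀ y, mlOf t (Function.update x i₀ y) = 0} =
      nz (slices i₀ t) * Nat.card (N i₀ → F) := by
  classical
  rw [nz, ← Nat.card_prod]
  refine Nat.card_congr (((splitEquiv F N i₀).subtypeEquiv fun x => ?_).trans
    Equiv.prodSubtypeFstEquivSubtypeProd)
  have h : (splitEquiv F N i₀ x).1 = fun v : Σ k : {i // i ≠ i₀}, N k.1 => x v.1.1 v.2 := rfl
  simp only [mlOf_update, h]
  constructor
  · intro h j
    simpa [Pi.single_apply] using h (Pi.single j 1)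
  · intro h y
    simp [h]

end Multi

end Pool.Agent.Lib.PRank
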