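import Pool.Agent.Lib.PRank.Basic

namespace Pool.Agent.Lib.PRank

open MvPolynomial

variable {ι V J : Type*} [DecidableEq ι] {sl : V → ι}

/-- A decomposition over a large ring is defined over a finitely generated subalgebra. -/
theorem gen_exists_finset {F K : Type*} [CommRing F] [CommRing K] [Algebra F K] [Finite J]
    {T : J → MvPolynomial V F} {s : ℕ} (h : Gen sl s (fun j => map (algebraMap F K) (T j))) :
    ∃ c : Finset K, ∀ A : Subalgebra F K, (c : Set K) ⊆ A →
      Gen sl s (fun j => map (algebraMap F A) (T j)) := by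
  classical
  have := Fintype.ofFinite J
  obtain ⟨G, hG, hML, hT⟩ := h
  have h1 : ∀ j, ∃ a : MvPolynomial V K → MvPolynomial V K,
      ∑ g ∈ G, a g * g = map (algebraMap F K) (T j) := by
    intro j
    obtain ⟨a, -, ha⟩ := Submodule.mem_span_finset.mp (hT j)
    exact ⟨a, ha⟩
  choose a ha using h1
  refine ⟨G.biUnion fun g => g.coeffs ∪ Finset.univ.biUnion fun j => (a j g).coeffs, ?_⟩
  intro A hA
  have hlift : ∀ f : MvPolynomial V K, (f.coeffs : Set K) ⊆ A →
      ∃ f' : MvPolynomial V A, map (A.val : A →+* K) f' = f := by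
    intro f hf
    have : f ∈ Set.range (map (A.val : A →+* K) : MvPolynomial V A → MvPolynomial V K) := by
      rw [mem_range_map_iff_coeffs_subset]
      intro x hx
      exact ⟨⟨x, hf hx⟩, rfl⟩
    exact this
  have hinj : Function.Injective (A.val : A →+* K) := Subtype.val_injective
  have h2 : ∀ g : G, ∃ g' : MvPolynomial V A, map (A.val : A →+* K) g' = g.1 := fun g =>
    hlift _ fun x hx => hA (by
      simp only [Finset.coe_biUnion, Set.mem_iUnion, Finset.mem_coe, Finset.mem_union]
      exact ⟨g.1, g.2, .inl hx⟩)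
  have h3 : ∀ (j : J) (g : G), ∃ b : MvPolynomial V A, map (A.val : A →+* K) b = a j g.1 :=
    fun j g => hlift _ fun x hx => hA (by
      simp only [Finset.coe_biUnion, Set.mem_iUnion, Finset.mem_coe, Finset.mem_union,
        Finset.mem_biUnion]
      exact ⟨g.1, g.2, .inr ⟨j, Finset.mem_univ _, hx⟩⟩)
  choose g' hg' using h2
  choose b hb using h3
  refine Gen.of_family g' (by simpa using hG) (fun g => .inr ?_) fun j => ?_
  · obtain ⟨S, hS, hg⟩ := hML g.1 g.2
    exact ⟨S, hS, IsML.of_map hinj (by rw [hg']; exact hg)⟩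
  · have h4 : map (algebraMap F A) (T j) = ∑ g, b j g * g' g := by
      apply map_injective _ hinj
      rw [map_map, map_sum]
      simp only [map_mul, hb, hg']
      rw [Finset.sum_coe_sort G fun g => a j g * g, ha]
      rfl
    rw [h4]
    exact Ideal.sum_mem _ fun g _ => Ideal.mul_mem_left _ _ (Ideal.subset_span ⟨g, rfl⟩)

lemma gen_of_algHom {F A : Type*} [CommRing F] [CommRing A] [Algebra F A] (π : A →ₐ[F] F)
    {T : J → MvPolynomial V F} {s : ℕ} (h : Gen sl s (fun j => map (algebraMap F A) (T j))) :
    Gen sl s T := by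
  have h1 := h.map (π : A →+* F)
  have h2 : (π : A →+* F).comp (algebraMap F A) = RingHom.id F := by
    ext c; simp
  simpa only [map_map, h2, map_id] using h1

/-- Descent to an algebraically closed ground field. -/
theorem gen_of_isAlgClosed {k Ω : Type*} [Field k] [IsAlgClosed k] [Field Ω] [Algebra k Ω]
    [Finite J] {T : J → MvPolynomial V k} {s : ℕ}
    (h : Gen sl s (fun j => map (algebraMap k Ω) (T j))) : Gen sl s T := by
  obtain ⟨c, hc⟩ := gen_exists_finset h
  let A := Algebra.adjoin k (c : Set Ω)
  have hA : Algebra.FiniteType k A :=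
    (Subalgebra.fg_iff_finiteType A).mp (Subalgebra.fg_adjoin_finset c)
  obtain ⟨𝔪, h𝔪⟩ := Ideal.exists_maximal A
  let _ := Ideal.Quotient.field 𝔪
  have : Module.Finite k (A ⧸ 𝔪) := finite_of_finite_type_of_isJacobsonRing k (A ⧸ 𝔪)
  exact gen_of_algHom ((IsAlgClosed.lift : (A ⧸ 𝔪) →ₐ[k] k).comp (Ideal.Quotient.mkₐ k 𝔪))
    (hc A Algebra.subset_adjoin)

/-- A decomposition over an algebraic extension is defined over a finite extension. -/
theorem exists_finite_of_gen {F K : Type*} [Field F] [Field K] [Algebra F K]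
    [Algebra.IsAlgebraic F K] [Finite J] {T : J → MvPolynomial V F} {s : ℕ}
    (h : Gen sl s (fun j => map (algebraMap F K) (T j))) :
    ∃ L : IntermediateField F K, FiniteDimensional F L ∧
      Gen sl s (fun j => map (algebraMap F L) (T j)) := by
  obtain ⟨c, hc⟩ := gen_exists_finset h
  refine ⟨IntermediateField.adjoin F (c : Set K), IntermediateField.finiteDimensional_adjoin
    fun x _ => Algebra.IsIntegral.isIntegral x, ?_⟩
  exact hc (IntermediateField.adjoin F (c : Set K)).toSubalgebra
    (IntermediateField.subset_adjoin F _)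

/-- Descent from a rational function field to an infinite ground field. -/
theorem gen_of_fractionRing {E X : Type*} [Field E] [Infinite E] [Finite J]
    {T : J → MvPolynomial V E} {s : ℕ}
    (h : Gen sl s (fun j => map (algebraMap E (FractionRing (MvPolynomial X E))) (T j))) :
    Gen sl s T := by
  classical
  obtain ⟨c, hc⟩ := gen_exists_finset h
  obtain ⟨d, hd⟩ := IsLocalization.exist_integer_multiples_of_finset
    (nonZeroDivisors (MvPolynomial X E)) c
  have hd0 : (d : MvPolynomial X E) ≠ 0 := nonZeroDivisors.coe_ne_zero d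
  obtain ⟨x, hx⟩ : ∃ x : X → E, eval x (d : MvPolynomial X E) ≠ 0 := by
    by_contra hcon
    push Not at hcon
    exact hd0 (MvPolynomial.funext fun x => by rw [hcon, map_zero])
  have hle : Submonoid.powers (d : MvPolynomial X E) ≤ nonZeroDivisors _ :=
    powers_le_nonZeroDivisors_of_noZeroDivisors hd0
  let A := Localization.subalgebra.ofField (FractionRing (MvPolynomial X E)) _ hle
  have hcA : (c : Set (FractionRing (MvPolynomial X E))) ⊆ A.restrictScalars E := by
    intro y hy
    obtain ⟨z, hz⟩ := hd y hy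
    refine ⟨z, d, Submonoid.mem_powers _, ?_⟩
    have h0 : algebraMap (MvPolynomial X E) (FractionRing (MvPolynomial X E)) d ≠ 0 := by
      simp
    rw [hz, Algebra.smul_def, mul_comm, inv_mul_cancel_left₀ h0]
  let π : A →ₐ[E] E := IsLocalization.liftAlgHom (M := Submonoid.powers (d : MvPolynomial X E))
    (f := aeval x) (by
      rintro ⟨_, n, rfl⟩
      simpa [aeval_eq_eval] using (pow_ne_zero n hx).isUnit)
  exact gen_of_algHom (A := A.restrictScalars E) π (hc _ hcA)

end Pool.Agent.Lib.PRank
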