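import Pool.Agent.Lib.PRank.Germ
import Pool.Agent.Lib.PRank.Spec

namespace Pool.Agent.Lib.PRank

open MvPolynomial

/-- Solving a linear system for pivot variables, the other variables being prescribed. -/
lemma exists_pivot {K W G : Type*} [Field K] [Fintype G] (s : Finset W) (c : W → G → K)
    (w : W → K) : ∃ (B : Finset W) (y : W → K), B ⊆ s ∧ s.card ≤ B.card + Fintype.card G ∧
      (∀ b ∈ B, y b = w b) ∧ ∑ v ∈ s, y v • c v = 0 := by
  classical
  obtain ⟨b, hb, -, hsp, hli⟩ := exists_linearIndepOn_extension (K := K) (v := c)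
    (linearIndepOn_empty K c) (Set.empty_subset (s : Set W))
  obtain ⟨P, rfl⟩ : ∃ P : Finset W, b = P :=
    ⟨(s.finite_toSet.subset hb).toFinset, (Set.Finite.coe_toFinset _).symm⟩
  have hP : P ⊆ s := Finset.coe_subset.mp hb
  have hc : P.card ≤ Fintype.card G := by
    have := LinearIndependent.fintype_card_le_finrank hli
    simpa using this
  have hm : -∑ v ∈ s \ P, w v • c v ∈ Submodule.span K (c '' P) :=
    neg_mem (Submodule.sum_mem _ fun v hv => Submodule.smul_mem _ _
      (hsp ⟨v, (Finset.mem_sdiff.mp hv).1, rfl⟩))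
  obtain ⟨a, ha⟩ := (Submodule.mem_span_image_finset_iff_exists_fun' K).mp hm
  refine ⟨s \ P, fun v => if v ∈ P then a v else w v, Finset.sdiff_subset, ?_,
    fun v hv => if_neg (Finset.mem_sdiff.mp hv).2, ?_⟩
  · have := Finset.card_sdiff_add_card_eq_card hP
    omega
  · have e1 : ∑ v ∈ s \ P, (if v ∈ P then a v else w v) • c v = ∑ v ∈ s \ P, w v • c v :=
      Finset.sum_congr rfl fun v hv => by rw [if_neg (Finset.mem_sdiff.mp hv).2]
    have e2 : ∑ v ∈ P, (if v ∈ P then a v else w v) • c v = ∑ v ∈ P, a v • c v :=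
      Finset.sum_congr rfl fun v hv => by rw [if_pos hv]
    rw [← Finset.sum_sdiff hP, e1, e2, ha, add_neg_cancel]

/-- Derivations of a rational function field with prescribed values on the variables. -/
lemma exists_derivation_frac {E X : Type*} [Field E] (w : X → FractionRing (MvPolynomial X E)) :
    ∃ δ : Derivation E (FractionRing (MvPolynomial X E)) (FractionRing (MvPolynomial X E)),
      ∀ x, δ (algebraMap (MvPolynomial X E) _ (MvPolynomial.X x)) = w x := by
  have hv : AlgebraicIndependent E fun x =>
      algebraMap (MvPolynomial X E) (FractionRing (MvPolynomial X E)) (MvPolynomial.X x) :=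
    (MvPolynomial.algebraicIndependent_X X E).map'
      (f := IsScalarTower.toAlgHom E (MvPolynomial X E) (FractionRing (MvPolynomial X E)))
      (IsFractionRing.injective _ _)
  set L := IntermediateField.adjoin E (Set.range fun x =>
      algebraMap (MvPolynomial X E) (FractionRing (MvPolynomial X E)) (MvPolynomial.X x))
  have h1 : ∀ p, algebraMap (MvPolynomial X E) (FractionRing (MvPolynomial X E)) p ∈ L := by
    intro p
    induction p using MvPolynomial.induction_on with
    | C c => exact L.algebraMap_mem c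
    | add p q hp hq => rw [map_add]; exact add_mem hp hq
    | mul_X p x hp =>
      rw [map_mul]; exact mul_mem hp (IntermediateField.subset_adjoin _ _ ⟨x, rfl⟩)
  have : Algebra.IsSeparable L (FractionRing (MvPolynomial X E)) := ⟨fun x => by
    obtain ⟨a, b, -, rfl⟩ := IsFractionRing.div_surjective (A := MvPolynomial X E) x
    exact isSeparable_algebraMap (⟨_, div_mem (h1 a) (h1 b)⟩ : L)⟩
  exact exists_derivation_of_separating hv w

variable {ι V J : Type*} [Fintype ι] [DecidableEq ι] [Fintype V] {sl : V → ι}

omit [Fintype ι] in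
lemma exists_free_aux {E K : Type*} [Field E] [Field K] [Algebra E K] (w : V → K) {κ : Type*}
    [Fintype κ] (g : κ → MvPolynomial V E) (S : κ → Finset ι) (hS : ∀ i, (S i).Nonempty)
    (hg : ∀ i, IsML sl (S i) (g i)) (U : Finset ι) :
    ∃ (ξ : V → K) (B : Finset V), (∀ b ∈ B, sl b ∈ U ∧ ξ b = w b) ∧
      (Finset.univ.filter fun v => sl v ∈ U).card ≤
        B.card + (Finset.univ.filter fun i => S i ⊆ U).card ∧
      ∀ i, S i ⊆ U → aeval ξ (g i) = 0 := by
  classical
  induction U using Finset.induction_on with
  | empty => exact ⟨0, ∅, by simp, by simp, fun i hi => absurd (hS i) (by simpa using hi)⟩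
  | insert k U hk ih =>
    obtain ⟨ξ, B, hB, hc, h0⟩ := ih
    obtain ⟨B', y, h1, h2, h3, h4⟩ := exists_pivot (Finset.univ.filter fun v => sl v = k)
      (fun v (i : {i // S i ⊆ insert k U ∧ k ∈ S i}) => aeval ξ (pderiv v (g i.1))) w
    have hB' : ∀ b ∈ B', sl b = k := fun b hb => (Finset.mem_filter.mp (h1 hb)).2
    refine ⟨upd sl k ξ y, B ∪ B', fun b hb => ?_, ?_, fun i hi => ?_⟩
    · rcases Finset.mem_union.mp hb with h | h
      · have : sl b ≠ k := fun e => hk (e ▸ (hB b h).1)
        exact ⟨Finset.mem_insert_of_mem (hB b h).1, by rw [upd, if_neg this, (hB b h).2]⟩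
      · exact ⟨hB' b h ▸ Finset.mem_insert_self _ _, by rw [upd, if_pos (hB' b h), h3 b h]⟩
    · have e1 : (B ∪ B').card = B.card + B'.card := Finset.card_union_of_disjoint
        (Finset.disjoint_left.mpr fun b h h' => hk (hB' b h' ▸ (hB b h).1))
      have e2 : (Finset.univ.filter fun v => sl v ∈ insert k U).card ≤
          (Finset.univ.filter fun v => sl v = k).card +
            (Finset.univ.filter fun v => sl v ∈ U).card := by
        refine le_trans (Finset.card_le_card fun v hv => ?_) (Finset.card_union_le _ _)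
        simpa using hv
      have e3 : (Finset.univ.filter fun i => S i ⊆ U).card +
          (Finset.univ.filter fun i => S i ⊆ insert k U ∧ k ∈ S i).card ≤
          (Finset.univ.filter fun i => S i ⊆ insert k U).card := by
        have hd : Disjoint (Finset.univ.filter fun i => S i ⊆ U)
            (Finset.univ.filter fun i => S i ⊆ insert k U ∧ k ∈ S i) :=
          Finset.disjoint_left.mpr fun i h h' =>
            hk ((Finset.mem_filter.mp h).2 (Finset.mem_filter.mp h').2.2)
        rw [← Finset.card_union_of_disjoint hd]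
        refine Finset.card_le_card fun i hi => Finset.mem_filter.mpr ⟨Finset.mem_univ _, ?_⟩
        rcases Finset.mem_union.mp hi with h | h
        · exact (Finset.mem_filter.mp h).2.trans (Finset.subset_insert _ _)
        · exact (Finset.mem_filter.mp h).2.1
      rw [Fintype.card_subtype] at h2
      omega
    · by_cases hki : k ∈ S i
      · rw [(hg i).aeval_upd hki]
        simpa using congrFun h4 ⟨i, hi, hki⟩
      · rw [(hg i).aeval_upd_of_notMem hki]
        exact h0 i ((Finset.subset_insert_iff_of_notMem hki).mp hi)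

/-- A tensor of partition rank at most `s` vanishes at an `s`-free point. -/
theorem exists_free_zero {E : Type*} [Field E] {T : J → MvPolynomial V E} {s : ℕ}
    (h : Gen sl s T) :
    ∃ ξ : V → FractionRing (MvPolynomial V E), IsFree E id s ξ ∧ ∀ j, aeval ξ (T j) = 0 := by
  obtain ⟨G, h1, h2, h3⟩ := h
  choose S hS hg using fun g : G => h2 g.1 g.2
  obtain ⟨ξ, B, hB, hc, h0⟩ := exists_free_aux
    (fun v => algebraMap (MvPolynomial V E) (FractionRing (MvPolynomial V E)) (X v))
    (fun g : G => g.1) S hS hg Finset.univ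
  refine ⟨ξ, ⟨B, ?_, fun b hb => (hB b hb).2⟩, fun j =>
    Gen.aeval_eq_zero (h3 j) fun g hg => h0 ⟨g, hg⟩ (Finset.subset_univ _)⟩
  simp only [Finset.mem_univ, Finset.subset_univ, Finset.filter_true, Finset.card_univ,
    Fintype.card_coe] at hc
  omega

/-- A tensor vanishing at an `s`-free point has small partition rank. -/
theorem gen_of_free_zero {E X : Type*} [Field E] [Infinite E] [Finite J] {u : V → X}
    (hu : Function.Injective u) {s : ℕ} {ξ : V → FractionRing (MvPolynomial X E)}
    (hξ : IsFree E u s ξ) {T : J → MvPolynomial V E} (hT : ∀ j, IsML sl Finset.univ (T j))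
    (h0 : ∀ j, aeval ξ (T j) = 0) : Gen sl (2 ^ Fintype.card ι * s) T := by
  classical
  obtain ⟨B, hB, hξ⟩ := hξ
  obtain ⟨ψ, hψ, H⟩ := exists_germ (k := E) (B := MvPolynomial V (FractionRing (MvPolynomial X E)))
    ξ (fun i : {v // v ∉ B} => Pi.single i.1 1) (fun w => by
      obtain ⟨δ, hδ⟩ := exists_derivation_frac (Function.extend u w 0)
      refine ⟨δ, fun i => w i.1 - δ (ξ i.1), fun l => ?_⟩
      by_cases hl : l ∈ B
      · rw [hξ l hl, hδ, hu.extend_apply, Finset.sum_eq_zero, add_zero]
        intro i _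
        rw [Pi.single_eq_of_ne (fun e : l = i.1 => i.2 (e ▸ hl)), mul_zero]
      · rw [Finset.sum_eq_single ⟨l, hl⟩]
        · simp
        · intro i _ hi
          rw [Pi.single_eq_of_ne (fun e : l = i.1 => hi (Subtype.ext e.symm)), mul_zero]
        · simp)
    (idealOfVars V _) MvPolynomial.X (fun v => Ideal.subset_span ⟨v, rfl⟩) (Fintype.card ι)
  have h1 := gen_top (sl := sl) ψ hψ
    (fun j => aeval (fun v => C (ξ v) + MvPolynomial.X v) (T j)) fun j => by
      have h2 := aeval_sub_mem (Ideal.span (Set.range ψ))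
        (mv_sub_mem _ (fun v => C (ξ v) + MvPolynomial.X v)
          (fun i : {v // v ∉ B} => Pi.single i.1 (1 : FractionRing (MvPolynomial X E)))
          fun i => Ideal.subset_span ⟨i, rfl⟩) (T j)
      have h3 := add_mem (Ideal.mem_sup_left (neg_mem h2)) (Ideal.mem_sup_right (H _ (h0 j)))
      rwa [neg_sub, algebraMap_eq, sub_add_cancel] at h3
  simp only [top_shift (hT _)] at h1
  refine (gen_of_fractionRing h1).mono (Nat.mul_le_mul_left _ ?_)
  rw [Fintype.card_subtype_compl, Fintype.card_coe]
  omega

/-- Partition rank is additive up to a constant on direct sums of copies, over infinite fields. -/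
theorem gen_of_gen_dsum {E : Type*} [Field E] [Infinite E] [Finite J] {m S : ℕ} (hm : 1 ≤ m)
    {T : J → MvPolynomial V E} (hT : ∀ j, IsML sl Finset.univ (T j))
    (h : Gen (fun vl : V × Fin m => sl vl.1) S (dsum m T)) :
    Gen sl (2 ^ Fintype.card ι * (S / m)) T := by
  classical
  obtain ⟨ξ, ⟨B, hB, hξ⟩, h0⟩ := exists_free_zero h
  have : Nonempty (Fin m) := ⟨⟨0, hm⟩⟩
  have hc : Bᶜ.card < Fintype.card (Fin m) * (S / m + 1) := by
    rw [Finset.card_compl, Fintype.card_fin]
    have := Nat.lt_mul_div_succ S hm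
    omega
  obtain ⟨l, -, hl⟩ := Finset.exists_card_fiber_lt_of_card_lt_mul (f := Prod.snd)
    (t := Finset.univ) hc
  refine gen_of_free_zero (u := fun v => (v, l)) (ξ := fun v => ξ (v, l))
    (fun _ _ e => congrArg Prod.fst e)
    ⟨Finset.univ.filter fun v => (v, l) ∈ B, ?_, fun b hb => hξ _ (Finset.mem_filter.mp hb).2⟩ hT
    fun j => ?_
  · have e1 := Finset.card_filter_add_card_filter_not (s := Finset.univ) fun v => (v, l) ∈ B
    have e2 : (Finset.univ.filter fun v => (v, l) ∉ B).card ≤
        (Bᶜ.filter fun x => x.2 = l).card :=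
      Finset.card_le_card_of_injOn (fun v => (v, l)) (fun v hv => by simpa using hv)
        fun _ _ _ _ e => congrArg Prod.fst e
    rw [Finset.card_univ] at e1
    omega
  · have := h0 (j, l)
    rwa [dsum, aeval_rename] at this

end Pool.Agent.Lib.PRank
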