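import Pool.Agent.Lib.PRank.Local

namespace Pool.Agent.Lib.PRank

open MvPolynomial

section Germ

variable {k E B V κ : Type*} [CommRing k] [CommRing E] [CommRing B] [Algebra k E] [Algebra E B]
  [Algebra k B] [IsScalarTower k E B] [Fintype V] [DecidableEq V] [Fintype κ]

/-- A formal germ through the point `p`, transversal to the vectors `u`. -/
theorem exists_germ_hom [Algebra.FormallySmooth k E] (p : V → E) (u : κ → V → E)
    (δ : V → Derivation k E E) (a : V → κ → E)
    (hδ : ∀ j l, δ j (p l) + ∑ i, a j i * u i l = if j = l then 1 else 0)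
    (𝔫 : Ideal B) (x : V → B) (hx : ∀ v, x v ∈ 𝔫) (m : ℕ) :
    ∃ (χ : E →ₐ[k] B ⧸ 𝔫 ^ (m + 1)) (ψ : κ → B), (∀ i, ψ i ∈ 𝔫) ∧
      (∀ c, ∃ n ∈ 𝔫, χ c = Ideal.Quotient.mk _ (algebraMap E B c + n)) ∧
      ∀ v, χ (p v) = Ideal.Quotient.mk _ (mv (fun v => algebraMap E B (p v) + x v) u ψ v) := by
  induction m with
  | zero =>
    refine ⟨(Ideal.Quotient.mkₐ k _).comp (IsScalarTower.toAlgHom k E B), 0,
      fun _ => zero_mem _, fun c => ⟨0, zero_mem _, by simp⟩, fun v => ?_⟩
    simp only [AlgHom.comp_apply, IsScalarTower.toAlgHom_apply, Ideal.Quotient.mkₐ_eq_mk, mv]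
    rw [Ideal.Quotient.eq]
    simpa using hx v
  | succ m ih =>
    obtain ⟨χ', ψ', hψ', hχ', hp'⟩ := ih
    have hle : 𝔫 ^ (m + 1 + 1) ≤ 𝔫 ^ (m + 1) := Ideal.pow_le_pow_right (by omega)
    let π := Ideal.Quotient.factorₐ k hle
    have hπ : ∀ b : B, π (Ideal.Quotient.mk _ b) = Ideal.Quotient.mk _ b := fun _ => rfl
    have hsurj : Function.Surjective π := by
      intro y
      obtain ⟨b, rfl⟩ := Ideal.Quotient.mk_surjective y
      exact ⟨_, hπ b⟩
    have hnil : IsNilpotent (RingHom.ker (π : B ⧸ 𝔫 ^ (m + 1 + 1) →+* B ⧸ 𝔫 ^ (m + 1))) := by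
      refine ⟨2, ?_⟩
      rw [pow_two, Ideal.zero_eq_bot, eq_bot_iff, Ideal.mul_le]
      intro r hr s hs
      obtain ⟨r, rfl⟩ := Ideal.Quotient.mk_surjective r
      obtain ⟨s, rfl⟩ := Ideal.Quotient.mk_surjective s
      have hr' : r ∈ 𝔫 ^ (m + 1) := Ideal.Quotient.eq_zero_iff_mem.mp hr
      have hs' : s ∈ 𝔫 ^ (m + 1) := Ideal.Quotient.eq_zero_iff_mem.mp hs
      rw [Ideal.mem_bot, ← map_mul, Ideal.Quotient.eq_zero_iff_mem, pow_succ' 𝔫 (m + 1)]
      exact Ideal.mul_mem_mul (Ideal.pow_le_self (by omega) hr') hs'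
    let χ₀ := Algebra.FormallySmooth.liftOfSurjective χ' π hsurj hnil
    have hχ₀ : ∀ c, π (χ₀ c) = χ' c := fun c =>
      Algebra.FormallySmooth.liftOfSurjective_apply χ' π hsurj hnil c
    choose b hb using fun c => Ideal.Quotient.mk_surjective (χ₀ c)
    have hb1 : ∀ c, b c - algebraMap E B c ∈ 𝔫 := by
      intro c
      obtain ⟨n, hn, hn'⟩ := hχ' c
      rw [← hχ₀, ← hb, hπ, Ideal.Quotient.eq] at hn'
      have := add_mem (Ideal.pow_le_self (by omega) hn') hn
      convert this using 1; ring
    let η : V → B := fun v => mv (fun v => algebraMap E B (p v) + x v) u ψ' v - b (p v)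
    have hη : ∀ v, η v ∈ 𝔫 ^ (m + 1) := by
      intro v
      rw [← Ideal.Quotient.eq, ← hp', ← hχ₀, ← hb, hπ]
    let D : E → B := fun c => ∑ j, algebraMap E B (δ j c) * η j
    have hD : ∀ c, D c ∈ 𝔫 ^ (m + 1) := fun c =>
      Ideal.sum_mem _ fun j _ => Ideal.mul_mem_left _ _ (hη j)
    have hmul : ∀ n ∈ 𝔫, ∀ c, n * D c ∈ 𝔫 ^ (m + 1 + 1) := fun n hn c => by
      rw [pow_succ' 𝔫 (m + 1)]; exact Ideal.mul_mem_mul hn (hD c)
    have hDmul : ∀ c c', D (c * c') = algebraMap E B c * D c' + algebraMap E B c' * D c := by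
      intro c c'
      simp only [D, Derivation.leibniz, smul_eq_mul, map_add, map_mul, add_mul,
        Finset.sum_add_distrib, Finset.mul_sum, mul_assoc]
    let χ : E →ₐ[k] B ⧸ 𝔫 ^ (m + 1 + 1) :=
      { toFun := fun c => χ₀ c + Ideal.Quotient.mk _ (D c)
        map_one' := by simp [D]
        map_zero' := by simp [D]
        map_add' := fun c c' => by
          simp only [D, map_add, add_mul, Finset.sum_add_distrib]; ring
        commutes' := fun r => by simp [D]
        map_mul' := fun c c' => by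
          have h1 : χ₀ (c * c') = Ideal.Quotient.mk _ (b c * b c') := by
            rw [map_mul, map_mul, hb, hb]
          rw [h1, ← hb c, ← hb c', ← map_add, ← map_add, ← map_add, ← map_mul, Ideal.Quotient.eq,
            hDmul]
          have := neg_mem (add_mem (add_mem (hmul _ (hb1 c) c') (hmul _ (hb1 c') c))
            (hmul _ (Ideal.pow_le_self (by omega) (hD c)) c'))
          convert this using 1; ring }
    have hχ : ∀ c, χ c = Ideal.Quotient.mk _ (b c + D c) := fun c => by
      rw [map_add, hb]; rfl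
    refine ⟨χ, fun i => ψ' i + ∑ j, algebraMap E B (a j i) * η j, fun i => add_mem (hψ' i)
      (Ideal.sum_mem _ fun j _ => Ideal.mul_mem_left _ _ (Ideal.pow_le_self (by omega) (hη j))),
      fun c => ⟨b c - algebraMap E B c + D c,
        add_mem (hb1 c) (Ideal.pow_le_self (by omega) (hD c)), by rw [hχ]; congr 1; ring⟩,
      fun v => ?_⟩
    rw [hχ]
    congr 1
    have h2 : D (p v) + ∑ i, algebraMap E B (u i v) * ∑ j, algebraMap E B (a j i) * η j = η v := by
      have h3 : ∀ j, algebraMap E B (δ j (p v)) * η j +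
          ∑ i, algebraMap E B (u i v) * (algebraMap E B (a j i) * η j) =
          if j = v then η j else 0 := by
        intro j
        have h4 := congrArg (fun t => algebraMap E B t * η j) (hδ j v)
        simp only [map_add, map_sum, map_mul, add_mul, Finset.sum_mul] at h4
        have h5 : ∀ i, algebraMap E B (u i v) * (algebraMap E B (a j i) * η j) =
          algebraMap E B (a j i) * algebraMap E B (u i v) * η j := fun i => by ring
        simp only [h5, h4]
        split_ifs <;> simp
      simp only [D, Finset.mul_sum]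
      rw [Finset.sum_comm, ← Finset.sum_add_distrib]
      simp only [h3, Finset.sum_ite_eq', Finset.mem_univ, if_true]
    have h6 : η v = mv (fun v => algebraMap E B (p v) + x v) u ψ' v - b (p v) := rfl
    simp only [mv, mul_add, Finset.sum_add_distrib] at h6 ⊢
    linear_combination h2 + h6

/-- Every polynomial vanishing at `p` vanishes to order `m + 1` on the germ. -/
theorem exists_germ [Algebra.FormallySmooth k E] (p : V → E) (u : κ → V → E)
    (hu : ∀ w : V → E, ∃ (δ : Derivation k E E) (a : κ → E),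
      ∀ l, δ (p l) + ∑ i, a i * u i l = w l)
    (𝔫 : Ideal B) (x : V → B) (hx : ∀ v, x v ∈ 𝔫) (m : ℕ) :
    ∃ ψ : κ → B, (∀ i, ψ i ∈ 𝔫) ∧ ∀ f : MvPolynomial V k, aeval p f = 0 →
      aeval (mv (fun v => algebraMap E B (p v) + x v) u ψ) f ∈ 𝔫 ^ (m + 1) := by
  choose δ a h using fun j : V => hu (fun l => if j = l then 1 else 0)
  obtain ⟨χ, ψ, hψ, -, hp⟩ := exists_germ_hom p u δ a h 𝔫 x hx m
  refine ⟨ψ, hψ, fun f hf => ?_⟩
  rw [← Ideal.Quotient.eq_zero_iff_mem, ← Ideal.Quotient.mkₐ_eq_mk k, comp_aeval_apply]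
  have h1 : (fun v => Ideal.Quotient.mkₐ k (𝔫 ^ (m + 1))
      (mv (fun v => algebraMap E B (p v) + x v) u ψ v)) = fun v => χ (p v) :=
    funext fun v => (hp v).symm
  rw [h1, ← comp_aeval_apply, hf, map_zero]

end Germ

section Theta

lemma exists_ringHom_lift {A E B : Type*} [CommRing A] [CommRing E] [CommRing B] [Algebra A E]
    [Algebra.FormallySmooth A E] (φ : A →+* B) (π : B →+* E) (hπ : Function.Surjective π)
    (hnil : IsNilpotent (RingHom.ker π)) (h : ∀ a, π (φ a) = algebraMap A E a) :
    ∃ χ : E →+* B, (∀ x, π (χ x) = x) ∧ ∀ a, χ (algebraMap A E a) = φ a := by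
  let _i := φ.toAlgebra
  let π' : B →ₐ[A] E := { π with commutes' := h }
  let χ := Algebra.FormallySmooth.liftOfSurjective (AlgHom.id A E) π' hπ hnil
  exact ⟨χ, fun x => Algebra.FormallySmooth.liftOfSurjective_apply (AlgHom.id A E) π' hπ hnil x,
    fun a => χ.commutes a⟩

variable {k E : Type*} [Field k] [Field E] [Algebra k E]

open scoped IntermediateField.algebraAdjoinAdjoin in
/-- Partial derivatives with respect to a separating transcendence basis. -/
lemma exists_derivation_of_separating {σ : Type*} {v : σ → E} (hv : AlgebraicIndependent k v)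
    [Algebra.IsSeparable (IntermediateField.adjoin k (Set.range v)) E] (w : σ → E) :
    ∃ δ : Derivation k E E, ∀ i, δ (v i) = w i := by
  have h1 : Algebra.FormallySmooth (Algebra.adjoin k (Set.range v))
      (IntermediateField.adjoin k (Set.range v)) :=
    .of_isLocalization (nonZeroDivisors _)
  have h2 : Algebra.FormallyEtale (IntermediateField.adjoin k (Set.range v)) E :=
    Algebra.FormallyEtale.of_isSeparable _ E
  have h3 : Algebra.FormallySmooth (Algebra.adjoin k (Set.range v)) E :=
    .comp _ (IntermediateField.adjoin k (Set.range v)) _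
  let φ₀ : MvPolynomial σ k →ₐ[k] TrivSqZeroExt E E :=
    aeval fun i => TrivSqZeroExt.inl (v i) + TrivSqZeroExt.inr (w i)
  let φ := φ₀.comp hv.repr
  have hfst : (TrivSqZeroExt.fstHom k E E).comp φ₀ = aeval v := by
    ext i; simp [φ₀]
  obtain ⟨χ, hχ1, hχ2⟩ := exists_ringHom_lift (E := E) φ.toRingHom
    (TrivSqZeroExt.fstHom E E E).toRingHom (fun x => ⟨TrivSqZeroExt.inl x, rfl⟩)
    ⟨2, TrivSqZeroExt.kerIdeal_sq E E⟩ (fun a => by
      have := AlgHom.congr_fun hfst (hv.repr a)
      rw [hv.aeval_repr] at this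
      exact this)
  have hfst' : ∀ x, (χ x).fst = x := hχ1
  have hk : ∀ c : k, χ (algebraMap k E c) = TrivSqZeroExt.inl (algebraMap k E c) := by
    intro c
    rw [IsScalarTower.algebraMap_apply k (Algebra.adjoin k (Set.range v)) E, hχ2]
    exact φ.commutes c
  let D : E →ₗ[k] E :=
    { toFun := fun x => (χ x).snd
      map_add' := fun x y => by simp
      map_smul' := fun c x => by
        rw [Algebra.smul_def, map_mul, hk, TrivSqZeroExt.snd_mul]
        simp [Algebra.smul_def] }
  refine ⟨Derivation.mk' D fun x y => ?_, fun i => ?_⟩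
  · change (χ (x * y)).snd = x • (χ y).snd + y • (χ x).snd
    rw [map_mul, TrivSqZeroExt.snd_mul, hfst', hfst']
    simp [mul_comm]
  · change (χ (v i)).snd = w i
    have h4 : v i = algebraMap (Algebra.adjoin k (Set.range v)) E (hv.aevalEquiv (X i)) := by
      rw [hv.algebraMap_aevalEquiv, aeval_X]
    rw [h4, hχ2]
    change (φ₀ (hv.aevalEquiv.symm (hv.aevalEquiv (X i)))).snd = w i
    rw [AlgEquiv.symm_apply_apply]
    simp [φ₀]

lemma derivation_sum_smul_apply {σ : Type*} (s : Finset σ) (c : σ → E) (δ : σ → Derivation k E E)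
    (x : E) : (∑ t ∈ s, c t • δ t) x = ∑ t ∈ s, c t * δ t x := by
  classical
  induction s using Finset.induction_on with
  | empty => simp
  | insert t s ht ih => simp [Finset.sum_insert ht, ih]

/-- The tangent directions given by derivations, together with vectors `u₀` independent from them,
are completed to the whole space by few further vectors. -/
theorem exists_complement [PerfectField k] {V κ : Type*} [Fintype V] [Fintype κ] (p : V → E)
    (hp : IntermediateField.adjoin k (Set.range p) = ⊤) {e b : ℕ} {y : Fin e → E}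
    (hy : AlgebraicIndependent k y) (u₀ : κ → V → E)
    (hu₀ : ∀ (δ : Derivation k E E) (a : κ → E), (∀ l, δ (p l) + ∑ i, a i * u₀ i l = 0) → a = 0)
    (hb : Fintype.card V ≤ e + Fintype.card κ + b) :
    ∃ u₁ : Fin b → V → E, ∀ w : V → E, ∃ (δ : Derivation k E E) (a : κ ⊕ Fin b → E),
      ∀ l, δ (p l) + ∑ i, a i * Sum.elim u₀ u₁ i l = w l := by
  classical
  have hfg : Algebra.EssFiniteType k E := by
    rw [← IntermediateField.fg_top_iff]
    exact ⟨Finset.univ.image p, by simpa using hp⟩
  obtain ⟨s, hs, hsep⟩ := exists_isTranscendenceBasis_and_isSeparable_of_perfectField k E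
  have hsep' : Algebra.IsSeparable (IntermediateField.adjoin k (Set.range ((↑) : s → E))) E := by
    convert! hsep <;> simp
  have hcard : e ≤ Fintype.card s := by
    have h1 := hy.lift_cardinalMk_le_trdeg
    rw [← hs.cardinalMk_eq_trdeg] at h1
    simp only [Cardinal.mk_fintype, Fintype.card_fin, Cardinal.lift_natCast] at h1
    exact_mod_cast h1
  choose δ hδ using fun t : s => exists_derivation_of_separating hs.1 (Pi.single t (1 : E))
  have hinj : ∀ d : Derivation k E E, (∀ l, d (p l) = 0) → ∀ x, d x = 0 := by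
    intro d hd x
    have hx : x ∈ IntermediateField.adjoin k (Set.range p) := by rw [hp]; trivial
    induction hx using IntermediateField.adjoin_induction with
    | mem x hx => obtain ⟨l, rfl⟩ := hx; exact hd l
    | algebraMap c => simp
    | add x y _ _ hx hy => simp [hx, hy]
    | inv x _ hx => simp [Derivation.leibniz_inv, hx]
    | mul x y _ _ hx hy => simp [hx, hy]
  let w₀ : s ⊕ κ → V → E := Sum.elim (fun t l => δ t (p l)) u₀
  have hli : LinearIndependent E w₀ := by
    rw [Fintype.linearIndependent_iff]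
    intro c hc
    have h1 : ∀ l, (∑ t, c (.inl t) • δ t) (p l) + ∑ i, c (.inr i) * u₀ i l = 0 := by
      intro l
      have := congrFun hc l
      rw [derivation_sum_smul_apply]
      simpa [w₀, Fintype.sum_sum_type] using this
    have h2 := hu₀ _ _ h1
    have h3 : ∀ i, c (.inr i) = 0 := fun i => congrFun h2 i
    have h4 := hinj (∑ t, c (.inl t) • δ t) fun l => by simpa [h3] using h1 l
    rintro (t | i)
    · have h5 := h4 t
      rw [derivation_sum_smul_apply, Finset.sum_eq_single t] at h5
      · simpa [hδ] using h5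
      · intro t' _ ht'; simp [hδ, Ne.symm ht']
      · simp
    · exact h3 i
  obtain ⟨W', hW'⟩ := Submodule.exists_isCompl (Submodule.span E (Set.range w₀))
  have hrank : Module.finrank E W' ≤ b := by
    have h1 := Submodule.finrank_add_eq_of_isCompl hW'
    rw [finrank_span_eq_card hli, Module.finrank_fintype_fun_eq_card, Fintype.card_sum] at h1
    omega
  let bs := Module.finBasis E W'
  refine ⟨fun i => if h : i.1 < Module.finrank E W' then (bs ⟨i.1, h⟩).1 else 0, fun w => ?_⟩
  have hw : w ∈ Submodule.span E (Set.range w₀) ⊔ W' := by rw [hW'.sup_eq_top]; trivial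
  obtain ⟨w₁, hw₁, w₂, hw₂, rfl⟩ := Submodule.mem_sup.mp hw
  obtain ⟨c, rfl⟩ := (Submodule.mem_span_range_iff_exists_fun E).mp hw₁
  refine ⟨∑ t, c (.inl t) • δ t, Sum.elim (fun i => c (.inr i))
    fun i => if h : i.1 < Module.finrank E W' then bs.repr ⟨w₂, hw₂⟩ ⟨i.1, h⟩ else 0, fun l => ?_⟩
  have h2 : w₂ l = ∑ i, bs.repr ⟨w₂, hw₂⟩ i * (bs i).1 l := by
    have h3 := congrArg (fun z : W' => z.1 l) (bs.sum_repr ⟨w₂, hw₂⟩)
    simp only [Submodule.coe_sum, Submodule.coe_smul, Finset.sum_apply, Pi.smul_apply,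
      smul_eq_mul] at h3
    exact h3.symm
  have h4 : ∑ i : Fin b, (if h : i.1 < Module.finrank E W' then bs.repr ⟨w₂, hw₂⟩ ⟨i.1, h⟩ else 0) *
      (if h : i.1 < Module.finrank E W' then (bs ⟨i.1, h⟩).1 else 0) l = w₂ l := by
    rw [h2]
    symm
    refine Finset.sum_of_injOn (Fin.castLE hrank) (Fin.castLE_injective hrank).injOn
      (by simp) (fun i _ hi => ?_) fun i _ => by simp
    rw [dif_neg, zero_mul]
    intro h
    exact hi ⟨⟨i.1, h⟩, by simp, rfl⟩
  simp only [Fintype.sum_sum_type, Sum.elim_inl, Sum.elim_inr, h4, Pi.add_apply,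
    derivation_sum_smul_apply, Finset.sum_apply, Pi.smul_apply, smul_eq_mul, w₀]
  ring

end Theta

end Pool.Agent.Lib.PRank
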