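import Pool.Agent.Lib.PRank.Basic

namespace Pool.Agent.Lib.PRank

open MvPolynomial

variable {ι V J : Type*} [Fintype ι] [DecidableEq ι] [Fintype V] {sl : V → ι}

/-- The reductions modulo `t` of the polynomial solutions of a linear system over `F(t)` with
`r` equations have density at least `q ^ (-r)`. -/
lemma card_le_reductions {F W I : Type*} [Field F] [Finite F] [Fintype W] [Fintype I]
    (a : I → W → RatFunc F) :
    Nat.card F ^ Nat.card W ≤
      Nat.card {y₀ : W → F // ∃ y : W → Polynomial F, (∀ w, (y w).eval 0 = y₀ w) ∧
        ∀ i, ∑ w, algebraMap (Polynomial F) (RatFunc F) (y w) * a i w = 0} *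
      Nat.card F ^ Fintype.card I := by
  classical
  let φ : (W → Polynomial F) →ₗ[Polynomial F] (I → RatFunc F) :=
    { toFun := fun y i => ∑ w, algebraMap (Polynomial F) (RatFunc F) (y w) * a i w
      map_add' := fun y y' => by
        funext i
        simp [add_mul, Finset.sum_add_distrib]
      map_smul' := fun c y => by
        funext i
        simp [Algebra.smul_def, Finset.mul_sum, mul_assoc] }
  let N := LinearMap.range φ
  let b := Module.Free.chooseBasis (Polynomial F) N
  have hcard : Fintype.card (Module.Free.ChooseBasisIndex (Polynomial F) N) ≤ Fintype.card I := by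
    have h1 : LinearIndependent (Polynomial F) (fun j => (b j : I → RatFunc F)) :=
      b.linearIndependent.map' N.subtype (Submodule.ker_subtype N)
    have h2 : LinearIndependent (RatFunc F) (fun j => (b j : I → RatFunc F)) :=
      (LinearIndependent.iff_fractionRing (Polynomial F) (RatFunc F)).mp h1
    simpa using h2.fintype_card_le_finrank
  choose n hn using fun j => LinearMap.mem_range.mp (b j).2
  let ψ : (W → F) →+ (Module.Free.ChooseBasisIndex (Polynomial F) N → F) :=
    { toFun := fun y₀ j => (b.repr (φ.rangeRestrict fun w => Polynomial.C (y₀ w)) j).eval 0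
      map_zero' := by
        funext j
        have : (fun w => Polynomial.C ((0 : W → F) w)) = 0 := by funext w; simp
        rw [this]; simp
      map_add' := fun y y' => by
        funext j
        have : (fun w => Polynomial.C ((y + y') w)) =
            (fun w => Polynomial.C (y w)) + fun w => Polynomial.C (y' w) := by funext w; simp
        rw [this]; simp }
  have hker : ∀ y₀ : W → F, ψ y₀ = 0 → ∃ y : W → Polynomial F, (∀ w, (y w).eval 0 = y₀ w) ∧
      ∀ i, ∑ w, algebraMap (Polynomial F) (RatFunc F) (y w) * a i w = 0 := by
    intro y₀ hy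
    set c := b.repr (φ.rangeRestrict fun w => Polynomial.C (y₀ w)) with hc
    refine ⟨(fun w => Polynomial.C (y₀ w)) - ∑ j, c j • n j, fun w => ?_, fun i => ?_⟩
    · have h0 : ∀ j, (c j).eval 0 = 0 := fun j => congrFun hy j
      simp [Polynomial.eval_finsetSum, h0]
    · have h1 : φ ((fun w => Polynomial.C (y₀ w)) - ∑ j, c j • n j) = 0 := by
        rw [map_sub, map_sum]
        simp_rw [map_smul, hn]
        have h2 := congrArg Subtype.val (b.sum_repr (φ.rangeRestrict fun w => Polynomial.C (y₀ w)))
        rw [AddSubmonoidClass.coe_finsetSum] at h2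
        rw [sub_eq_zero]
        exact h2.symm
      exact congrFun h1 i
  have h3 : Nat.card ψ.ker ≤ Nat.card {y₀ : W → F // ∃ y : W → Polynomial F,
      (∀ w, (y w).eval 0 = y₀ w) ∧
        ∀ i, ∑ w, algebraMap (Polynomial F) (RatFunc F) (y w) * a i w = 0} :=
    Nat.card_le_card_of_injective (fun y => ⟨y.1, hker y.1 y.2⟩)
      fun y y' h => Subtype.ext (by simpa using h)
  have h4 : ψ.ker.index ≤ Nat.card F ^ Fintype.card I := by
    rw [AddSubgroup.index_ker]
    refine (Nat.card_le_card_of_injective _ Subtype.val_injective).trans ?_
    rw [Nat.card_fun, Nat.card_eq_fintype_card (α := Module.Free.ChooseBasisIndex _ _)]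
    exact Nat.pow_le_pow_right Nat.card_pos hcard
  rw [← Nat.card_fun, ← AddSubgroup.card_mul_index ψ.ker]
  exact Nat.mul_le_mul h3 h4

/-- Analytic rank over `F` is at most partition rank over `F(t)`. -/
theorem arle_of_gen_ratFunc {F : Type*} [Field F] [Finite F] (T : J → MvPolynomial V F) {s : ℕ}
    (h : Gen sl s (fun j => map (algebraMap F (RatFunc F)) (T j))) : ARle T s := by
  classical
  obtain ⟨G, hG, hS, hT⟩ := h
  choose! S hSne hSml using hS
  let Y : Finset ι → Type _ := fun U => {z : V → F // ∃ zt : V → Polynomial F,
    (∀ v, (zt v).eval 0 = z v) ∧ ∀ g ∈ G, S g ⊆ U →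
      eval (fun v => algebraMap (Polynomial F) (RatFunc F) (zt v)) g = 0}
  have hq : 0 < Nat.card F ^ Nat.card V := pow_pos Nat.card_pos _
  have main : ∀ U : Finset ι, Nat.card F ^ Nat.card V ≤
      Nat.card (Y U) * Nat.card F ^ (G.filter fun g => S g ⊆ U).card := by
    intro U
    induction U using Finset.induction_on with
    | empty =>
      have h1 : Nat.card (V → F) ≤ Nat.card (Y ∅) :=
        Nat.card_le_card_of_injective
          (fun z => ⟨z, fun v => Polynomial.C (z v), by simp, fun g hg h0 =>
            absurd (Finset.subset_empty.mp h0) (hSne g hg).ne_empty⟩)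
          fun z z' hz => congrArg Subtype.val hz
      rw [Nat.card_fun] at h1
      exact h1.trans (Nat.le_mul_of_pos_right _ (pow_pos Nat.card_pos _))
    | insert k U hk ih =>
      let I := G.filter fun g => S g ⊆ insert k U ∧ k ∈ S g
      have hI : (G.filter fun g => S g ⊆ U).card + I.card ≤
          (G.filter fun g => S g ⊆ insert k U).card := by
        rw [← Finset.card_union_of_disjoint]
        · refine Finset.card_le_card fun g hg => ?_
          simp only [I, Finset.mem_union, Finset.mem_filter] at hg ⊢
          rcases hg with hg | hg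
          · exact ⟨hg.1, hg.2.trans (Finset.subset_insert _ _)⟩
          · exact ⟨hg.1, hg.2.1⟩
        · rw [Finset.disjoint_left]
          intro g h1 h2
          simp only [I, Finset.mem_filter] at h1 h2
          exact hk (h1.2 h2.2.2)
      choose zt hzt using fun z : Y U => z.2
      let a : Y U → I → V → RatFunc F := fun z g v => if sl v = k then
        eval (fun v => algebraMap (Polynomial F) (RatFunc F) (zt z v)) (pderiv v g.1) else 0
      let L : Y U → Type _ := fun z => {y₀ : V → F // ∃ y : V → Polynomial F,
        (∀ w, (y w).eval 0 = y₀ w) ∧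
          ∀ i, ∑ w, algebraMap (Polynomial F) (RatFunc F) (y w) * a z i w = 0}
      have hL : ∀ z, Nat.card F ^ Nat.card V ≤ Nat.card (L z) * Nat.card F ^ I.card := fun z => by
        have := card_le_reductions (a z)
        rwa [Fintype.card_coe] at this
      have hmem : ∀ (z : Y U) (y : L z), ∃ w : V → Polynomial F,
          (∀ v, (w v).eval 0 = upd sl k z.1 y.1 v) ∧ ∀ g ∈ G, S g ⊆ insert k U →
            eval (fun v => algebraMap (Polynomial F) (RatFunc F) (w v)) g = 0 := by
        intro z y
        obtain ⟨yt, hy1, hy2⟩ := y.2
        refine ⟨upd sl k (zt z) yt, fun v => ?_, fun g hg hsub => ?_⟩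
        · simp only [upd]
          split_ifs
          exacts [hy1 v, (hzt z).1 v]
        · have e : (fun v => algebraMap (Polynomial F) (RatFunc F) (upd sl k (zt z) yt v)) =
              upd sl k (fun v => algebraMap (Polynomial F) (RatFunc F) (zt z v))
                fun v => algebraMap (Polynomial F) (RatFunc F) (yt v) := by
            funext v
            simp only [upd]
            split_ifs <;> rfl
          rw [e]
          by_cases hkg : k ∈ S g
          · rw [(hSml g hg).eval_upd hkg, Finset.sum_filter]
            have := hy2 ⟨g, Finset.mem_filter.mpr ⟨hg, hsub, hkg⟩⟩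
            refine Eq.trans (Finset.sum_congr rfl fun v _ => ?_) this
            simp only [a]
            split_ifs <;> simp
          · have h1 := (hSml g hg).aeval_upd_of_notMem (A := RatFunc F) hkg
              (fun v => algebraMap (Polynomial F) (RatFunc F) (zt z v))
              fun v => algebraMap (Polynomial F) (RatFunc F) (yt v)
            exact h1.trans ((hzt z).2 g hg ((Finset.subset_insert_iff_of_notMem hkg).mp hsub))
      have hinj : Nat.card (Σ z : Y U, L z) ≤ Nat.card (Y (insert k U) × (V → F)) := by
        refine Nat.card_le_card_of_injective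
          (fun p => (⟨upd sl k p.1.1 p.2.1, hmem p.1 p.2⟩, upd sl k p.2.1 p.1.1)) ?_
        rintro ⟨z, y⟩ ⟨z', y'⟩ hp
        have h1 : upd sl k z.1 y.1 = upd sl k z'.1 y'.1 :=
          congrArg Subtype.val (congrArg Prod.fst hp)
        have h2 : upd sl k y.1 z.1 = upd sl k y'.1 z'.1 := congrArg Prod.snd hp
        have hz : z = z' := by
          refine Subtype.ext (funext fun v => ?_)
          have h3 := congrFun h1 v
          have h4 := congrFun h2 v
          by_cases hv : sl v = k <;> simp_all [upd]
        subst hz
        have hy : y = y' := by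
          refine Subtype.ext (funext fun v => ?_)
          have h3 := congrFun h1 v
          have h4 := congrFun h2 v
          by_cases hv : sl v = k <;> simp_all [upd]
        rw [hy]
      have : Fintype (Y U) := Fintype.ofFinite _
      rw [Nat.card_sigma, Nat.card_prod, Nat.card_fun] at hinj
      have h5 : Nat.card (Y U) * Nat.card F ^ Nat.card V ≤
          (Nat.card (Y (insert k U)) * Nat.card F ^ I.card) * Nat.card F ^ Nat.card V := by
        calc Nat.card (Y U) * Nat.card F ^ Nat.card V
            = ∑ _z : Y U, Nat.card F ^ Nat.card V := by simp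
          _ ≤ ∑ z : Y U, Nat.card (L z) * Nat.card F ^ I.card := Finset.sum_le_sum fun z _ => hL z
          _ = (∑ z : Y U, Nat.card (L z)) * Nat.card F ^ I.card := by rw [Finset.sum_mul]
          _ ≤ _ := by
            rw [mul_right_comm]
            exact Nat.mul_le_mul_right _ hinj
      have h6 := Nat.le_of_mul_le_mul_right h5 hq
      calc Nat.card F ^ Nat.card V
          ≤ Nat.card (Y U) * Nat.card F ^ (G.filter fun g => S g ⊆ U).card := ih
        _ ≤ (Nat.card (Y (insert k U)) * Nat.card F ^ I.card) *
            Nat.card F ^ (G.filter fun g => S g ⊆ U).card := Nat.mul_le_mul_right _ h6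
        _ ≤ _ := by
          rw [mul_assoc, ← pow_add]
          exact Nat.mul_le_mul_left _ (Nat.pow_le_pow_right Nat.card_pos (by omega))
  have hY : Nat.card (Y Finset.univ) ≤ nz T := by
    refine Nat.card_le_card_of_injective (fun z => ⟨z.1, fun j => ?_⟩)
      fun z z' hz => Subtype.ext (by simpa using hz)
    obtain ⟨zt, h1, h2⟩ := z.2
    have h3 : aeval (fun v => algebraMap (Polynomial F) (RatFunc F) (zt v))
        (map (algebraMap F (RatFunc F)) (T j)) = 0 :=
      Gen.aeval_eq_zero (hT j) fun g hg => h2 g hg (Finset.subset_univ _)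
    rw [aeval_map_algebraMap] at h3
    have h4 : algebraMap (Polynomial F) (RatFunc F) (aeval zt (T j)) = 0 := by
      rw [← h3, ← aeval_algebraMap_apply]
      rfl
    have h5 : aeval zt (T j) = 0 := (map_eq_zero_iff _ (IsFractionRing.injective _ _)).mp h4
    have h6 := congrArg (Polynomial.aeval (0 : F)) h5
    rw [map_zero, ← AlgHom.comp_apply, comp_aeval] at h6
    have e : (fun v => Polynomial.aeval (0 : F) (zt v)) = z.1 := by
      funext v
      rw [← h1 v, Polynomial.coe_aeval_eq_eval]
    rw [e] at h6
    exact h6
  refine (main Finset.univ).trans (Nat.mul_le_mul hY (Nat.pow_le_pow_right Nat.card_pos ?_))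
  exact (Finset.card_filter_le _ _).trans hG

end Pool.Agent.Lib.PRank
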