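import Pool.Agent.Lib.PRank.Basic

namespace Pool.Agent.Lib.PRank

open MvPolynomial

variable {ι V J R F : Type*} [DecidableEq ι] {sl : V → ι}

section Top

variable [Fintype ι] [CommRing R]

lemma coeff_top (f : MvPolynomial V R) (d : V →₀ ℕ) :
    coeff d (top sl f) = if Finsupp.weight (wt sl) d = ind Finset.univ then coeff d f else 0 := by
  rw [top, coeff_weightedHomogeneousComponent]

lemma degree_of_weight_top {d : V →₀ ℕ} (h : Finsupp.weight (wt sl) d = ind Finset.univ) :
    d.degree = Fintype.card ι := by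
  rw [degree_eq_sum_weight (sl := sl), h, sum_ind, Finset.card_univ]

lemma top_eq_zero_of_mem_pow {f : MvPolynomial V R}
    (hf : f ∈ idealOfVars V R ^ (Fintype.card ι + 1)) : top sl f = 0 := by
  ext d
  rw [coeff_top, coeff_zero]
  split_ifs with h
  · exact (mem_pow_idealOfVars_iff' _ _).mp hf d (by rw [degree_of_weight_top h]; omega)
  · rfl

lemma top_monomial_mul (d : V →₀ ℕ) (r : R) (ψ : MvPolynomial V R) :
    top sl (monomial d r * ψ) = 0 ∨ ∃ S : Finset ι, top sl (monomial d r * ψ) =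
      monomial d r * weightedHomogeneousComponent (wt sl) (ind S) ψ := by
  classical
  by_cases hd : ∀ k, Finsupp.weight (wt sl) d k ≤ 1
  · refine Or.inr ⟨Finset.univ.filter fun k => Finsupp.weight (wt sl) d k = 0, ?_⟩
    ext e
    rw [coeff_top, coeff_monomial_mul', coeff_monomial_mul', coeff_weightedHomogeneousComponent]
    by_cases hde : d ≤ e
    · have h1 : Finsupp.weight (wt sl) e =
          Finsupp.weight (wt sl) d + Finsupp.weight (wt sl) (e - d) := by
        rw [← map_add, add_tsub_cancel_of_le hde]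
      have h2 : Finsupp.weight (wt sl) e = ind Finset.univ ↔ Finsupp.weight (wt sl) (e - d) =
          ind (Finset.univ.filter fun k => Finsupp.weight (wt sl) d k = 0) := by
        rw [h1, funext_iff, funext_iff]
        refine forall_congr' fun k => ?_
        have := hd k
        simp only [Pi.add_apply, ind, Finset.mem_univ, if_true, Finset.mem_filter, true_and]
        split_ifs <;> omega
      simp only [hde, if_true, h2]
      split_ifs <;> simp
    · simp [hde]
  · left
    ext e
    rw [coeff_top, coeff_monomial_mul', coeff_zero]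
    split_ifs with h1 h2
    · exfalso
      refine hd fun k => ?_
      have h3 : Finsupp.weight (wt sl) e =
          Finsupp.weight (wt sl) d + Finsupp.weight (wt sl) (e - d) := by
        rw [← map_add, add_tsub_cancel_of_le h2]
      have h4 := congrFun (h3.symm.trans h1) k
      simp only [Pi.add_apply, ind, Finset.mem_univ, if_true] at h4
      omega
    · rfl
    · rfl

/-- The multilinear part of elements of an ideal with few generators without constant term. -/
theorem gen_top {κ : Type*} [Fintype κ] (ψ : κ → MvPolynomial V R)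
    (hψ : ∀ i, ψ i ∈ idealOfVars V R) (H : J → MvPolynomial V R)
    (hH : ∀ j, H j ∈ Ideal.span (Set.range ψ) ⊔ idealOfVars V R ^ (Fintype.card ι + 1)) :
    Gen sl (2 ^ Fintype.card ι * Fintype.card κ) (fun j => top sl (H j)) := by
  classical
  let g : Finset ι × κ → MvPolynomial V R := fun p =>
    weightedHomogeneousComponent (wt sl) (ind p.1) (ψ p.2)
  refine Gen.of_family g (by simp) (fun p => ?_) fun j => ?_
  · rcases p.1.eq_empty_or_nonempty with h | h
    · left
      ext d
      simp only [g, h, coeff_weightedHomogeneousComponent, coeff_zero, ind_empty]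
      split_ifs with h1
      · have h2 := hψ p.2
        rw [← pow_one (idealOfVars V R), mem_pow_idealOfVars_iff'] at h2
        refine h2 d ?_
        rw [degree_eq_sum_weight (sl := sl), h1]; simp
      · rfl
    · exact Or.inr ⟨p.1, h, weightedHomogeneousComponent_isWeightedHomogeneous _ _⟩
  · obtain ⟨a, ha, b, hb, hab⟩ := Submodule.mem_sup.mp (hH j)
    obtain ⟨c, rfl⟩ := Ideal.mem_span_range_iff_exists_fun.mp ha
    rw [← hab, map_add, top_eq_zero_of_mem_pow hb, add_zero, map_sum]
    refine Ideal.sum_mem _ fun i _ => ?_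
    induction c i using MvPolynomial.induction_on' with
    | monomial d r =>
      rcases top_monomial_mul (sl := sl) d r (ψ i) with h | ⟨S, h⟩
      · rw [h]; exact zero_mem _
      · rw [h]; exact Ideal.mul_mem_left _ _ (Ideal.subset_span ⟨(S, i), rfl⟩)
    | add p q hp hq => rw [add_mul, map_add]; exact add_mem hp hq

omit [Fintype ι] [DecidableEq ι] in
lemma shift_monomial_sub (z : V → R) (n : ℕ) : ∀ d : V →₀ ℕ, d.degree = n → ∀ e : V →₀ ℕ,
    n ≤ e.degree → coeff e (aeval (fun v => C (z v) + X v) (monomial d (1 : R))) =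
      coeff e (monomial d (1 : R)) := by
  classical
  induction n with
  | zero =>
    intro d hd e _
    rw [(Finsupp.degree_eq_zero_iff d).mp hd]
    simp
  | succ n ih =>
    intro d hd e he
    obtain ⟨v, hv⟩ : d.support.Nonempty := by
      rw [Finsupp.support_nonempty_iff]
      rintro rfl
      simp at hd
    have h1 : Finsupp.single v 1 ≤ d := by
      rw [Finsupp.single_le_iff]
      exact Nat.one_le_iff_ne_zero.mpr (Finsupp.mem_support_iff.mp hv)
    obtain ⟨d', rfl⟩ := exists_add_of_le h1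
    have hd' : d'.degree = n := by
      rw [map_add, Finsupp.degree_single] at hd; omega
    have h2 : (monomial (Finsupp.single v 1 + d') (1 : R)) = X v * monomial d' 1 := by
      rw [X, monomial_mul, one_mul]
    rw [h2, map_mul, aeval_X, add_mul, coeff_add, coeff_C_mul, ih d' hd' e (by omega),
      coeff_X_mul', coeff_X_mul', coeff_monomial]
    have h3 : d' ≠ e := by rintro rfl; omega
    rw [if_neg h3, mul_zero, zero_add]
    split_ifs with h4
    · refine ih d' hd' _ ?_
      have h5 : Finsupp.single v 1 ≤ e := by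
        rw [Finsupp.single_le_iff]
        exact Nat.one_le_iff_ne_zero.mpr (Finsupp.mem_support_iff.mp h4)
      have h6 := congrArg Finsupp.degree (tsub_add_cancel_of_le h5)
      rw [map_add, Finsupp.degree_single] at h6
      omega
    · rfl

/-- Translation does not change the multilinear part of a multilinear form. -/
theorem top_shift [CommRing F] [Algebra F R] {f : MvPolynomial V F}
    (hf : IsML sl Finset.univ f) (z : V → R) :
    top sl (aeval (fun v => C (z v) + X v) f) = map (algebraMap F R) f := by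
  classical
  have h0 : aeval (fun v => (C (z v) + X v : MvPolynomial V R)) f =
      aeval (fun v => (C (z v) + X v : MvPolynomial V R)) (map (algebraMap F R) f) := by
    rw [aeval_map_algebraMap]
  have hg := hf.map (algebraMap F R)
  rw [h0]
  generalize map (algebraMap F R) f = g at hg
  conv_rhs => rw [← hg.top_eq]
  ext e
  rw [coeff_top, coeff_top]
  split_ifs with h
  · rw [g.as_sum, map_sum, coeff_sum, coeff_sum]
    refine Finset.sum_congr rfl fun d hd => ?_
    have h1 : monomial d (coeff d g) = C (coeff d g) * monomial d 1 := by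
      rw [C_mul_monomial, mul_one]
    rw [h1, map_mul, aeval_C, algebraMap_eq, coeff_C_mul, coeff_C_mul,
      shift_monomial_sub z _ d (degree_of_weight_top (hg (mem_support_iff.mp hd))) e
        (degree_of_weight_top h).ge]
  · rfl

end Top

section Implicit

variable [CommRing F] {B : Type*} [CommRing B] [Algebra F B] [Fintype V]

omit [Fintype V] in
lemma aeval_sub_mem (𝔫 : Ideal B) {a b : V → B} (h : ∀ v, a v - b v ∈ 𝔫) (f : MvPolynomial V F) :
    aeval a f - aeval b f ∈ 𝔫 := by
  induction f using MvPolynomial.induction_on with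
  | C c => simp
  | add p q hp hq =>
    have := add_mem hp hq
    rw [map_add, map_add]; convert this using 1; ring
  | mul_X p v hp =>
    have := add_mem (𝔫.mul_mem_right (a v) hp) (𝔫.mul_mem_left (aeval b p) (h v))
    rw [map_mul, map_mul, aeval_X, aeval_X]; convert this using 1; ring

/-- First order Taylor expansion. -/
lemma taylor_mem (𝔫 𝔡 : Ideal B) {y a b : V → B} (ha : ∀ v, a v - y v ∈ 𝔫)
    (hb : ∀ v, b v - y v ∈ 𝔫) (hab : ∀ v, a v - b v ∈ 𝔡) (f : MvPolynomial V F) :
    aeval a f - aeval b f - ∑ v, aeval y (pderiv v f) * (a v - b v) ∈ 𝔫 * 𝔡 := by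
  classical
  induction f using MvPolynomial.induction_on with
  | C c => simp
  | add p q hp hq =>
    have := add_mem hp hq
    simp only [map_add, add_mul, Finset.sum_add_distrib]
    convert this using 1; ring
  | mul_X p w hp =>
    have h1 := (𝔫 * 𝔡).mul_mem_left (a w) hp
    have h2 : (a w - y w) * ∑ v, aeval y (pderiv v p) * (a v - b v) ∈ 𝔫 * 𝔡 :=
      Ideal.mul_mem_mul (ha w) (Ideal.sum_mem _ fun v _ => 𝔡.mul_mem_left _ (hab v))
    have h3 : (aeval b p - aeval y p) * (a w - b w) ∈ 𝔫 * 𝔡 :=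
      Ideal.mul_mem_mul (aeval_sub_mem 𝔫 hb p) (hab w)
    have h4 : ∑ v, aeval y (pderiv v (p * X w)) * (a v - b v) =
        y w * ∑ v, aeval y (pderiv v p) * (a v - b v) + aeval y p * (a w - b w) := by
      have h5 : ∀ v, aeval y (pderiv v (p * X w)) * (a v - b v) =
          y w * (aeval y (pderiv v p) * (a v - b v)) +
            if v = w then aeval y p * (a w - b w) else 0 := by
        intro v
        rw [Derivation.leibniz, smul_eq_mul, smul_eq_mul, map_add, map_mul, map_mul, aeval_X,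
          pderiv_X]
        by_cases h : v = w
        · subst h; simp; ring
        · simp [h, Ne.symm h]; ring
      simp only [h5, Finset.sum_add_distrib, Finset.sum_ite_eq', Finset.mem_univ, if_true,
        Finset.mul_sum]
    rw [h4, map_mul, map_mul, aeval_X, aeval_X]
    convert add_mem (add_mem h1 h2) h3 using 1
    ring

variable {κ : Type*} [Fintype κ] [DecidableEq κ]

/-- The point `y` moved in the directions `e` by the amounts `γ`. -/
noncomputable def mv (y : V → B) (e : κ → V → F) (γ : κ → B) : V → B :=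
  fun v => y v - ∑ i, algebraMap F B (e i v) * γ i

omit [Fintype V] [DecidableEq κ] in
lemma mv_sub_mem (𝔫 : Ideal B) (y : V → B) (e : κ → V → F) {γ : κ → B} (hγ : ∀ i, γ i ∈ 𝔫)
    (v : V) : mv y e γ v - y v ∈ 𝔫 := by
  simp only [mv, sub_sub_cancel_left]
  exact neg_mem (Ideal.sum_mem _ fun i _ => 𝔫.mul_mem_left _ (hγ i))

omit [DecidableEq κ] in
lemma mv_taylor (𝔫 𝔡 : Ideal B) (y : V → B) (Φ : κ → MvPolynomial V F) (e : κ → V → F)
    {γ γ' : κ → B} (hγ : ∀ i, γ i ∈ 𝔫) (hγ' : ∀ i, γ' i ∈ 𝔫) (h : ∀ i, γ i - γ' i ∈ 𝔡) (i : κ) :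
    aeval (mv y e γ) (Φ i) - aeval (mv y e γ') (Φ i) + (jac y Φ e).mulVec (γ - γ') i ∈ 𝔫 * 𝔡 := by
  have h0 : ∀ v, mv y e γ v - mv y e γ' v = -∑ j, algebraMap F B (e j v) * (γ j - γ' j) := by
    intro v
    simp only [mv, mul_sub, Finset.sum_sub_distrib]; ring
  have h1 := taylor_mem 𝔫 𝔡 (mv_sub_mem 𝔫 y e hγ) (mv_sub_mem 𝔫 y e hγ')
    (fun v => by
      rw [h0]; exact neg_mem (Ideal.sum_mem _ fun j _ => 𝔡.mul_mem_left _ (h j))) (Φ i)
  convert h1 using 1
  simp only [h0, mul_neg, Finset.sum_neg_distrib, sub_neg_eq_add, Matrix.mulVec, dotProduct, jac,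
    Matrix.of_apply, Pi.sub_apply, Finset.sum_mul, Finset.mul_sum, mul_assoc]
  rw [Finset.sum_comm]

/-- Implicit function theorem, existence to any order. -/
theorem exists_implicit (𝔫 : Ideal B) (y : V → B) (Φ : κ → MvPolynomial V F) (e : κ → V → F)
    (hΦ : ∀ i, aeval y (Φ i) ∈ 𝔫) (c : B) (hc : c * (jac y Φ e).det - 1 ∈ 𝔫) (N : ℕ) :
    ∃ γ : κ → B, (∀ i, γ i ∈ 𝔫) ∧ ∀ i, aeval (mv y e γ) (Φ i) ∈ 𝔫 ^ (N + 1) := by
  induction N with
  | zero =>
    refine ⟨0, fun _ => zero_mem _, fun i => ?_⟩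
    have : mv y e (0 : κ → B) = y := by funext v; simp [mv]
    simpa [this] using hΦ i
  | succ N ih =>
    obtain ⟨γ, hγ, hγ'⟩ := ih
    let w : κ → B := fun i => aeval (mv y e γ) (Φ i)
    let δ : κ → B := c • (jac y Φ e).adjugate.mulVec w
    have hδ : ∀ i, δ i ∈ 𝔫 ^ (N + 1) := fun i =>
      Ideal.mul_mem_left _ _ (Ideal.sum_mem _ fun j _ => Ideal.mul_mem_left _ _ (hγ' j))
    have hδ1 : ∀ i, γ i + δ i ∈ 𝔫 := fun i =>
      add_mem (hγ i) (Ideal.pow_le_self (by omega) (hδ i))
    refine ⟨γ + δ, hδ1, fun i => ?_⟩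
    have h1 := mv_taylor 𝔫 (𝔫 ^ (N + 1)) y Φ e (γ := γ + δ) (γ' := γ) hδ1 hγ
      (fun i => by simpa using hδ i) i
    have h2 : (jac y Φ e).mulVec (γ + δ - γ) i = c * (jac y Φ e).det * w i := by
      rw [add_sub_cancel_left, Matrix.mulVec_smul, Matrix.mulVec_mulVec, Matrix.mul_adjugate,
        Matrix.smul_mulVec, Matrix.one_mulVec]
      simp [mul_assoc]
    have h3 : (c * (jac y Φ e).det - 1) * w i ∈ 𝔫 * 𝔫 ^ (N + 1) := Ideal.mul_mem_mul hc (hγ' i)
    rw [h2] at h1
    rw [pow_succ' 𝔫 (N + 1)]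
    convert sub_mem h1 h3 using 1
    simp only [w]; ring

/-- Implicit function theorem, uniqueness. -/
theorem implicit_unique (𝔫 𝔷 : Ideal B) {N : ℕ} (hN : 𝔫 ^ N ≤ 𝔷) (y : V → B)
    (Φ : κ → MvPolynomial V F) (e : κ → V → F) (c : B) (hc : c * (jac y Φ e).det - 1 ∈ 𝔫)
    {γ γ' : κ → B} (hγ : ∀ i, γ i ∈ 𝔫) (hγ' : ∀ i, γ' i ∈ 𝔫)
    (h : ∀ i, aeval (mv y e γ) (Φ i) ∈ 𝔷) (h' : ∀ i, aeval (mv y e γ') (Φ i) ∈ 𝔷) (i : κ) :
    γ i - γ' i ∈ 𝔷 := by
  have key : ∀ n : ℕ, ∀ i, γ i - γ' i ∈ 𝔷 ⊔ 𝔫 ^ n := by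
    intro n
    induction n with
    | zero => intro i; simp
    | succ n ih =>
      have hle : 𝔫 * (𝔷 ⊔ 𝔫 ^ n) ≤ 𝔷 ⊔ 𝔫 ^ (n + 1) := by
        rw [Ideal.mul_sup, pow_succ']
        exact sup_le_sup_right Ideal.mul_le_right _
      have h1 : ∀ i, (jac y Φ e).mulVec (γ - γ') i ∈ 𝔷 ⊔ 𝔫 ^ (n + 1) := by
        intro i
        have h2 := hle (mv_taylor 𝔫 _ y Φ e hγ hγ' ih i)
        have h3 : aeval (mv y e γ) (Φ i) - aeval (mv y e γ') (Φ i) ∈ 𝔷 ⊔ 𝔫 ^ (n + 1) :=
          Ideal.mem_sup_left (sub_mem (h i) (h' i))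
        simpa using sub_mem h2 h3
      intro i
      have h4 : ((jac y Φ e).adjugate.mulVec ((jac y Φ e).mulVec (γ - γ'))) i ∈
          𝔷 ⊔ 𝔫 ^ (n + 1) :=
        Ideal.sum_mem _ fun j _ => Ideal.mul_mem_left _ _ (h1 j)
      rw [Matrix.mulVec_mulVec, Matrix.adjugate_mul, Matrix.smul_mulVec, Matrix.one_mulVec] at h4
      have h5 := hle (Ideal.mul_mem_mul hc (ih i))
      convert sub_mem (Ideal.mul_mem_left _ c h4) h5 using 1
      simp; ring
  exact (sup_le le_rfl hN) (key N i)

end Implicit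

end Pool.Agent.Lib.PRank
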