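import Pool.Agent.Lib.PRank.Basic

namespace Pool.Agent.Lib.PRank

open MvPolynomial

namespace RS

section cw

variable {W E L : Type*} [CommRing E] [CommRing L] [Algebra E L]

/-- A linear functional applied to all coefficients. -/
noncomputable def cw (φ : L →ₗ[E] E) (f : MvPolynomial W L) : MvPolynomial W E :=
  AddMonoidAlgebra.map φ.toAddMonoidHom f

lemma coeff_cw (φ : L →ₗ[E] E) (f : MvPolynomial W L) (d : W →₀ ℕ) :
    coeff d (cw φ f) = φ (coeff d f) := rfl

lemma cw_add (φ : L →ₗ[E] E) (f g : MvPolynomial W L) : cw φ (f + g) = cw φ f + cw φ g := by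
  ext d; simp [coeff_cw]

lemma cw_zero (φ : L →ₗ[E] E) : cw φ (0 : MvPolynomial W L) = 0 := by
  ext d; simp [coeff_cw]

lemma cw_sum {κ : Type*} (φ : L →ₗ[E] E) (s : Finset κ) (f : κ → MvPolynomial W L) :
    cw φ (∑ i ∈ s, f i) = ∑ i ∈ s, cw φ (f i) := by
  ext d; simp [coeff_cw, coeff_sum]

lemma cw_mul_map (φ : L →ₗ[E] E) (h : MvPolynomial W L) (g : MvPolynomial W E) :
    cw φ (h * map (algebraMap E L) g) = cw φ h * g := by
  classical
  ext d
  simp only [coeff_cw, coeff_mul, map_sum, coeff_map]
  refine Finset.sum_congr rfl fun p _ => ?_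
  rw [mul_comm, ← Algebra.smul_def, map_smul, smul_eq_mul, mul_comm]

lemma cw_C (φ : L →ₗ[E] E) (a : L) : cw φ (C a : MvPolynomial W L) = C (φ a) := by
  classical
  ext d
  simp only [coeff_cw, coeff_C]
  split_ifs <;> simp

lemma support_cw (φ : L →ₗ[E] E) (f : MvPolynomial W L) : (cw φ f).support ⊆ f.support :=
  fun d hd => mem_support_iff.mpr fun h => mem_support_iff.mp hd (by rw [coeff_cw, h, map_zero])

lemma cw_mem (φ : L →ₗ[E] E) {I : Ideal (MvPolynomial W E)} {f : MvPolynomial W L}
    (hf : f ∈ I.map (map (algebraMap E L))) : cw φ f ∈ I := by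
  have : ∀ h, cw φ (h * f) ∈ I := by
    induction hf using Submodule.span_induction with
    | mem x hx =>
      obtain ⟨g, hg, rfl⟩ := hx
      exact fun h => by rw [cw_mul_map]; exact I.mul_mem_left _ hg
    | zero => exact fun h => by rw [mul_zero, cw_zero]; exact zero_mem _
    | add x y _ _ hx hy => exact fun h => by rw [mul_add, cw_add]; exact add_mem (hx h) (hy h)
    | smul a x _ hx => exact fun h => by rw [smul_eq_mul, ← mul_assoc]; exact hx _
  simpa using this 1

lemma eq_sum_cw {κ : Type*} [Fintype κ] (b : Module.Basis κ E L) (f : MvPolynomial W L) :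
    f = ∑ r, C (b r) * map (algebraMap E L) (cw (b.coord r) f) := by
  ext d
  simp only [coeff_sum, coeff_C_mul, coeff_map, coeff_cw, Module.Basis.coord_apply]
  conv_lhs => rw [← b.sum_repr (coeff d f)]
  exact Finset.sum_congr rfl fun r _ => by rw [Algebra.smul_def, mul_comm]

end cw

variable {ι V E L : Type*} [DecidableEq ι] {sl : V → ι} [Field E] [CommRing L] [Algebra E L]
  {m : ℕ}

/-- The point with parameter `a` on the interpolating curve. -/
noncomputable def sub (t' : Fin m → E) (a : L) (v : V) : MvPolynomial (V × Fin m) L :=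
  ∑ l, C (Polynomial.aeval a (Lagrange.basis Finset.univ t' l)) * X (v, l)

/-- The restriction of a polynomial to the interpolating curve. -/
noncomputable def ip (t' : Fin m → E) (T : MvPolynomial V E) :
    Polynomial (MvPolynomial (V × Fin m) E) :=
  aeval (fun v => ∑ l, (Lagrange.basis Finset.univ t' l).map C * Polynomial.C (X (v, l)))
    (map (C : E →+* MvPolynomial (V × Fin m) E) T)

lemma isML_sub (t' : Fin m → E) (a : L) (v : V) :
    IsML (fun vl : V × Fin m => sl vl.1) {sl v} (sub t' a v) :=
  IsML.sum _ _ fun l _ => (IsML.X (sl := fun vl : V × Fin m => sl vl.1) (v, l)).C_mul _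

lemma eval₂_ip (t' : Fin m → E) (a : L) (T : MvPolynomial V E) :
    (ip t' T).eval₂ (map (algebraMap E L)) (C a) = aeval (sub t' a) (map (algebraMap E L) T) := by
  unfold ip
  induction T using MvPolynomial.induction_on with
  | C c => simp
  | add p q hp hq => simp only [map_add, Polynomial.eval₂_add, hp, hq]
  | mul_X p v hp =>
    simp only [map_mul, Polynomial.eval₂_mul, hp, map_X, aeval_X, Polynomial.eval₂_finsetSum,
      Polynomial.eval₂_C, sub]
    congr 1
    refine Finset.sum_congr rfl fun l _ => ?_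
    congr 1
    rw [Polynomial.eval₂_map, Polynomial.aeval_def, Polynomial.hom_eval₂]
    congr 1
    ext c : 1
    simp

lemma eval_ip (t' : Fin m → E) (a : E) (T : MvPolynomial V E) :
    (ip t' T).eval (C a) = aeval (sub t' a) T := by
  have := eval₂_ip t' a T
  rwa [Algebra.algebraMap_self, map_id, show map (RingHom.id E) = RingHom.id _ from
    RingHom.ext map_id] at this

lemma eval_ip_node {t' : Fin m → E} (ht' : Function.Injective t') (l : Fin m)
    (T : MvPolynomial V E) : (ip t' T).eval (C (t' l)) = rename (fun v => (v, l)) T := by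
  rw [eval_ip, rename_eq_aeval]
  congr 2
  funext v
  rw [sub, Finset.sum_eq_single l]
  · rw [Polynomial.coe_aeval_eq_eval, Lagrange.eval_basis_self ht'.injOn (Finset.mem_univ l)]
    simp
  · intro l' _ h
    rw [Polynomial.coe_aeval_eq_eval, Lagrange.eval_basis_of_ne h (Finset.mem_univ l)]
    simp
  · simp

lemma natDegree_ip [Fintype ι] {t' : Fin m → E} (ht' : Function.Injective t')
    {T : MvPolynomial V E} (hT : IsML sl Finset.univ T) :
    (ip t' T).natDegree ≤ Fintype.card ι * (m - 1) := by
  refine aeval_natDegree_le _ (hT.map _).totalDegree_le _ fun v => ?_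
  refine Polynomial.natDegree_sum_le_of_forall_le _ _ fun l _ => ?_
  refine (Polynomial.natDegree_mul_C_le _ _).trans (Polynomial.natDegree_map_le.trans ?_)
  rw [Lagrange.natDegree_basis ht'.injOn (Finset.mem_univ l)]
  simp

/-- A polynomial with many values in an ideal has all its values at constants in the ideal. -/
lemma eval_mem_of_many {κ : Type*} {t : κ → E} {S : Finset κ} (ht : Set.InjOn t S)
    {p : Polynomial L} (hp : p.natDegree < S.card) {I : Ideal L}
    (h : ∀ k ∈ S, p.eval (algebraMap E L (t k)) ∈ I) (a : E) : p.eval (algebraMap E L a) ∈ I := by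
  classical
  have key : ∀ r < S.card, a ^ r = ∑ k ∈ S, t k ^ r * (Lagrange.basis S t k).eval a := by
    intro r hr
    have h1 := Lagrange.eq_interpolate (f := Polynomial.X ^ r) ht
      (by rw [Polynomial.degree_X_pow]; exact_mod_cast hr)
    have h2 := congrArg (Polynomial.eval a) h1
    simpa [Lagrange.interpolate_apply, Polynomial.eval_finsetSum] using h2
  have e : p.eval (algebraMap E L a) =
      ∑ k ∈ S, algebraMap E L ((Lagrange.basis S t k).eval a) * p.eval (algebraMap E L (t k)) := by
    simp only [Polynomial.eval_eq_sum_range' hp (x := algebraMap E L _), Finset.mul_sum]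
    rw [Finset.sum_comm]
    refine Finset.sum_congr rfl fun r hr => ?_
    rw [← map_pow, key r (Finset.mem_range.mp hr), map_sum, Finset.mul_sum]
    exact Finset.sum_congr rfl fun k _ => by rw [map_mul, map_pow]; ring
  rw [e]
  exact Ideal.sum_mem _ fun k hk => I.mul_mem_left _ (h k hk)

end RS

open RS

variable {ι V J : Type*} [Fintype ι] [DecidableEq ι] {sl : V → ι}

open Classical in
/-- Averaging of covers by interpolation at rational points. -/
theorem gen_dsum_of_cover {E : Type*} [Field E] {M m s : ℕ} (t : Fin M → E)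
    (ht : Function.Injective t) (t' : Fin m → E) (ht' : Function.Injective t')
    (T : J → MvPolynomial V E) (hT : ∀ j, IsML sl Finset.univ (T j)) (G : Fin M → Set J)
    (hG : ∀ k, Gen sl s (fun j : G k => T j.1))
    (hcov : ∀ j, Fintype.card ι * (m - 1) < (Finset.univ.filter fun k => j ∈ G k).card) :
    Gen (fun vl : V × Fin m => sl vl.1) (M * s) (dsum m T) := by
  choose H h1 h2 h3 using hG
  refine ⟨Finset.univ.biUnion fun k => (H k).image (aeval (sub t' (t k))), ?_, fun g hg => ?_,
    fun jl => ?_⟩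
  · refine (Finset.card_biUnion_le_card_mul _ _ s fun k _ =>
      Finset.card_image_le.trans (h1 k)).trans ?_
    simp
  · obtain ⟨k, -, hk⟩ := Finset.mem_biUnion.mp hg
    obtain ⟨f, hf, rfl⟩ := Finset.mem_image.mp hk
    obtain ⟨S, hS, hf'⟩ := h2 k f hf
    exact ⟨S, hS, hf'.aeval_linear _ (isML_sub t' (t k))⟩
  · rw [dsum, ← eval_ip_node ht']
    refine eval_mem_of_many (E := E) ht.injOn
      ((natDegree_ip ht' (hT jl.1)).trans_lt (hcov jl.1)) (fun k hk => ?_) _
    rw [algebraMap_eq, eval_ip]
    have h4 := Ideal.mem_map_of_mem (aeval (sub t' (t k)) : MvPolynomial V E →ₐ[E] _)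
      (h3 k ⟨jl.1, (Finset.mem_filter.mp hk).2⟩)
    rw [Ideal.map_span] at h4
    refine Ideal.span_mono ?_ h4
    rintro _ ⟨f, hf, rfl⟩
    exact Finset.mem_coe.mpr (Finset.mem_biUnion.mpr
      ⟨k, Finset.mem_univ k, Finset.mem_image_of_mem _ hf⟩)

open scoped TensorProduct in
/-- Interpolation at a closed point of large degree. -/
theorem gen_dsum_of_ext {F K E : Type*} [Field F] [Field K] [Algebra F K] (pb : PowerBasis F K)
    [Field E] [Algebra F E] {m s : ℕ} (t' : Fin m → E) (ht' : Function.Injective t')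
    (hm : Fintype.card ι * (m - 1) < pb.dim) (T : J → MvPolynomial V F)
    (hT : ∀ j, IsML sl Finset.univ (T j))
    (h : Gen sl s (fun j => map (algebraMap F K) (T j))) :
    Gen (fun vl : V × Fin m => sl vl.1) (pb.dim * s)
      (dsum m (fun j => map (algebraMap F E) (T j))) := by
  classical
  let b := Algebra.TensorProduct.basis E pb.basis
  let α : E ⊗[F] K := 1 ⊗ₜ pb.gen
  have hb : ∀ r : Fin pb.dim, α ^ (r : ℕ) = b r := fun r => by
    simp [α, b, Algebra.TensorProduct.tmul_pow]
  obtain ⟨H, h1, h2, h3⟩ := h.map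
    (Algebra.TensorProduct.includeRight : K →ₐ[F] E ⊗[F] K).toRingHom
  refine ⟨(Finset.univ ×ˢ H).image fun x : Fin pb.dim × _ =>
    cw (b.coord x.1) (aeval (sub t' α) x.2), ?_, fun g hg => ?_, fun jl => ?_⟩
  · refine Finset.card_image_le.trans ?_
    rw [Finset.card_product, Finset.card_univ, Fintype.card_fin]
    exact Nat.mul_le_mul_left _ h1
  · obtain ⟨x, hx, rfl⟩ := Finset.mem_image.mp hg
    obtain ⟨S, hS, hf⟩ := h2 x.2 (Finset.mem_product.mp hx).2
    exact ⟨S, hS, (hf.aeval_linear _ (isML_sub t' α)).of_support_subset (support_cw _ _)⟩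
  · set I := Ideal.span (((Finset.univ ×ˢ H).image fun x : Fin pb.dim × _ =>
      cw (b.coord x.1) (aeval (sub t' α) x.2) : Finset _) : Set (MvPolynomial (V × Fin m) E))
    have hd := (natDegree_ip ht' ((hT jl.1).map (algebraMap F E))).trans_lt hm
    have h4 := Ideal.mem_map_of_mem
      (aeval (sub t' α) : MvPolynomial V (E ⊗[F] K) →ₐ[E ⊗[F] K] _) (h3 jl.1)
    have h5 : Ideal.map (aeval (sub t' α) : MvPolynomial V (E ⊗[F] K) →ₐ[E ⊗[F] K] _)
        (Ideal.span H) ≤ I.map (map (algebraMap E (E ⊗[F] K))) := by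
      rw [Ideal.map_span, Ideal.span_le]
      rintro _ ⟨g, hg, rfl⟩
      rw [eq_sum_cw b (aeval (sub t' α) g)]
      refine Ideal.sum_mem _ fun r _ => Ideal.mul_mem_left _ _ (Ideal.mem_map_of_mem _ ?_)
      exact Ideal.subset_span (Finset.mem_coe.mpr (Finset.mem_image.mpr
        ⟨(r, g), Finset.mem_product.mpr ⟨Finset.mem_univ _, hg⟩, rfl⟩))
    have h6 : map (Algebra.TensorProduct.includeRight : K →ₐ[F] E ⊗[F] K).toRingHom
        (map (algebraMap F K) (T jl.1)) =
        map (algebraMap E (E ⊗[F] K)) (map (algebraMap F E) (T jl.1)) := by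
      rw [map_map, map_map, ← IsScalarTower.algebraMap_eq,
        ← (Algebra.TensorProduct.includeRight : K →ₐ[F] E ⊗[F] K).comp_algebraMap]
      rfl
    have h7 := h5 h4
    beta_reduce at h7
    rw [h6, ← eval₂_ip, Polynomial.eval₂_eq_sum_range' _ hd, Finset.sum_range] at h7
    rw [dsum, ← eval_ip_node ht', Polynomial.eval_eq_sum_range' hd, Finset.sum_range]
    refine Ideal.sum_mem _ fun r _ => Ideal.mul_mem_right _ _ ?_
    have h8 := cw_mem (b.coord r) h7
    rw [cw_sum, Finset.sum_eq_single r] at h8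
    · rwa [mul_comm, cw_mul_map, ← map_pow, hb, cw_C, Module.Basis.coord_apply,
        Module.Basis.repr_self, Finsupp.single_eq_same, C_1, one_mul] at h8
    · intro i _ hi
      rw [mul_comm, cw_mul_map, ← map_pow, hb, cw_C, Module.Basis.coord_apply,
        Module.Basis.repr_self, Finsupp.single_eq_of_ne hi.symm, C_0, zero_mul]
    · simp

end Pool.Agent.Lib.PRank
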