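import Pool.Agent.Lib.PRank.WalkAux

/-!
Linear algebra for the random walk on the zero set: sizes of fibres, dual families, and the
substitution that freezes the later slots.
-/

namespace Pool.Agent.Lib.PRank

open MvPolynomial Finset Matrix

variable {V J F : Type*}

/-- A matrix of rank `ρ` has an invertible `ρ × ρ` compression. -/
lemma exists_dual [Field F] {m n : Type*} [Fintype m] [Fintype n] (A : Matrix m n F) :
    ∃ (B : Matrix (Fin A.rank) m F) (E : Matrix n (Fin A.rank) F), B * A * E = 1 := by
  classical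
  let b := Module.finBasis F (LinearMap.range A.mulVecLin)
  choose e he using fun t : Fin A.rank => (b t).2
  choose l hl using fun s : Fin A.rank => LinearMap.exists_extend (b.coord s)
  refine ⟨Matrix.of fun s j => l s (Pi.single j 1), Matrix.of fun v t => e t v, ?_⟩
  ext s t
  have h1 : l s (A *ᵥ e t) = (1 : Matrix (Fin A.rank) (Fin A.rank) F) s t := by
    have h2 := LinearMap.congr_fun (hl s) (b t)
    rw [LinearMap.comp_apply, Submodule.subtype_apply, ← he t, mulVecLin_apply] at h2
    rw [h2, Module.Basis.coord_apply, Module.Basis.repr_self, Finsupp.single_apply, one_apply]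
    exact if_congr eq_comm rfl rfl
  rw [← h1, Matrix.mul_assoc, mul_apply, LinearMap.pi_apply_eq_sum_univ]
  refine sum_congr rfl fun j _ => ?_
  have h3 : (fun j' => if j = j' then (1 : F) else 0) = Pi.single j 1 := by
    funext j'; simp [Pi.single_apply, eq_comm]
  rw [h3, smul_eq_mul, mul_comm]
  rfl

/-- The differentials of `T` at `ζ` along the variables of level `i`. -/
noncomputable def lvlMat [CommSemiring F] (r : V → ℕ) (T : J → MvPolynomial V F) (i : ℕ)
    (ζ : V → F) : Matrix J {v // r v = i} F :=
  Matrix.of fun j v => eval ζ (pderiv v.1 (T j))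

/-- The substitution that freezes the variables of level `> i` at `p`. -/
noncomputable def frz [CommSemiring F] (r : V → ℕ) (i : ℕ) (p : V → F) : V → MvPolynomial V F :=
  fun v => if r v < i + 1 then X v else C (p v)

lemma eval_frz [CommSemiring F] (r : V → ℕ) (i : ℕ) (p z : V → F) (f : MvPolynomial V F) :
    eval z (aeval (frz r i p) f) = eval (mix r (i + 1) p z) f := by
  induction f using MvPolynomial.induction_on with
  | C a => simp
  | add f g hf hg => simp only [map_add, hf, hg]
  | mul_X f v hf =>
    rw [map_mul, map_mul, map_mul, hf, aeval_X, eval_X]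
    by_cases h : r v < i + 1 <;> simp [frz, mix, h]

lemma pderiv_frz [CommSemiring F] (r : V → ℕ) (i : ℕ) (p : V → F) (w : V)
    (f : MvPolynomial V F) :
    pderiv w (aeval (frz r i p) f) =
      if r w < i + 1 then aeval (frz r i p) (pderiv w f) else 0 := by
  classical
  induction f using MvPolynomial.induction_on with
  | C a => simp
  | add f g hf hg => simp only [map_add, hf, hg]; split_ifs <;> simp
  | mul_X f v hf =>
    rw [map_mul, pderiv_mul, hf, aeval_X, pderiv_mul, map_add, map_mul, map_mul, aeval_X]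
    by_cases hv : v = w
    · subst hv
      by_cases h : r v < i + 1 <;> simp [frz, h]
    · have h1 : pderiv w (frz r i p v) = 0 := by
        unfold frz; split_ifs
        · exact pderiv_X_of_ne hv
        · exact pderiv_C
      rw [h1, pderiv_X_of_ne hv]
      split_ifs <;> simp

lemma totalDegree_frz [CommSemiring F] (r : V → ℕ) (i : ℕ) (p : V → F) (f : MvPolynomial V F) :
    (aeval (frz r i p) f).totalDegree ≤ f.totalDegree := by
  classical
  conv_lhs => rw [f.as_sum, map_sum]
  refine totalDegree_finsetSum_le fun d hd => ?_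
  rw [aeval_monomial, Finsupp.prod]
  refine (totalDegree_mul _ _).trans ?_
  rw [algebraMap_eq, totalDegree_C, zero_add]
  refine (totalDegree_finsetProd _ _).trans (le_trans ?_ (le_totalDegree hd))
  refine sum_le_sum fun v _ => (totalDegree_pow _ _).trans ?_
  have : (frz r i p v).totalDegree ≤ 1 := by
    unfold frz; split_ifs
    · exact (isHomogeneous_X F v).totalDegree_le
    · simp
  simpa using Nat.mul_le_mul_left (d v) this

lemma frz_top [CommSemiring F] {r : V → ℕ} {i : ℕ} (h : ∀ v, r v < i + 1) (p : V → F)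
    (f : MvPolynomial V F) : aeval (frz r i p) f = f := by
  have : frz r i p = X := funext fun v => by simp [frz, h v]
  rw [this, aeval_X_left_apply]

/-- Along a path, the frozen equations contain a family with invertible Jacobian whose size is the
sum of the ranks met. -/
lemma exists_jac [Fintype V] [Fintype J] [Field F] {r : V → ℕ} {T : J → MvPolynomial V F} (D : ℕ)
    (hind : ∀ i (ζ y : V → F), (∀ v, r v ≠ i → y v = ζ v) → lvlMat r T i y = lvlMat r T i ζ)
    (p z : V → F) :
    ∃ (Φ : (Σ i : Fin D, Fin (lvlMat r T i (mix r i p z)).rank) → MvPolynomial V F)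
      (e : (Σ i : Fin D, Fin (lvlMat r T i (mix r i p z)).rank) → V → F),
      (jac z Φ e).det ≠ 0 ∧
      ∀ k, ∃ c : J → F, Φ k = ∑ j, C (c j) * aeval (frz r k.1 p) (T j) := by
  classical
  choose B E hBE using fun i : Fin D => exists_dual (lvlMat r T i (mix r i p z))
  let Φ : (Σ i : Fin D, Fin (lvlMat r T i (mix r i p z)).rank) → MvPolynomial V F :=
    fun k => ∑ j, C (B k.1 k.2 j) * aeval (frz r k.1 p) (T j)
  let e : (Σ i : Fin D, Fin (lvlMat r T i (mix r i p z)).rank) → V → F :=
    fun k v => if h : r v = k.1 then E k.1 ⟨v, h⟩ k.2 else 0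
  refine ⟨Φ, e, ?_, fun k => ⟨_, rfl⟩⟩
  have hent : ∀ k k', jac z Φ e k k' = ∑ v : {v // r v = k'.1},
      (∑ j, B k.1 k.2 j * if k'.1.1 < k.1.1 + 1 then
        eval (mix r (k.1 + 1) p z) (pderiv v.1 (T j)) else 0) * E k'.1 v k'.2 := by
    intro k k'
    simp only [jac, of_apply, Algebra.algebraMap_self, RingHom.id_apply, aeval_eq_eval]
    rw [← sum_filter_add_sum_filter_not univ (fun v => r v = k'.1),
      sum_eq_zero (s := univ.filter fun v => ¬ r v = k'.1), add_zero,
      sum_subtype (p := fun v => r v = k'.1) _ (by simp)]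
    · refine sum_congr rfl fun v _ => ?_
      congr 1
      · simp only [Φ, map_sum, pderiv_C_mul, map_mul, eval_C, pderiv_frz, v.2]
        refine sum_congr rfl fun j _ => ?_
        split_ifs
        · rw [eval_frz]
        · simp
      · exact dif_pos v.2
    · intro v hv
      have : e k' v = 0 := dif_neg (mem_filter.mp hv).2
      rw [this, mul_zero]
  have hup : ∀ k k', k.1 < k'.1 → jac z Φ e k k' = 0 := by
    intro k k' h
    have : ¬ k'.1.1 < k.1.1 + 1 := by have := Fin.lt_def.mp h; omega
    simp [hent, this]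
  have hdiag : ∀ i s t, jac z Φ e ⟨i, s⟩ ⟨i, t⟩ = if s = t then 1 else 0 := by
    intro i s t
    have h1 := hind i (mix r i p z) (mix r (i + 1) p z) fun v hv => by
      have : r v < i + 1 ↔ r v < i := by omega
      simp [mix, this]
    rw [hent, ← one_apply, ← hBE i, mul_apply]
    refine sum_congr rfl fun v _ => ?_
    have h2 : ∀ j, lvlMat r T i (mix r i p z) j v =
        eval (mix r (i + 1) p z) (pderiv v.1 (T j)) := fun j => by rw [← h1]; rfl
    simp [mul_apply, h2]
  intro hdet
  obtain ⟨x, hx0, hx⟩ := Matrix.exists_mulVec_eq_zero_iff.mpr hdet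
  refine hx0 (funext fun k => ?_)
  obtain ⟨i, s⟩ := k
  induction i using WellFoundedLT.induction with
  | ind i ih =>
    have h := congrFun hx ⟨i, s⟩
    rw [mulVec, dotProduct, sum_eq_single ⟨i, s⟩, hdiag] at h
    · simpa using h
    · rintro ⟨i', t⟩ - hne
      rcases lt_trichotomy i' i with h1 | rfl | h1
      · rw [ih i' h1 t]; simp
      · rw [hdiag, if_neg fun h2 => hne (by rw [h2]), zero_mul]
      · rw [hup _ _ h1, zero_mul]
    · simp

variable [Fintype V] [DecidableEq V] [Fintype J] [Field F] [Fintype F] [DecidableEq F]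

lemma card_fib {r : V → ℕ} {T : J → MvPolynomial V F} {i : ℕ} {ζ : V → F}
    (hlin : ∀ y : V → F, (∀ v, r v ≠ i → y v = ζ v) → ∀ j,
      eval y (T j) = (lvlMat r T i ζ *ᵥ fun v => y v.1) j) :
    (fib r (univ.filter fun x => ∀ j, eval x (T j) = 0) i ζ).card *
      Fintype.card F ^ (lvlMat r T i ζ).rank = Fintype.card F ^ Fintype.card {v // r v = i} := by
  classical
  set A := lvlMat r T i ζ
  have h1 : (fib r (univ.filter fun x => ∀ j, eval x (T j) = 0) i ζ).card =
      Nat.card (LinearMap.ker A.mulVecLin) := by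
    rw [Nat.card_eq_fintype_card, Fintype.card_subtype]
    refine card_bij' (fun y _ v => y v.1) (fun y _ v => if h : r v = i then y ⟨v, h⟩ else ζ v)
      ?_ ?_ ?_ ?_
    · intro y hy
      obtain ⟨h1, h2⟩ := mem_fib.mp hy
      simp only [mem_filter, mem_univ, true_and, LinearMap.mem_ker, mulVecLin_apply] at h1 ⊢
      funext j
      rw [← hlin y h2 j, h1 j]; rfl
    · intro y hy
      simp only [mem_filter, mem_univ, true_and, LinearMap.mem_ker, mulVecLin_apply] at hy
      have h2 : ∀ v, r v ≠ i → (fun v => if h : r v = i then y ⟨v, h⟩ else ζ v) v = ζ v :=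
        fun v hv => dif_neg hv
      refine mem_fib.mpr ⟨mem_filter.mpr ⟨mem_univ _, fun j => ?_⟩, h2⟩
      rw [hlin _ h2 j]
      have h3 : (fun v : {v // r v = i} => if h : r v.1 = i then y ⟨v.1, h⟩ else ζ v.1) = y :=
        funext fun v => dif_pos v.2
      rw [h3, hy]; rfl
    · intro y hy
      funext v
      split_ifs with h
      · rfl
      · exact ((mem_fib.mp hy).2 v h).symm
    · intro y _
      funext v
      exact dif_pos v.2
  rw [h1, Module.natCard_eq_pow_finrank (K := F), Nat.card_eq_fintype_card, ← pow_add, add_comm,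
    Matrix.rank, LinearMap.finrank_range_add_finrank_ker, Module.finrank_fintype_fun_eq_card]

omit [Fintype J] [Field F] in
/-- A set of points each of whose level-`i` fibres is small is itself small. -/
lemma card_le_of_fib {r : V → ℕ} {Z B : Finset (V → F)} (hB : B ⊆ Z) {i c : ℕ}
    (h : ∀ ζ ∈ B, (fib r Z i ζ).card * c ≤ Fintype.card F ^ Fintype.card {v // r v = i}) :
    B.card * c ≤ Fintype.card F ^ Fintype.card V := by
  classical
  let π : (V → F) → {v // ¬ r v = i} → F := fun ζ v => ζ v.1
  rw [card_eq_sum_card_image π, sum_mul]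
  refine (sum_le_card_nsmul _ _ (Fintype.card F ^ Fintype.card {v // r v = i}) ?_).trans ?_
  · intro y hy
    obtain ⟨ζ, hζ, rfl⟩ := mem_image.mp hy
    refine le_trans (Nat.mul_le_mul_right c (card_le_card fun x hx => ?_)) (h ζ hζ)
    obtain ⟨h1, h2⟩ := mem_filter.mp hx
    exact mem_fib.mpr ⟨hB h1, fun v hv => congrFun h2 ⟨v, hv⟩⟩
  · rw [smul_eq_mul]
    refine (Nat.mul_le_mul_right _ (card_le_univ _)).trans (le_of_eq ?_)
    rw [Fintype.card_fun, ← pow_add, Fintype.card_subtype_compl, Nat.sub_add_cancel]
    exact Fintype.card_subtype_le _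

/-- The probability of a path is determined by the sum of the ranks met. -/
lemma pw_eq {r : V → ℕ} {T : J → MvPolynomial V F} {D : ℕ} (hr : ∀ v, r v < D)
    (hlin : ∀ i < D, ∀ ζ y : V → F, (∀ v, r v ≠ i → y v = ζ v) → ∀ j,
      eval y (T j) = (lvlMat r T i ζ *ᵥ fun v => y v.1) j) (p z : V → F) :
    pw r D (univ.filter fun x => ∀ j, eval x (T j) = 0) 0 p z =
      (Fintype.card F : ℝ) ^ (∑ i : Fin D, (lvlMat r T i (mix r i p z)).rank) /
        (Fintype.card F : ℝ) ^ Fintype.card V := by
  classical
  have hq : (0 : ℝ) < Fintype.card F := by exact_mod_cast Fintype.card_pos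
  have hn : Fintype.card V = ∑ i : Fin D, Fintype.card {v // r v = i} := by
    rw [← card_univ, card_eq_sum_card_fiberwise (f := fun v => (⟨r v, hr v⟩ : Fin D))
      (t := univ) (fun _ _ => mem_univ _)]
    refine sum_congr rfl fun i _ => ?_
    rw [Fintype.card_subtype]
    exact congrArg card (filter_congr fun v _ => Fin.ext_iff)
  rw [pw, ← range_eq_Ico, prod_range, hn, ← prod_pow_eq_pow_sum, ← prod_pow_eq_pow_sum,
    ← prod_div_distrib]
  refine prod_congr rfl fun i _ => ?_
  have h := congrArg (Nat.cast : ℕ → ℝ) (card_fib (hlin i i.2 (mix r i p z)))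
  push_cast at h
  rw [← h, div_mul_cancel_right₀ (by positivity)]

end Pool.Agent.Lib.PRank
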