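import Pool.Agent.Lib.PRank.Count
import Pool.Agent.Lib.PRank.WalkAlg

namespace Pool.Agent.Lib.PRank

open MvPolynomial Finset Matrix

/-- Rational points at which the zero set of `Φ` has local dimension less than `n - m`. -/
lemma card_low_dim {V κ F : Type} (K : Type) [Fintype V] [Field F] [Fintype F] [Field K]
    [Algebra F K] [Infinite K] (Φ : κ → MvPolynomial V F)
    {D : ℕ} (hD : 1 ≤ D) (hΦ : ∀ a, (Φ a).totalDegree ≤ D) (m : ℕ) (B : Finset (V → F))
    (hB : ∀ z ∈ B, ∀ a, eval z (Φ a) = 0)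
    (hdim : ∀ z ∈ B, ∀ P : Ideal (MvPolynomial V K), P.IsPrime →
      (∀ a, map (algebraMap F K) (Φ a) ∈ P) → P ≤ pt (fun v => algebraMap F K (z v)) →
      ¬ Indep K P (Fintype.card V - m)) :
    B.card * Fintype.card F ^ (m + 1) ≤ D ^ (m + 1) * Fintype.card F ^ Fintype.card V := by
  classical
  have hev : ∀ z ∈ B, ∀ a, eval (fun v => algebraMap F K (z v)) (map (algebraMap F K) (Φ a)) = 0 := by
    intro z hz a
    have h := eval₂_comp (algebraMap F K) z (Φ a)
    rw [hB z hz a, map_zero] at h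
    rw [eval_map]
    exact h.symm
  rcases B.eq_empty_or_nonempty with rfl | ⟨z, hz⟩
  · simp
  have hm : m + 1 ≤ Fintype.card V := by
    by_contra h
    refine hdim z hz _ inferInstance (fun a => mem_pt.mpr (hev z hz a)) le_rfl ?_
    rw [show Fintype.card V - m = 0 by omega]
    exact Indep.zero _
  have hinj : Function.Injective fun (z : V → F) (v : V) => algebraMap F K (z v) :=
    fun x y h => funext fun v => (algebraMap F K).injective (congrFun h v)
  have hdeg : ∀ a, (map (algebraMap F K) (Φ a)).totalDegree ≤ D := fun a =>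
    le_trans (Finset.sup_mono (support_map_subset (algebraMap F K) (Φ a))) (hΦ a)
  have h := card_le_of_codim (fun a => map (algebraMap F K) (Φ a)) D hD
    hdeg (univ.image (algebraMap F K)) (m + 1)
    (Fintype.card V - (m + 1)) (by omega) (B.image fun z v => algebraMap F K (z v))
    (by
      intro y hy v
      obtain ⟨z, -, rfl⟩ := mem_image.mp hy
      exact mem_image_of_mem _ (mem_univ _))
    (by
      intro y hy a
      obtain ⟨z, hz, rfl⟩ := mem_image.mp hy
      exact hev z hz a)
    (by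
      intro y hy P hP h1 h2
      obtain ⟨z, hz, rfl⟩ := mem_image.mp hy
      rw [show Fintype.card V - (m + 1) + 1 = Fintype.card V - m by omega]
      exact hdim z hz P hP h1 h2)
  rw [card_image_of_injective _ hinj, card_image_of_injective _ (algebraMap F K).injective,
    card_univ] at h
  refine (Nat.mul_le_mul_right _ h).trans (le_of_eq ?_)
  rw [mul_assoc, ← pow_add, Nat.sub_add_cancel hm]

lemma walk_arith {D M a q : ℕ} (hD : 1 ≤ D) (hM : 1 ≤ M) (hq : 4 * (2 * D) ^ (D * M + 1) ≤ q) :
    4 * ((D * a + 1) * D ^ (D * a + a / M + 1)) ≤ q ^ (a / M + 1) := by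
  have h1 : a < M * (a / M + 1) := Nat.lt_mul_div_succ a hM
  generalize a / M = b at *
  have h2 : D * a + b + 1 ≤ (D * M + 1) * (b + 1) := by
    have := Nat.mul_le_mul_left D h1.le
    nlinarith
  have h3 : D * a + 1 ≤ 2 ^ (D * a + b + 1) :=
    (Nat.lt_two_pow_self (n := D * a + 1)).le.trans (Nat.pow_le_pow_right (by norm_num) (by omega))
  calc 4 * ((D * a + 1) * D ^ (D * a + b + 1))
      ≤ 4 ^ (b + 1) * (2 * D) ^ (D * a + b + 1) := by
        rw [mul_pow]
        refine Nat.mul_le_mul ?_ (Nat.mul_le_mul_right _ h3)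
        exact Nat.le_self_pow (Nat.succ_ne_zero b) 4
    _ ≤ 4 ^ (b + 1) * (2 * D) ^ ((D * M + 1) * (b + 1)) :=
        Nat.mul_le_mul_left _ (Nat.pow_le_pow_right (by omega) h2)
    _ = (4 * (2 * D) ^ (D * M + 1)) ^ (b + 1) := by rw [mul_pow 4, ← pow_mul]
    _ ≤ q ^ (b + 1) := Nat.pow_le_pow_left hq _

/-- A typical point of the random walk on the zero set. -/
theorem exists_good_point {ι V J F : Type} [Fintype ι] [DecidableEq ι] [Nonempty ι] [Fintype V]
    [Fintype J] [Field F] [Fintype F] (sl : V → ι) (M : ℕ) (hM : 1 ≤ M)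
    (hq : 4 * (2 * Fintype.card ι) ^ (Fintype.card ι * M + 1) ≤ Fintype.card F)
    (T : J → MvPolynomial V F) (hT : ∀ j, IsML sl Finset.univ (T j)) (a : ℕ) (hA : ARle T a) :
    ∃ (z : V → F) (κ : Type) (_ : Fintype κ) (_ : DecidableEq κ) (Φ : κ → MvPolynomial V F)
      (e : κ → V → F) (P : Ideal (MvPolynomial V (AlgebraicClosure F))),
      Fintype.card κ ≤ Fintype.card ι * a ∧ (jac z Φ e).det ≠ 0 ∧ P.IsPrime ∧
      P ≤ pt (fun v => algebraMap F (AlgebraicClosure F) (z v)) ∧
      (∀ i, map (algebraMap F (AlgebraicClosure F)) (Φ i) ∈ P) ∧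
      (∀ j, map (algebraMap F (AlgebraicClosure F)) (T j) ∈ P) ∧
      Indep (AlgebraicClosure F) P (Fintype.card V - (Fintype.card κ + a / M)) := by
  classical
  set D := Fintype.card ι with hDdef
  set q := Fintype.card F with hqdef
  have hD : 1 ≤ D := Fintype.card_pos
  let σ : ι ≃ Fin D := Fintype.equivFin ι
  let r : V → ℕ := fun v => (σ (sl v)).1
  have hr : ∀ v, r v < D := fun v => (σ (sl v)).2
  have hind : ∀ i (ζ y : V → F), (∀ v, r v ≠ i → y v = ζ v) →
      lvlMat r T i y = lvlMat r T i ζ := by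
    intro i ζ y h
    ext j v
    refine ((hT j).pderiv (mem_univ (sl v.1))).eval_congr fun w hw => h w fun h1 => ?_
    exact (mem_erase.mp hw).1 (σ.injective (Fin.ext (h1.trans v.2.symm)))
  have hlin : ∀ i < D, ∀ ζ y : V → F, (∀ v, r v ≠ i → y v = ζ v) → ∀ j,
      eval y (T j) = (lvlMat r T i ζ *ᵥ fun v => y v.1) j := by
    intro i hi ζ y h j
    have h1 : ∀ v, sl v = σ.symm ⟨i, hi⟩ ↔ r v = i := fun v => by
      rw [Equiv.eq_symm_apply, Fin.ext_iff]
    have h2 : upd sl (σ.symm ⟨i, hi⟩) ζ y = y := funext fun v => by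
      unfold upd; split_ifs with hv
      · rfl
      · exact (h v fun h3 => hv ((h1 v).mpr h3)).symm
    conv_lhs => rw [← h2]
    rw [(hT j).eval_upd (mem_univ _), sum_subtype (p := fun v => r v = i) _ (by simp [h1])]
    exact sum_congr rfl fun v _ => mul_comm _ _
  set Z : Finset (V → F) := univ.filter fun x => ∀ j, eval x (T j) = 0 with hZdef
  have hq0 : 0 < q := Fintype.card_pos
  have hq0' : (0 : ℝ) < q := by exact_mod_cast hq0
  have hA' : q ^ Fintype.card V ≤ Z.card * q ^ a := by
    have h := hA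
    unfold ARle nz at h
    rwa [Nat.card_eq_fintype_card, Nat.card_eq_fintype_card, Nat.card_eq_fintype_card,
      Fintype.card_subtype] at h
  have hZ : Z.Nonempty := by
    rw [← card_pos]
    exact Nat.pos_of_mul_pos_right ((pow_pos hq0 _).trans_le hA')
  obtain ⟨p, -, hp⟩ := exists_start (good := fun i ζ => (lvlMat r T i ζ).rank ≤ a) hr hZ
    (q : ℝ)⁻¹ (by
      intro k hk
      have h := card_le_of_fib (r := r) (i := k) (c := q ^ (a + 1))
        (filter_subset (fun ζ => ¬ (lvlMat r T k ζ).rank ≤ a) Z) (by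
          intro ζ hζ
          rw [← card_fib (hlin k hk ζ)]
          exact Nat.mul_le_mul_left _
            (Nat.pow_le_pow_right hq0 (not_le.mp (mem_filter.mp hζ).2)))
      have h2 := h.trans hA'
      rw [pow_succ', ← mul_assoc] at h2
      have h3 := Nat.le_of_mul_le_mul_right h2 (pow_pos hq0 a)
      rw [inv_mul_eq_div, le_div_iff₀ hq0']
      exact_mod_cast h3)
  set G := paths r D Z (fun i ζ => (lvlMat r T i ζ).rank ≤ a) 0 p
  let R : (V → F) → ℕ := fun z => ∑ i : Fin D, (lvlMat r T i (mix r i p z)).rank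
  let Ψ : Fin D × J → MvPolynomial V F := fun ij => aeval (frz r ij.1 p) (T ij.2)
  have hR : ∀ z ∈ G, R z ≤ D * a := by
    intro z hz
    have := sum_le_card_nsmul univ (fun i : Fin D => (lvlMat r T i (mix r i p z)).rank) a
      fun i _ => ((mem_paths.mp hz).2 i (Nat.zero_le _) i.2).2
    simpa using this
  have hex : ∃ z ∈ G, ∃ P : Ideal (MvPolynomial V (AlgebraicClosure F)), P.IsPrime ∧
      (∀ ij, map (algebraMap F (AlgebraicClosure F)) (Ψ ij) ∈ P) ∧
      P ≤ pt (fun v => algebraMap F (AlgebraicClosure F) (z v)) ∧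
      Indep (AlgebraicClosure F) P (Fintype.card V - (R z + a / M)) := by
    by_contra hno
    have hcnt : ∀ m ∈ range (D * a + 1), ∑ z ∈ G with R z = m, pw r D Z 0 p z ≤
        (D : ℝ) ^ (D * a + a / M + 1) / q ^ (a / M + 1) := by
      intro m hm
      have h1 := card_low_dim (AlgebraicClosure F) Ψ hD
        (fun ij => (totalDegree_frz _ _ _ _).trans (hT ij.2).totalDegree_le) (m + a / M)
        (G.filter fun z => R z = m)
        (fun z hz ij => by
          rw [eval_frz]
          exact (mem_filter.mp ((mem_paths.mp (mem_filter.mp hz).1).2 ij.1 (Nat.zero_le _)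
            ij.1.2).1).2 ij.2)
        (fun z hz P hP h1 h2 h3 => hno ⟨z, (mem_filter.mp hz).1, P, hP, h1, h2, by
          rwa [(mem_filter.mp hz).2]⟩)
      have h2 : ∑ z ∈ G with R z = m, pw r D Z 0 p z =
          (G.filter fun z => R z = m).card * ((q : ℝ) ^ m / q ^ Fintype.card V) := by
        rw [← nsmul_eq_mul, ← sum_const]
        refine sum_congr rfl fun z hz => ?_
        rw [pw_eq hr hlin, ← (mem_filter.mp hz).2]
      have h3 : D ^ (m + a / M + 1) ≤ D ^ (D * a + a / M + 1) :=
        Nat.pow_le_pow_right hD (by have := mem_range.mp hm; omega)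
      have h4 := h1.trans (Nat.mul_le_mul_right _ h3)
      rw [h2, ← mul_div_assoc, div_le_div_iff₀ (by positivity) (by positivity), mul_assoc,
        ← pow_add, ← add_assoc]
      exact_mod_cast h4
    have h1 : ∑ z ∈ G, pw r D Z 0 p z ≤ 1 / 4 := by
      rw [← sum_fiberwise_of_maps_to (g := R) (t := range (D * a + 1))
        fun z hz => mem_range.mpr (Nat.lt_succ_of_le (hR z hz))]
      refine (sum_le_card_nsmul _ _ _ hcnt).trans ?_
      rw [card_range, nsmul_eq_mul, ← mul_div_assoc, div_le_div_iff₀ (by positivity) (by norm_num),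
        one_mul, mul_comm]
      exact_mod_cast walk_arith hD hM hq
    have h2 : 8 * D ≤ q := by
      refine le_trans ?_ hq
      have := Nat.le_self_pow (n := D * M + 1) (by omega) (2 * D)
      omega
    have h3 : (D : ℝ) * (q : ℝ)⁻¹ ≤ 1 / 8 := by
      rw [← div_eq_mul_inv, div_le_div_iff₀ hq0' (by norm_num), one_mul, mul_comm]
      exact_mod_cast h2
    linarith
  obtain ⟨z, hz, P, hP, h1, h2, h3⟩ := hex
  obtain ⟨Φ, e, hdet, hΦ⟩ := exists_jac D hind p z
  have hc : Fintype.card (Σ i : Fin D, Fin (lvlMat r T i (mix r i p z)).rank) = R z := by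
    simp [R]
  refine ⟨z, _, inferInstance, inferInstance, Φ, e, P, hc ▸ hR z hz, hdet, hP, h2, fun k => ?_,
    fun j => ?_, hc ▸ h3⟩
  · obtain ⟨c, hc⟩ := hΦ k
    rw [hc, map_sum]
    exact P.sum_mem fun j _ => by
      rw [map_mul]; exact P.mul_mem_left _ (h1 (k.1, j))
  · have h4 := h1 (⟨D - 1, by omega⟩, j)
    rwa [show Ψ (⟨D - 1, by omega⟩, j) = T j from
      frz_top (fun v => by have := hr v; simp only; omega) p _] at h4

end Pool.Agent.Lib.PRank
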