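import Pool.Agent.Lib.PRank.Peel
import Pool.Agent.Lib.PRank.Free
import Pool.Agent.Lib.PRank.RS
import Pool.Agent.Lib.PRank.Lattice
import Pool.Agent.Lib.PRank.Ext
import Pool.Agent.Lib.PRank.Walk

namespace Pool.Agent.Lib.PRank

open MvPolynomial

/-- Analytic rank is bounded by partition rank over any algebraic extension. -/
theorem arle_of_gen_ext {ι V J F K : Type*} [Fintype ι] [DecidableEq ι] [Nonempty ι] [Fintype V]
    [Finite J] {sl : V → ι} [Field F] [Finite F] [Field K] [Algebra F K] [Algebra.IsAlgebraic F K]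
    {T : J → MvPolynomial V F} (hT : ∀ j, IsML sl Finset.univ (T j)) {s : ℕ}
    (h : Gen sl s (fun j => map (algebraMap F K) (T j))) :
    ARle T (2 ^ Fintype.card ι * (Fintype.card ι * s)) := by
  obtain ⟨L, hL, h⟩ := exists_finite_of_gen h
  let pb := Field.powerBasisOfFiniteOfSeparable F L
  have hD : 0 < Fintype.card ι := Fintype.card_pos
  have hl : 0 < pb.dim := pb.dim_pos
  obtain ⟨m, hm1, hm2⟩ : ∃ m, Fintype.card ι * m < pb.dim ∧ pb.dim ≤ Fintype.card ι * (m + 1) := by
    refine ⟨(pb.dim - 1) / Fintype.card ι, ?_, ?_⟩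
    · have := Nat.mul_div_le (pb.dim - 1) (Fintype.card ι)
      omega
    · have := Nat.lt_mul_div_succ (pb.dim - 1) hD
      omega
  have : Infinite (RatFunc F) :=
    Infinite.of_injective _ (RatFunc.algebraMap_injective F)
  have h1 := gen_dsum_of_ext (E := RatFunc F) pb (m := m + 1)
    (fun i => Infinite.natEmbedding (RatFunc F) i)
    ((Infinite.natEmbedding _).injective.comp Fin.val_injective) (by simpa using hm1) T hT h
  have h2 := gen_of_gen_dsum (by omega) (fun j => (hT j).map _) h1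
  refine arle_of_gen_ratFunc T (h2.mono (Nat.mul_le_mul_left _ ?_))
  refine Nat.div_le_of_le_mul ?_
  calc pb.dim * s ≤ Fintype.card ι * (m + 1) * s := Nat.mul_le_mul_right _ hm2
    _ = _ := by ring

/-- The main induction, over large finite fields. -/
theorem gen_of_arle_large {ι V J F : Type} [Fintype ι] [DecidableEq ι] [Nonempty ι] [Fintype V]
    [Fintype J] [Field F] [Fintype F] (sl : V → ι) {D : ℕ} (hD : Fintype.card ι = D)
    (hq : 4 * (2 * D) ^ (D * (2 * (8 ^ D * D)) + 1) ≤ Fintype.card F) (a : ℕ) :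
    ∀ T : J → MvPolynomial V F, (∀ j, IsML sl Finset.univ (T j)) → ARle T a →
      Gen sl (2 * (2 ^ D * D) * a) T := by
  have hD0 : 0 < D := hD ▸ Fintype.card_pos
  induction a using Nat.strong_induction_on with
  | _ a ih =>
  intro T hT hA
  obtain ⟨z, κ, _, _, Φ, e, P, hκ, hdet, hP, hPz, hΦ, hTP, hind⟩ :=
    exists_good_point sl (2 * (8 ^ D * D)) (by have : 0 < 8 ^ D * D := by positivity
                                               omega) (by rw [hD]; exact hq) T hT a hA
  obtain ⟨T', hT', h1, h2⟩ := peel z Φ e hdet P hPz hΦ T hT hTP hind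
  rw [hD] at h1 h2 hκ
  have h3 : Gen sl (2 ^ D * D * a) T' := by
    rcases Nat.eq_zero_or_pos a with rfl | ha
    · refine Gen.zero fun j => ?_
      apply map_injective _ (algebraMap F (AlgebraicClosure F)).injective
      rw [map_zero]
      exact Gen.eq_zero (by simpa using h2) j
    · have h4 := arle_of_gen_ext hT' h2
      rw [hD] at h4
      have h5 : 2 * (2 ^ D * (D * (2 ^ D * (2 ^ D * (a / (2 * (8 ^ D * D))))))) ≤ a := by
        have h6 := Nat.mul_div_le a (2 * (8 ^ D * D))
        have h7 : 8 ^ D = 2 ^ D * 2 ^ D * 2 ^ D := by rw [← mul_pow, ← mul_pow]; norm_num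
        refine le_trans (le_of_eq ?_) h6
        generalize a / (2 * (8 ^ D * D)) = b
        rw [h7]; ring
      refine (ih _ (by omega) T' hT' h4).mono ?_
      generalize (2 ^ D * (D * (2 ^ D * (2 ^ D * (a / (2 * (8 ^ D * D))))))) = a' at h5
      calc 2 * (2 ^ D * D) * a' = 2 ^ D * D * (2 * a') := by ring
        _ ≤ _ := Nat.mul_le_mul_left _ h5
  have h8 := h1.add h3
  simp only [sub_add_cancel] at h8
  refine h8.mono ?_
  calc 2 ^ D * Fintype.card κ + 2 ^ D * D * a ≤ 2 ^ D * (D * a) + 2 ^ D * D * a := by gcongr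
    _ = _ := by ring

/-- Partition rank is at most linear in analytic rank, uniformly over all finite fields. -/
theorem gen_of_arle (D : ℕ) : ∃ C : ℕ, 1 ≤ C ∧ ∀ (ι V J F : Type) [Fintype ι] [DecidableEq ι]
    [Nonempty ι] [Fintype V] [Fintype J] [Field F] [Finite F] (sl : V → ι),
    Fintype.card ι = D → ∀ T : J → MvPolynomial V F, (∀ j, IsML sl Finset.univ (T j)) →
    ∀ a : ℕ, ARle T a → Gen sl (C * a) T := by
  obtain ⟨Q, hQ⟩ : ∃ Q, Q = 4 * (2 * D) ^ (D * (2 * (8 ^ D * D)) + 1) := ⟨_, rfl⟩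
  refine ⟨(Q + 1) * (2 * (2 ^ D * D) * (Q + 1) ^ D) + 1, by omega, ?_⟩
  intro ι V J F _ _ _ _ _ _ _ sl hD T hT a hA
  obtain ⟨p, hp⟩ := CharP.exists F
  have : Fact p.Prime := ⟨CharP.char_is_prime F p⟩
  let K := FiniteField.Extension F p (Q + 1)
  have := Fintype.ofFinite K
  have h1 := arle_ext (K := K) T hT hA
  have hq : Q ≤ Fintype.card K := by
    rw [Fintype.card_eq_nat_card, FiniteField.natCard_extension]
    have h2 : 2 ≤ Nat.card F := Finite.one_lt_card
    exact (Nat.le_succ Q).trans ((Nat.lt_two_pow_self).le.trans (Nat.pow_le_pow_left h2 _))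
  have h3 := gen_of_ext T (gen_of_arle_large sl hD (hQ ▸ hq) _ _ (fun j => (hT j).map _) h1)
  rw [FiniteField.finrank_extension, hD] at h3
  refine h3.mono ?_
  nlinarith [Nat.zero_le a]

end Pool.Agent.Lib.PRank
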