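import Pool.Agent.Lib.PRank.PeelAux

namespace Pool.Agent.Lib.PRank

open MvPolynomial

variable {ι V J κ : Type*} [Fintype ι] [DecidableEq ι] [Fintype V] [Fintype κ] [DecidableEq κ]
  {sl : V → ι}

omit [Fintype V] [DecidableEq κ] in
lemma aeval_mv_sub_mem {F B : Type*} [CommRing F] [CommRing B] [Algebra F B] (𝔷 : Ideal B)
    (y : V → B) (ε : κ → V → F) {γ γ' : κ → B} (h : ∀ i, γ i - γ' i ∈ 𝔷) (f : MvPolynomial V F) :
    aeval (mv y ε γ) f - aeval (mv y ε γ') f ∈ 𝔷 := by
  refine aeval_sub_mem 𝔷 (fun v => ?_) f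
  have : mv y ε γ v - mv y ε γ' v = -∑ i, algebraMap F B (ε i v) * (γ i - γ' i) := by
    simp only [mv, mul_sub, Finset.sum_sub_distrib]; ring
  rw [this]
  exact neg_mem (Ideal.sum_mem _ fun i _ => Ideal.mul_mem_left _ _ (h i))

theorem peel_core {F k A Ω : Type*} [Field F] [Field k] [IsAlgClosed k] [Algebra F k] [CommRing A]
    [Algebra F A] [Algebra k A] [IsScalarTower F k A] [Field Ω] [Algebra F Ω] [Algebra k Ω]
    [IsScalarTower F k Ω] [Nonempty ι] [Finite J] (π : A →ₐ[k] k) (φ : A →ₐ[k] Ω)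
    (hφ : ∀ r, π r = 1 → φ r ≠ 0) (ξ : V → A) (z : V → F)
    (hz : ∀ v, π (ξ v) = algebraMap F k (z v)) (Φ : κ → MvPolynomial V F) (ε : κ → V → F)
    (c : A) (hc : c * (jac ξ Φ ε).det = 1) (hΦ : ∀ i, aeval ξ (Φ i) = 0)
    (T : J → MvPolynomial V F) (hT : ∀ j, IsML sl Finset.univ (T j))
    (hT0 : ∀ j, aeval ξ (T j) = 0)
    (hadj : IntermediateField.adjoin k (Set.range fun v => φ (ξ v)) = ⊤) {e b : ℕ}
    {y : Fin e → Ω} (hy : AlgebraicIndependent k y)
    (hb : Fintype.card V ≤ e + Fintype.card κ + b) :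
    ∃ T' : J → MvPolynomial V F, (∀ j, IsML sl Finset.univ (T' j)) ∧
      Gen sl (2 ^ Fintype.card ι * Fintype.card κ) (fun j => T j - T' j) ∧
      Gen sl (2 ^ Fintype.card ι * (2 ^ Fintype.card ι * b))
        (fun j => map (algebraMap F k) (T' j)) := by
  classical
  let π' : A →ₐ[F] k := π.restrictScalars F
  let φ' : A →ₐ[F] Ω := φ.restrictScalars F
  let a : F →ₐ[F] k := Algebra.ofId F k
  have hπξ : (fun v => π' (ξ v)) = fun v => a (z v) := funext hz
  have hck : π c * (jac (fun v => a (z v)) Φ ε).det = 1 := by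
    rw [← hπξ, ← algHom_jac_det]
    change π c * π _ = 1
    rw [← map_mul, hc, map_one]
  have hcΩ : φ c * (jac (fun v => φ' (ξ v)) Φ ε).det = 1 := by
    rw [← algHom_jac_det]
    change φ c * φ _ = 1
    rw [← map_mul, hc, map_one]
  have hdet : (jac z Φ ε).det ≠ 0 := by
    intro h
    rw [← algHom_jac_det, h, map_zero, mul_zero] at hck
    exact zero_ne_one hck
  have hΦz : ∀ i, aeval z (Φ i) = 0 := by
    intro i
    apply a.injective
    change a _ = a _
    rw [map_zero, ← AlgHom.comp_apply, comp_aeval, ← hπξ, ← comp_aeval, AlgHom.comp_apply, hΦ,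
      map_zero]
  obtain ⟨γ, hγ, hγΦ⟩ := exists_implicit (idealOfVars V F) (sh z) Φ ε
    (fun i => aeval_sh_mem (hΦz i)) _ (jac_sh_mem (inv_mul_cancel₀ hdet)) (Fintype.card ι)
  obtain ⟨γA, hγA, hγAΦ⟩ := exists_implicit (idealOfVars V A) (sh ξ) Φ ε
    (fun i => aeval_sh_mem (hΦ i)) _ (jac_sh_mem hc) (Fintype.card ι)
  refine ⟨fun j => top sl (aeval (mv (sh z) ε γ) (T j)), fun j => isML_top _, ?_, ?_⟩
  · have h1 := gen_top (sl := sl) γ hγ
      (fun j => aeval (sh z) (T j) - aeval (mv (sh z) ε γ) (T j)) fun j => by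
        refine Ideal.mem_sup_left ?_
        rw [← neg_sub]
        exact neg_mem (aeval_sub_mem _
          (mv_sub_mem _ _ _ fun i => Ideal.subset_span (Set.mem_range_self i)) _)
    have h2 : ∀ j, top sl (aeval (sh z) (T j)) = T j := fun j => by
      have := top_shift (hT j) z
      rwa [Algebra.algebraMap_self, map_id] at this
    simpa only [map_sub, h2] using h1
  · let Tt : J → MvPolynomial V A := fun j => top sl (aeval (mv (sh ξ) ε γA) (T j))
    have hπT : ∀ j, map (π : A →+* k) (Tt j) =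
        map (algebraMap F k) (top sl (aeval (mv (sh z) ε γ) (T j))) := by
      intro j
      have h1 := implicit_unique (idealOfVars V k) (idealOfVars V k ^ (Fintype.card ι + 1)) le_rfl
        (sh fun v => a (z v)) Φ ε _ (jac_sh_mem hck)
        (γ := fun i => map (π' : A →+* k) (γA i)) (γ' := fun i => map (a : F →+* k) (γ i))
        (fun i => map_mem_idealOfVars _ (hγA i)) (fun i => map_mem_idealOfVars _ (hγ i))
        (fun i => by
          rw [← hπξ, ← map_aeval_mv_sh]; exact map_mem_pow_idealOfVars _ (hγAΦ i))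
        (fun i => by
          rw [← map_aeval_mv_sh]; exact map_mem_pow_idealOfVars _ (hγΦ i))
      have h2 := top_eq_zero_of_mem_pow (sl := sl)
        (aeval_mv_sub_mem _ (sh fun v => a (z v)) ε h1 (T j))
      rw [map_sub, sub_eq_zero, ← map_aeval_mv_sh a, ← hπξ, ← map_aeval_mv_sh π', top_map,
        top_map] at h2
      exact h2
    obtain ⟨ψ₀, ψ₁, h₀, h₁, hf⟩ := exists_germ_mod (F := F) (k := k) (fun v => φ' (ξ v)) hadj hy
      Φ ε (fun i => by rw [← comp_aeval, AlgHom.comp_apply, hΦ, map_zero])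
      (fun h => by rw [h, mul_zero] at hcΩ; exact zero_ne_one hcΩ) hb (Fintype.card ι)
    have h3 := implicit_unique (idealOfVars V Ω)
      (Ideal.span (Set.range ψ₁) ⊔ idealOfVars V Ω ^ (Fintype.card ι + 1)) le_sup_right
      (sh fun v => φ' (ξ v)) Φ ε _ (jac_sh_mem hcΩ)
      (γ := fun i => map (φ' : A →+* Ω) (γA i)) (γ' := ψ₀)
      (fun i => map_mem_idealOfVars _ (hγA i)) h₀
      (fun i => by
        rw [← map_aeval_mv_sh]
        exact Ideal.mem_sup_right (map_mem_pow_idealOfVars _ (hγAΦ i)))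
      (fun i => hf _ (by rw [← comp_aeval, AlgHom.comp_apply, hΦ, map_zero]))
    have h4 := gen_top (sl := sl) ψ₁ h₁
      (fun j => map (φ' : A →+* Ω) (aeval (mv (sh ξ) ε γA) (T j))) fun j => by
        have h5 := add_mem (aeval_mv_sub_mem _ (sh fun v => φ' (ξ v)) ε h3 (T j))
          (hf (T j) (by rw [← comp_aeval, AlgHom.comp_apply, hT0, map_zero]))
        rw [sub_add_cancel, ← map_aeval_mv_sh] at h5
        exact h5
    simp only [top_map, Fintype.card_fin] at h4
    obtain ⟨G, hG, hML, hmem⟩ := h4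
    obtain ⟨P, hP, hPT, hPi⟩ := exists_prime_of_lift π (φ : A →+* Ω) hφ Tt
      (D := (Finset.univ : Finset ι).card) (by simp) (fun j => (isML_top _).isHomogeneous) G hG
      (fun g hg => by
        obtain ⟨S, hS, h⟩ := hML g hg
        exact h.mem_idealOfVars hS) hmem
    exact gen_of_prime (fun j => (isML_top _).map _) P (fun j => hπT j ▸ hPT j) hPi

theorem peel_dom {F k R Ω : Type*} [Field F] [Field k] [IsAlgClosed k] [Algebra F k] [CommRing R]
    [Algebra F R] [Algebra k R] [IsScalarTower F k R] [Field Ω] [Algebra F Ω] [Algebra k Ω]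
    [IsScalarTower F k Ω] [Nonempty ι] [Finite J] (π₀ : R →ₐ[k] k) (φ₀ : R →ₐ[k] Ω)
    (hφ₀ : Function.Injective φ₀) (ξ₀ : V → R) (z : V → F)
    (hz : ∀ v, π₀ (ξ₀ v) = algebraMap F k (z v)) (Φ : κ → MvPolynomial V F) (ε : κ → V → F)
    (hdet : (jac z Φ ε).det ≠ 0) (hΦ : ∀ i, aeval ξ₀ (Φ i) = 0)
    (T : J → MvPolynomial V F) (hT : ∀ j, IsML sl Finset.univ (T j))
    (hT0 : ∀ j, aeval ξ₀ (T j) = 0)
    (hadj : IntermediateField.adjoin k (Set.range fun v => φ₀ (ξ₀ v)) = ⊤) {e b : ℕ}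
    {y : Fin e → Ω} (hy : AlgebraicIndependent k y)
    (hb : Fintype.card V ≤ e + Fintype.card κ + b) :
    ∃ T' : J → MvPolynomial V F, (∀ j, IsML sl Finset.univ (T' j)) ∧
      Gen sl (2 ^ Fintype.card ι * Fintype.card κ) (fun j => T j - T' j) ∧
      Gen sl (2 ^ Fintype.card ι * (2 ^ Fintype.card ι * b))
        (fun j => map (algebraMap F k) (T' j)) := by
  let M : Submonoid R := (nonZeroDivisors k).comap π₀
  have hM : ∀ r : R, r ∈ M ↔ π₀ r ≠ 0 := fun r => mem_nonZeroDivisors_iff_ne_zero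
  let A := Localization M
  let π : A →ₐ[k] k := IsLocalization.liftAlgHom (M := M) (S := A) (f := π₀)
    fun r => ((hM r).mp r.2).isUnit
  have hne : ∀ r : M, φ₀ r ≠ 0 := by
    intro r h
    have h1 : (r : R) = 0 := hφ₀ (by rw [h, map_zero])
    exact (hM r).mp r.2 (by rw [h1, map_zero])
  let φ : A →ₐ[k] Ω := IsLocalization.liftAlgHom (M := M) (S := A) (f := φ₀)
    fun r => (hne r).isUnit
  have hπ : ∀ r : R, π (algebraMap R A r) = π₀ r := fun r => by simp [π]
  have hφ : ∀ r : R, φ (algebraMap R A r) = φ₀ r := fun r => by simp [φ]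
  let g : R →ₐ[F] A := IsScalarTower.toAlgHom F R A
  have hξ₀ : ∀ f : MvPolynomial V F, aeval ξ₀ f = 0 → aeval (fun v => g (ξ₀ v)) f = 0 := by
    intro f hf
    rw [← comp_aeval, AlgHom.comp_apply, hf, map_zero]
  have hd : (jac ξ₀ Φ ε).det ∈ M := by
    rw [hM]
    have h1 := algHom_jac_det (π₀.restrictScalars F) ξ₀ Φ ε
    have h2 := algHom_jac_det (Algebra.ofId F k) z Φ ε
    simp only [AlgHom.restrictScalars_apply, hz, Algebra.ofId_apply] at h1 h2
    rw [h1, ← h2]
    simpa using hdet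
  obtain ⟨c, hc⟩ := (IsLocalization.map_units A ⟨_, hd⟩).exists_left_inv
  refine peel_core π φ (fun r hr h0 => ?_) (fun v => g (ξ₀ v)) z (fun v => ?_) Φ ε c ?_
    (fun i => hξ₀ _ (hΦ i)) T hT (fun j => hξ₀ _ (hT0 j)) ?_ hy hb
  · obtain ⟨⟨r, s⟩, h⟩ := IsLocalization.surj M r
    have h1 := congrArg φ h
    have h2 := congrArg π h
    rw [map_mul, h0, zero_mul, hφ] at h1
    rw [map_mul, hr, one_mul, hπ, hπ] at h2
    exact hne ⟨r, (hM r).mpr (h2 ▸ (hM _).mp s.2)⟩ h1.symm
  · exact (hπ _).trans (hz v)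
  · rw [← algHom_jac_det]; exact hc
  · have : (fun v => φ (g (ξ₀ v))) = fun v => φ₀ (ξ₀ v) := funext fun v => hφ _
    rw [this, hadj]

/-- Peeling at a point lying on a large component. -/
theorem peel {F k : Type*} [Field F] [Field k] [IsAlgClosed k] [Algebra F k] [Nonempty ι]
    [Finite J] (z : V → F) (Φ : κ → MvPolynomial V F) (ε : κ → V → F)
    (hdet : (jac z Φ ε).det ≠ 0) (P : Ideal (MvPolynomial V k)) [P.IsPrime]
    (hPz : P ≤ pt (fun v => algebraMap F k (z v))) (hΦ : ∀ i, map (algebraMap F k) (Φ i) ∈ P)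
    (T : J → MvPolynomial V F) (hT : ∀ j, IsML sl Finset.univ (T j))
    (hTP : ∀ j, map (algebraMap F k) (T j) ∈ P) {b : ℕ}
    (hP : Indep k P (Fintype.card V - (Fintype.card κ + b))) :
    ∃ T' : J → MvPolynomial V F, (∀ j, IsML sl Finset.univ (T' j)) ∧
      Gen sl (2 ^ Fintype.card ι * Fintype.card κ) (fun j => T j - T' j) ∧
      Gen sl (2 ^ Fintype.card ι * (2 ^ Fintype.card ι * b))
        (fun j => map (algebraMap F k) (T' j)) := by
  obtain ⟨y, hy⟩ := hP.exists_gp
  have h0 : ∀ f : MvPolynomial V F, map (algebraMap F k) f ∈ P →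
      aeval (fun v => Ideal.Quotient.mk P (X v)) f = 0 := by
    intro f hf
    rw [← aeval_map_algebraMap k, aeval_mk_X, Ideal.Quotient.eq_zero_iff_mem.mpr hf]
  exact peel_dom (Ideal.Quotient.liftₐ P (aeval fun v => algebraMap F k (z v))
      fun f hf => by simpa [aeval_eq_eval] using mem_pt.mp (hPz hf))
    (IsScalarTower.toAlgHom k (MvPolynomial V k ⧸ P) (FractionRing (MvPolynomial V k ⧸ P)))
    (IsFractionRing.injective _ _) (fun v => Ideal.Quotient.mk P (X v)) z (fun v => by simp)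
    Φ ε hdet (fun i => h0 _ (hΦ i)) T hT (fun j => h0 _ (hTP j)) (adjoin_gp P) hy (by omega)

end Pool.Agent.Lib.PRank
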