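import Pool.Agent.Lib.PRank.Semicont
import Pool.Agent.Lib.PRank.Spec

namespace Pool.Agent.Lib.PRank

open MvPolynomial

variable {ι V J κ : Type*}

section Shift

variable {F A A' : Type*} [CommRing F] [CommRing A] [CommRing A'] [Algebra F A] [Algebra F A']

/-- The generic displacement of the point `ξ`. -/
noncomputable def sh (ξ : V → A) : V → MvPolynomial V A := fun v => C (ξ v) + X v

lemma algHom_aeval_mv [Fintype κ] (g : A →ₐ[F] A') (y : V → A) (ε : κ → V → F) (γ : κ → A)
    (f : MvPolynomial V F) :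
    g (aeval (mv y ε γ) f) = aeval (mv (fun v => g (y v)) ε fun i => g (γ i)) f := by
  rw [← AlgHom.comp_apply, comp_aeval]
  congr 2
  ext v
  simp [mv]

lemma algHom_jac_det [Fintype V] [Fintype κ] [DecidableEq κ] (g : A →ₐ[F] A') (y : V → A)
    (Φ : κ → MvPolynomial V F) (ε : κ → V → F) :
    g (jac y Φ ε).det = (jac (fun v => g (y v)) Φ ε).det := by
  rw [AlgHom.map_det]
  congr 1
  ext i j
  simp only [jac, AlgHom.mapMatrix_apply, Matrix.map_apply, Matrix.of_apply, map_sum, map_mul,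
    AlgHom.commutes]
  refine Finset.sum_congr rfl fun v _ => ?_
  rw [← AlgHom.comp_apply, comp_aeval]

lemma map_aeval_mv_sh [Fintype κ] (g : A →ₐ[F] A') (ξ : V → A) (ε : κ → V → F)
    (γ : κ → MvPolynomial V A) (f : MvPolynomial V F) :
    map (g : A →+* A') (aeval (mv (sh ξ) ε γ) f) =
      aeval (mv (sh fun v => g (ξ v)) ε fun i => map (g : A →+* A') (γ i)) f := by
  have := algHom_aeval_mv (mapAlgHom (σ := V) g) (sh ξ) ε γ f
  simp only [mapAlgHom_apply] at this
  rw [this]
  congr 3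
  ext v : 1
  simp [sh]

lemma map_mem_pow_idealOfVars (g : A →+* A') {n : ℕ} {f : MvPolynomial V A}
    (hf : f ∈ idealOfVars V A ^ n) : map g f ∈ idealOfVars V A' ^ n := by
  rw [mem_pow_idealOfVars_iff'] at hf ⊢
  intro d hd
  rw [coeff_map, hf d hd, map_zero]

lemma map_mem_idealOfVars (g : A →+* A') {f : MvPolynomial V A}
    (hf : f ∈ idealOfVars V A) : map g f ∈ idealOfVars V A' := by
  rw [mem_idealOfVars_iff] at hf ⊢
  rw [coeff_map, hf, map_zero]

/-- The constant coefficient as an algebra map. -/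
noncomputable def cc (F : Type*) (V A : Type*) [CommRing F] [CommRing A] [Algebra F A] :
    MvPolynomial V A →ₐ[F] A :=
  (aeval (0 : V → A)).restrictScalars F

lemma cc_apply (f : MvPolynomial V A) : cc F V A f = coeff 0 f := by
  simp [cc, constantCoeff_eq]

lemma cc_sh (ξ : V → A) : (fun v => cc F V A (sh ξ v)) = ξ := by
  ext v; simp [cc, sh]

lemma aeval_sh_mem {ξ : V → A} {f : MvPolynomial V F} (h : aeval ξ f = 0) :
    aeval (sh ξ) f ∈ idealOfVars V A := by
  rw [mem_idealOfVars_iff, ← cc_apply (F := F), ← AlgHom.comp_apply, comp_aeval, cc_sh, h]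

lemma jac_sh_mem [Fintype V] [Fintype κ] [DecidableEq κ] {ξ : V → A} {Φ : κ → MvPolynomial V F}
    {ε : κ → V → F} {c : A} (hc : c * (jac ξ Φ ε).det = 1) :
    C c * (jac (sh ξ) Φ ε).det - 1 ∈ idealOfVars V A := by
  rw [mem_idealOfVars_iff, ← cc_apply (F := F), map_sub, map_mul, algHom_jac_det, cc_sh, map_one,
    cc_apply, coeff_zero_C, hc, sub_self]

lemma derivation_aeval [Fintype V] (δ : Derivation F A A) (p : V → A) (f : MvPolynomial V F) :
    δ (aeval p f) = ∑ v, aeval p (pderiv v f) * δ (p v) := by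
  classical
  induction f using MvPolynomial.induction_on with
  | C a => simp
  | add f g hf hg => simp [hf, hg, add_mul, Finset.sum_add_distrib]
  | mul_X f v hf =>
    simp only [map_mul, aeval_X, Derivation.leibniz, smul_eq_mul, hf, map_add, pderiv_X,
      add_mul, Finset.sum_add_distrib, Finset.mul_sum]
    congr 1
    · rw [Finset.sum_eq_single v]
      · simp
      · intro w _ hw; simp [Pi.single_eq_of_ne (Ne.symm hw)]
      · simp
    · exact Finset.sum_congr rfl fun w _ => by ring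

end Shift

section GermMod

variable {F k Ω : Type*} [Field F] [Field k] [Field Ω] [Algebra F k] [Algebra k Ω] [Algebra F Ω]
  [IsScalarTower F k Ω] [Fintype V] [Fintype κ] [DecidableEq κ]

/-- A germ through a generic point, using the good directions and few extra directions. -/
theorem exists_germ_mod [PerfectField k] (ξ : V → Ω)
    (hξ : IntermediateField.adjoin k (Set.range ξ) = ⊤) {e b : ℕ} {y : Fin e → Ω}
    (hy : AlgebraicIndependent k y) (Φ : κ → MvPolynomial V F) (ε : κ → V → F)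
    (hΦ : ∀ i, aeval ξ (Φ i) = 0) (hdet : (jac ξ Φ ε).det ≠ 0)
    (hb : Fintype.card V ≤ e + Fintype.card κ + b) (N : ℕ) :
    ∃ (ψ₀ : κ → MvPolynomial V Ω) (ψ₁ : Fin b → MvPolynomial V Ω),
      (∀ i, ψ₀ i ∈ idealOfVars V Ω) ∧ (∀ i, ψ₁ i ∈ idealOfVars V Ω) ∧
      ∀ f : MvPolynomial V F, aeval ξ f = 0 →
        aeval (mv (sh ξ) ε ψ₀) f ∈ Ideal.span (Set.range ψ₁) ⊔ idealOfVars V Ω ^ (N + 1) := by
  classical
  have hfg : Algebra.EssFiniteType k Ω := by
    rw [← IntermediateField.fg_top_iff]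
    exact ⟨Finset.univ.image ξ, by simpa using hξ⟩
  let u₀ : κ → V → Ω := fun i v => algebraMap F Ω (ε i v)
  obtain ⟨u₁, hu₁⟩ := exists_complement ξ hξ hy u₀ (fun δ a h => by
    refine Matrix.eq_zero_of_mulVec_eq_zero hdet ?_
    ext j
    have h1 := derivation_aeval (δ.restrictScalars F) ξ (Φ j)
    rw [hΦ, map_zero] at h1
    have h2 : ∀ v, δ.restrictScalars F (ξ v) = - ∑ i, a i * u₀ i v := fun v =>
      eq_neg_of_add_eq_zero_left (h v)
    simp only [h2, mul_neg, Finset.sum_neg_distrib, zero_eq_neg, Finset.mul_sum] at h1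
    rw [Finset.sum_comm] at h1
    simp only [Matrix.mulVec, dotProduct, jac, Matrix.of_apply, Finset.sum_mul, Pi.zero_apply]
    rw [← h1]
    exact Finset.sum_congr rfl fun i _ => Finset.sum_congr rfl fun v _ => by simp [u₀]; ring) hb
  obtain ⟨ψ, hψ, hf⟩ := exists_germ (k := k) (B := MvPolynomial V Ω) ξ (Sum.elim u₀ u₁) hu₁
    (idealOfVars V Ω) X (fun v => Ideal.subset_span ⟨v, rfl⟩) N
  refine ⟨fun i => ψ (.inl i), fun i => ψ (.inr i), fun i => hψ _, fun i => hψ _, fun f h0 => ?_⟩
  have h1 := hf (map (algebraMap F k) f) (by rwa [aeval_map_algebraMap])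
  rw [aeval_map_algebraMap] at h1
  have h2 := aeval_sub_mem (F := F) (Ideal.span (Set.range fun i => ψ (.inr i)))
    (a := mv (sh ξ) ε fun i => ψ (.inl i))
    (b := mv (fun v => algebraMap Ω (MvPolynomial V Ω) (ξ v) + X v) (Sum.elim u₀ u₁) ψ)
    (fun v => by
      have : mv (sh ξ) ε (fun i => ψ (.inl i)) v -
          mv (fun v => algebraMap Ω (MvPolynomial V Ω) (ξ v) + X v) (Sum.elim u₀ u₁) ψ v =
          ∑ i, C (u₁ i v) * ψ (.inr i) := by
        simp only [mv, sh, Fintype.sum_sum_type, Sum.elim_inl, Sum.elim_inr, u₀, algebraMap_eq,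
          MvPolynomial.algebraMap_apply]
        ring
      rw [this]
      exact Ideal.sum_mem _ fun i _ => Ideal.mul_mem_left _ _ (Ideal.subset_span ⟨i, rfl⟩)) f
  have h3 := Submodule.add_mem_sup h2 h1
  rwa [sub_add_cancel] at h3

end GermMod

section Generic

variable {k : Type*} [Field k]

/-- The generic point of a prime ideal. -/
noncomputable def gp (P : Ideal (MvPolynomial V k)) : V → FractionRing (MvPolynomial V k ⧸ P) :=
  fun v => algebraMap (MvPolynomial V k ⧸ P) _ (Ideal.Quotient.mk P (X v))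

lemma aeval_mk_X (P : Ideal (MvPolynomial V k)) (f : MvPolynomial V k) :
    aeval (fun v => Ideal.Quotient.mk P (X v)) f = Ideal.Quotient.mk P f := by
  have : aeval (fun v => Ideal.Quotient.mk P (X v)) = Ideal.Quotient.mkₐ k P := by
    ext v; simp
  rw [this]; rfl

lemma aeval_gp (P : Ideal (MvPolynomial V k)) (f : MvPolynomial V k) :
    aeval (gp P) f = algebraMap (MvPolynomial V k ⧸ P) _ (Ideal.Quotient.mk P f) := by
  rw [← aeval_mk_X, ← IsScalarTower.toAlgHom_apply k, ← AlgHom.comp_apply, comp_aeval]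
  rfl

lemma adjoin_gp (P : Ideal (MvPolynomial V k)) [P.IsPrime] :
    IntermediateField.adjoin k (Set.range (gp P)) = ⊤ := by
  have h : ∀ a : MvPolynomial V k ⧸ P, algebraMap _ (FractionRing (MvPolynomial V k ⧸ P)) a ∈
      IntermediateField.adjoin k (Set.range (gp P)) := by
    intro a
    obtain ⟨f, rfl⟩ := Ideal.Quotient.mk_surjective a
    rw [← aeval_gp]
    apply IntermediateField.algebra_adjoin_le_adjoin
    rw [Algebra.adjoin_range_eq_range_aeval]
    exact ⟨f, rfl⟩
  rw [eq_top_iff]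
  intro x _
  obtain ⟨a, b, -, rfl⟩ := IsFractionRing.div_surjective (A := MvPolynomial V k ⧸ P) x
  exact div_mem (h a) (h b)

lemma Indep.exists_gp {P : Ideal (MvPolynomial V k)} [P.IsPrime] {e : ℕ} (h : Indep k P e) :
    ∃ y : Fin e → FractionRing (MvPolynomial V k ⧸ P), AlgebraicIndependent k y := by
  obtain ⟨y, hy⟩ := h
  exact ⟨_, hy.map' (f := IsScalarTower.toAlgHom k _ (FractionRing (MvPolynomial V k ⧸ P)))
    (IsFractionRing.injective _ _)⟩

/-- Small geometric rank implies small partition rank over an algebraically closed field. -/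
theorem gen_of_prime [IsAlgClosed k] [Fintype V] [Fintype ι] [DecidableEq ι] [Finite J]
    {sl : V → ι} {T : J → MvPolynomial V k} (hT : ∀ j, IsML sl Finset.univ (T j))
    (P : Ideal (MvPolynomial V k)) [P.IsPrime] (hP : ∀ j, T j ∈ P) {s : ℕ}
    (h : Indep k P (Fintype.card V - s)) : Gen sl (2 ^ Fintype.card ι * s) T := by
  obtain ⟨y, hy⟩ := h.exists_gp
  obtain ⟨ψ₀, ψ₁, -, h₁, hf⟩ := exists_germ_mod (F := k) (κ := Empty) (b := s) (gp P) (adjoin_gp P)
    hy Empty.elim Empty.elim (fun i => i.elim) (by simp) (by omega) (Fintype.card ι)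
  refine gen_of_isAlgClosed (Ω := FractionRing (MvPolynomial V k ⧸ P)) ?_
  have h2 := gen_top (sl := sl) ψ₁ h₁ _ fun j => hf (T j) (by
    rw [aeval_gp, Ideal.Quotient.eq_zero_iff_mem.mpr (hP j), map_zero])
  have h3 : mv (sh (gp P)) (Empty.elim : Empty → V → k) ψ₀ = fun v => C (gp P v) + X v := by
    ext v : 1; simp [mv, sh]
  simp only [h3, top_shift (hT _), Fintype.card_fin] at h2
  exact h2

end Generic

end Pool.Agent.Lib.PRank
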