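import Pool.Agent.Lib.PRank.Dim
import Pool.Agent.Lib.PRank.Germ

namespace Pool.Agent.Lib.PRank

open MvPolynomial

variable {ι V J : Type*}

lemma mem_idealOfVars_iff {R : Type*} [CommRing R] {f : MvPolynomial V R} :
    f ∈ idealOfVars V R ↔ coeff 0 f = 0 := by
  rw [← pow_one (idealOfVars V R), mem_pow_idealOfVars_iff']
  constructor
  · intro h; exact h 0 (by simp)
  · intro h d hd
    rw [Nat.lt_one_iff, Finsupp.degree_eq_zero_iff] at hd
    rw [hd, h]

lemma pt_zero_eq {R : Type*} [CommRing R] : pt (0 : V → R) = idealOfVars V R := by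
  ext f
  rw [mem_pt, mem_idealOfVars_iff, eval_zero, constantCoeff_eq]

attribute [local instance] MvPolynomial.gradedAlgebra in
/-- Semicontinuity of the dimension of the zero set of homogeneous forms. -/
theorem exists_prime_of_lift {k A Ω : Type*} [Field k] [Infinite k] [CommRing A] [Algebra k A]
    [Field Ω] [Fintype V] (π : A →ₐ[k] k) (φ : A →+* Ω) (hφ : ∀ r, π r = 1 → φ r ≠ 0)
    (Tt : J → MvPolynomial V A) {D : ℕ} (hD : D ≠ 0) (hT : ∀ j, (Tt j).IsHomogeneous D) {s : ℕ}
    (G : Finset (MvPolynomial V Ω)) (hG : G.card ≤ s) (hG0 : ∀ g ∈ G, g ∈ idealOfVars V Ω)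
    (hmem : ∀ j, map φ (Tt j) ∈ Ideal.span (G : Set (MvPolynomial V Ω))) :
    ∃ P : Ideal (MvPolynomial V k), P.IsPrime ∧ (∀ j, map (π : A →+* k) (Tt j) ∈ P) ∧
      Indep k P (Fintype.card V - s) := by
  classical
  have hT0 : ∀ j, map (π : A →+* k) (Tt j) ∈ pt (0 : V → k) := by
    intro j
    rw [pt_zero_eq, mem_idealOfVars_iff, coeff_map, (hT j).coeff_eq_zero (by simpa using hD.symm),
      map_zero]
  by_contra hcon
  push Not at hcon
  by_cases hs : Fintype.card V ≤ s
  · refine hcon (pt 0) inferInstance hT0 ?_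
    rw [Nat.sub_eq_zero_of_le hs]
    exact Indep.zero _
  obtain ⟨e, he⟩ : ∃ e, Fintype.card V - s = e + 1 := ⟨Fintype.card V - s - 1, by omega⟩
  let I : Ideal (MvPolynomial V k) := Ideal.span (Set.range fun j => map (π : A →+* k) (Tt j))
  obtain ⟨l, hlU, hl⟩ := exists_cut (k := k) (V := V) {0} (Submodule.span k (Set.range X)) 0 e I
    (fun z _ P hP hIP _ => by
      rw [zero_add, ← he]
      exact hcon P hP fun j => hIP (Ideal.subset_span ⟨j, rfl⟩))
    (fun z hz P hP hUP hPz => by
      have hz' : z = 0 := hz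
      subst hz'
      have : P = pt 0 := le_antisymm hPz (by
        rw [pt_zero_eq, Ideal.span_le]
        rintro _ ⟨v, rfl⟩
        exact hUP _ (Submodule.subset_span ⟨v, rfl⟩))
      rw [this]
      exact not_indep_pt 0)
  have hl1 : ∀ i, (l i).IsHomogeneous 1 := by
    intro i
    have : Submodule.span k (Set.range (X : V → MvPolynomial V k)) ≤ homogeneousSubmodule V k 1 := by
      rw [Submodule.span_le]
      rintro _ ⟨v, rfl⟩
      exact isHomogeneous_X k v
    exact this (hlU i)
  let It : Ideal (MvPolynomial V A) :=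
    Ideal.span (Set.range (Sum.elim Tt fun i => map (algebraMap k A) (l i)))
  have hπl : ∀ f : MvPolynomial V k, map (π : A →+* k) (map (algebraMap k A) f) = f := by
    intro f
    rw [map_map]
    have : (π : A →+* k).comp (algebraMap k A) = RingHom.id k := by
      ext c; simp
    rw [this, map_id]
  have hsurj : Function.Surjective (map (π : A →+* k) : MvPolynomial V A → MvPolynomial V k) :=
    fun f => ⟨_, hπl f⟩
  let I' : Ideal (MvPolynomial V k) := It.map (map (π : A →+* k))
  have hmin : pt (0 : V → k) ∈ I'.minimalPrimes := by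
    refine pt_mem_minimalPrimes ?_ fun P hP hIP hPz => ?_
    · rw [Ideal.map_le_iff_le_comap, Ideal.span_le]
      rintro _ ⟨j | i, rfl⟩
      · exact hT0 j
      · change map (π : A →+* k) (map (algebraMap k A) (l i)) ∈ pt 0
        rw [hπl, pt_zero_eq, mem_idealOfVars_iff]
        exact (hl1 i).coeff_eq_zero (by simp)
    · refine hl 0 rfl P hP ?_ (fun i => hIP ?_) hPz
      · rw [Ideal.span_le]
        rintro _ ⟨j, rfl⟩
        exact hIP (Ideal.mem_map_of_mem _ (Ideal.subset_span ⟨.inl j, rfl⟩))
      · rw [← hπl (l i)]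
        exact Ideal.mem_map_of_mem _ (Ideal.subset_span ⟨.inr i, rfl⟩)
  have hpow : ∀ v : V, ∃ n : ℕ, ∃ u ∈ (pt (0 : V → k)).primeCompl, u * X v ^ n ∈ I' := by
    intro v
    have h1 := IsLocalization.AtPrime.radical_map_of_mem_minimalPrimes
      (Localization.AtPrime (pt (0 : V → k))) (pt 0) I' hmin
    have h2 : algebraMap (MvPolynomial V k) (Localization.AtPrime (pt (0 : V → k))) (X v) ∈
        (I'.map (algebraMap (MvPolynomial V k)
          (Localization.AtPrime (pt (0 : V → k))))).radical := by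
      rw [h1]; exact Ideal.mem_map_of_mem _ (by simp [mem_pt])
    obtain ⟨n, hn⟩ := h2
    rw [← map_pow, IsLocalization.algebraMap_mem_map_algebraMap_iff
      (pt (0 : V → k)).primeCompl] at hn
    exact ⟨n, hn⟩
  choose n u hu hun using hpow
  have hhom : It.IsHomogeneous (homogeneousSubmodule V A) := by
    refine Ideal.homogeneous_span _ _ ?_
    rintro _ ⟨j | i, rfl⟩
    · exact ⟨D, hT j⟩
    · exact ⟨1, (hl1 i).map _⟩
  let N := ∑ v, n v + 1
  have hmono : ∀ d : V →₀ ℕ, d.degree = N → ∃ w ∈ It, w.IsHomogeneous N ∧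
      map (π : A →+* k) w = monomial d 1 := by
    intro d hd
    obtain ⟨v, hv⟩ : ∃ v, n v ≤ d v := by
      by_contra h
      push Not at h
      have h1 : d.degree ≤ ∑ v, n v := by
        rw [Finsupp.degree_eq_sum]
        exact Finset.sum_le_sum fun v _ => (h v).le
      omega
    obtain ⟨d', rfl⟩ := exists_add_of_le (Finsupp.single_le_iff.mpr hv)
    have h1 : u v * monomial (Finsupp.single v (n v) + d') 1 ∈ I' := by
      have := I'.mul_mem_right (monomial d' 1) (hun v)
      rwa [mul_assoc, X_pow_eq_monomial, monomial_mul, one_mul] at this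
    obtain ⟨f, hf, hf'⟩ := (Ideal.mem_map_iff_of_surjective _ hsurj).mp h1
    have hu0 : coeff 0 (u v) ≠ 0 := by
      have := hu v
      rw [Ideal.mem_primeCompl_iff, pt_zero_eq, mem_idealOfVars_iff] at this
      exact this
    refine ⟨C (algebraMap k A (coeff 0 (u v))⁻¹) * homogeneousComponent N f,
      It.mul_mem_left _ (homogeneousComponent_mem_of_mem hhom hf N),
      (homogeneousComponent_isHomogeneous N f).C_mul _, ?_⟩
    ext e'
    have h2 : π (coeff e' f) = coeff e' (u v * monomial (Finsupp.single v (n v) + d') 1) := by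
      rw [← hf', coeff_map]; rfl
    rw [coeff_map, coeff_C_mul, coeff_homogeneousComponent, map_mul, coeff_monomial]
    have h3 : (π : A →+* k) (algebraMap k A (coeff 0 (u v))⁻¹) = (coeff 0 (u v))⁻¹ := by simp
    rw [h3]
    split_ifs with h4 h5 h5
    · have h6 : (π : A →+* k) (coeff e' f) = coeff 0 (u v) := by
        refine h2.trans ?_
        rw [← h5, coeff_mul_monomial']
        simp
      rw [h6, inv_mul_cancel₀ hu0]
    · have h6 : (π : A →+* k) (coeff e' f) = 0 := by
        refine h2.trans ?_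
        rw [coeff_mul_monomial']
        split_ifs with h7
        · exfalso
          obtain ⟨c, rfl⟩ := exists_add_of_le h7
          rw [map_add, hd] at h4
          have h8 : c = 0 := (Finsupp.degree_eq_zero_iff c).mp (by omega)
          exact h5 (by rw [h8, add_zero])
        · rfl
      rw [h6, mul_zero]
    · exact absurd (h5 ▸ hd) h4
    · simp
  let M : Submodule A (MvPolynomial V A) := homogeneousSubmodule V A N
  have hMspan : ∀ d : V →₀ ℕ, d.degree = N → (monomial d (1 : A)) ∈ M := fun d hd =>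
    isHomogeneous_monomial 1 hd
  have hker : ∀ g : MvPolynomial V A, g.IsHomogeneous N → map (π : A →+* k) g = 0 →
      g ∈ RingHom.ker (π : A →+* k) • M := by
    intro g hg hg0
    rw [g.as_sum]
    refine Submodule.sum_mem _ fun d hd => ?_
    have h1 : monomial d (coeff d g) = coeff d g • monomial d (1 : A) := by
      rw [smul_monomial, smul_eq_mul, mul_one]
    rw [h1]
    refine Submodule.smul_mem_smul ?_ (hMspan d ?_)
    · rw [RingHom.mem_ker, ← coeff_map, hg0, coeff_zero]
    · by_contra h
      exact (mem_support_iff.mp hd) (hg.coeff_eq_zero h)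
  have hle : M ≤ It.restrictScalars A ⊔ RingHom.ker (π : A →+* k) • M := by
    intro g hg
    rw [g.as_sum]
    refine Submodule.sum_mem _ fun d hd => ?_
    have h1 : monomial d (coeff d g) = coeff d g • monomial d (1 : A) := by
      rw [smul_monomial, smul_eq_mul, mul_one]
    have hdN : d.degree = N := by
      by_contra h
      exact (mem_support_iff.mp hd) (IsHomogeneous.coeff_eq_zero hg h)
    rw [h1]
    refine Submodule.smul_mem _ _ ?_
    obtain ⟨w, hw, hwN, hw'⟩ := hmono d hdN
    have h2 : (monomial d (1 : A)) = w + (monomial d 1 - w) := by ring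
    rw [h2]
    refine Submodule.add_mem_sup hw (hker _ ((isHomogeneous_monomial 1 hdN).sub hwN) ?_)
    rw [map_sub, hw', map_monomial, map_one, sub_self]
  obtain ⟨r, hr, hrM⟩ := Submodule.exists_sub_one_mem_and_smul_le_of_fg_of_le_sup
    (homogeneousSubmodule_fg V A N) le_rfl hle
  have hr1 : φ r ≠ 0 := by
    refine hφ r ?_
    rw [RingHom.mem_ker, map_sub, map_one, sub_eq_zero] at hr
    exact hr
  let g : G ⊕ Fin e → MvPolynomial V Ω :=
    Sum.elim (fun x => x.1) fun i => map φ (map (algebraMap k A) (l i))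
  have hIt : It.map (map φ) ≤ Ideal.span (Set.range g) := by
    rw [Ideal.map_le_iff_le_comap, Ideal.span_le]
    rintro _ ⟨j | i, rfl⟩
    · refine Ideal.span_mono ?_ (hmem j)
      intro x hx
      exact ⟨.inl ⟨x, hx⟩, rfl⟩
    · exact Ideal.subset_span ⟨.inr i, rfl⟩
  have hX : ∀ v, (X v : MvPolynomial V Ω) ^ N ∈ Ideal.span (Set.range g) := by
    intro v
    have h1 : r • (monomial (Finsupp.single v N) (1 : A)) ∈ It :=
      hrM (Submodule.smul_mem_pointwise_smul _ _ _ (hMspan _ (by simp)))
    have h2 := Ideal.mul_mem_left _ (C (φ r)⁻¹) (hIt (Ideal.mem_map_of_mem _ h1))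
    rwa [smul_monomial, map_monomial, C_mul_monomial, smul_eq_mul, mul_one, inv_mul_cancel₀ hr1,
      ← X_pow_eq_monomial] at h2
  have hmin' : pt (0 : V → Ω) ∈ (Ideal.span (Set.range g)).minimalPrimes := by
    refine ⟨⟨inferInstance, ?_⟩, fun Q hQ _ => ?_⟩
    · rw [pt_zero_eq, Ideal.span_le]
      rintro _ ⟨x | i, rfl⟩
      · exact hG0 _ x.2
      · change map φ (map (algebraMap k A) (l i)) ∈ idealOfVars V Ω
        rw [mem_idealOfVars_iff, coeff_map, coeff_map, (hl1 i).coeff_eq_zero (by simp)]
        simp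
    · rw [pt_zero_eq, Ideal.span_le]
      rintro _ ⟨v, rfl⟩
      exact hQ.1.mem_of_pow_mem N (hQ.2 (hX v))
  have := card_le_of_pt_mem_minimalPrimes _ _ hmin'
  simp only [Fintype.card_sum, Fintype.card_coe, Fintype.card_fin] at this
  omega

end Pool.Agent.Lib.PRank
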