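import Mathlib
import Pool.Agent.Lib.PRank.Basic
import Pool.Agent.Lib.PRank.Free
import Pool.Agent.Lib.PRank.RS

-- merged part: Pool.Agent.Lib.PRank.Net
section
namespace Pool.Agent.Lib.PRank

open MvPolynomial

namespace NetAux

open Finset

lemma sum_coord {X : Type*} [Fintype X] [DecidableEq X] {m : ℕ} (p : X → Prop) [DecidablePred p]
    (i : Fin (m + 1)) :
    (univ.filter fun b : Fin (m + 1) → X => p (b i)).card
      = (univ.filter p).card * Fintype.card X ^ m := by
  have h : (univ.filter fun b : Fin (m + 1) → X => p (b i))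
      = Fintype.piFinset (Function.update (fun _ => univ) i (univ.filter p)) := by
    ext b
    simp only [mem_filter, mem_univ, true_and, Fintype.mem_piFinset]
    constructor
    · intro hb k
      by_cases hk : k = i
      · subst hk; simpa using hb
      · simp [Function.update_of_ne hk]
    · intro hb
      simpa using hb i
  rw [h, Fintype.card_piFinset, Fin.prod_univ_succAbove _ i]
  simp

lemma markov {X : Type*} [Fintype X] [DecidableEq X] [Nonempty X] (m : ℕ) (p : X → Prop)
    [DecidablePred p] (hp : 2 * (univ.filter p).card < Fintype.card X) :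
    Fintype.card X ^ m < 3 * (univ.filter fun b : Fin m → X =>
      m ≤ 4 * (univ.filter fun i => ¬ p (b i)).card).card := by
  have hsplit := card_filter_add_card_filter_not (s := (univ : Finset (Fin m → X)))
    (fun b => m ≤ 4 * (univ.filter fun i => ¬ p (b i)).card)
  rw [card_univ, Fintype.card_fun, Fintype.card_fin] at hsplit
  suffices h : 3 * (univ.filter fun b : Fin m → X =>
      ¬ m ≤ 4 * (univ.filter fun i => ¬ p (b i)).card).card < 2 * Fintype.card X ^ m by omega
  cases m with
  | zero => simp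
  | succ m =>
    set Bd := univ.filter fun b : Fin (m + 1) → X =>
      ¬ m + 1 ≤ 4 * (univ.filter fun i => ¬ p (b i)).card with hBd
    have h1 : ∑ b : Fin (m + 1) → X, (univ.filter fun i => p (b i)).card
        = (m + 1) * ((univ.filter p).card * Fintype.card X ^ m) := by
      simp only [card_filter (fun i => p _)]
      rw [sum_comm]
      simp only [← card_filter, sum_coord]
      simp
    have h2 : Bd.card * (3 * (m + 1)) ≤ ∑ b ∈ Bd, 4 * (univ.filter fun i => p (b i)).card := by
      rw [← smul_eq_mul]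
      apply card_nsmul_le_sum
      intro b hb
      have h3 := (mem_filter.1 hb).2
      have h4 := card_filter_add_card_filter_not (s := (univ : Finset (Fin (m + 1))))
        (fun i => p (b i))
      rw [card_univ, Fintype.card_fin] at h4
      omega
    have h3 : ∑ b ∈ Bd, 4 * (univ.filter fun i => p (b i)).card
        ≤ ∑ b : Fin (m + 1) → X, 4 * (univ.filter fun i => p (b i)).card :=
      sum_le_sum_of_subset (subset_univ _)
    rw [← mul_sum, ← mul_sum, h1] at h3
    rw [← mul_sum] at h2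
    have h4 : (m + 1) * (3 * Bd.card) ≤ (m + 1) * (4 * ((univ.filter p).card * Fintype.card X ^ m)) := by
      nlinarith
    have h5 := Nat.le_of_mul_le_mul_left h4 (Nat.succ_pos m)
    have h6 : 0 < Fintype.card X ^ m := pow_pos Fintype.card_pos m
    rw [pow_succ]
    nlinarith

/-- swap the coordinates selected by `σ` -/
def sw {X : Type*} {m : ℕ} (σ : Fin m → Bool) (q : (Fin m → X) × (Fin m → X)) :
    (Fin m → X) × (Fin m → X) :=
  (fun i => if σ i then q.2 i else q.1 i, fun i => if σ i then q.1 i else q.2 i)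

lemma sw_sw {X : Type*} {m : ℕ} (σ : Fin m → Bool) (q : (Fin m → X) × (Fin m → X)) :
    sw σ (sw σ q) = q := by
  ext i <;> simp only [sw] <;> split_ifs <;> rfl

open Classical in
lemma half_net {J X : Type*} [Fintype X] [Nonempty X] (π : X → J) (𝒮 : Set (Set J)) (m : ℕ)
    (hshat : ∀ U : Fin m ⊕ Fin m → J,
      (3 * {A : Set (Fin m ⊕ Fin m) | ∃ G ∈ 𝒮, A = U ⁻¹' G}.ncard) ^ 4 < 2 ^ m)
    (hcov : ∀ U : Fin m → J, ∃ G ∈ 𝒮, ∀ i, U i ∈ G) :
    ∃ G ∈ 𝒮, Fintype.card X ≤ 2 * (univ.filter fun x => π x ∈ G).card := by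
  by_contra hne
  push Not at hne
  set Ev : (Fin m → X) × (Fin m → X) → Prop := fun q =>
    ∃ G ∈ 𝒮, (∀ i, π (q.1 i) ∈ G) ∧ m ≤ 4 * (univ.filter fun i => ¬ π (q.2 i) ∈ G).card with hEv
  set N := Fintype.card X ^ m with hN
  have hNpos : 0 < N := pow_pos Fintype.card_pos m
  have h1 : N * N < 3 * (univ.filter Ev).card := by
    have e : (univ.filter Ev).card = ∑ a : Fin m → X, (univ.filter fun b => Ev (a, b)).card := by
      simp only [card_filter]
      rw [Fintype.sum_prod_type]
    rw [e, mul_sum]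
    have : ∑ _a : Fin m → X, N < ∑ a : Fin m → X, 3 * (univ.filter fun b => Ev (a, b)).card := by
      apply sum_lt_sum_of_nonempty univ_nonempty
      intro a _
      obtain ⟨G, hG, ha⟩ := hcov (fun i => π (a i))
      refine (markov m (fun x => π x ∈ G) (hne G hG)).trans_le (Nat.mul_le_mul_left _ ?_)
      apply card_le_card
      intro b hb
      exact mem_filter.2 ⟨mem_univ _, G, hG, ha, (mem_filter.1 hb).2⟩
    simpa [hN] using this
  have h2 : ∀ σ : Fin m → Bool, (univ.filter fun q => Ev (sw σ q)).card = (univ.filter Ev).card := by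
    intro σ
    refine card_bij' (fun q _ => sw σ q) (fun q _ => sw σ q) ?_ ?_ ?_ ?_
    · intro q hq; exact mem_filter.2 ⟨mem_univ _, (mem_filter.1 hq).2⟩
    · intro q hq; exact mem_filter.2 ⟨mem_univ _, by rw [sw_sw]; exact (mem_filter.1 hq).2⟩
    · intro q _; exact sw_sw σ q
    · intro q _; exact sw_sw σ q
  have h3 : ∑ q : (Fin m → X) × (Fin m → X), (univ.filter fun σ : Fin m → Bool => Ev (sw σ q)).card
      = 2 ^ m * (univ.filter Ev).card := by
    simp only [card_filter (fun σ : Fin m → Bool => Ev (sw σ _))]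
    rw [sum_comm]
    simp only [← card_filter, h2]
    simp
  obtain ⟨q, hq⟩ : ∃ q : (Fin m → X) × (Fin m → X),
      2 ^ m < 3 * (univ.filter fun σ : Fin m → Bool => Ev (sw σ q)).card := by
    by_contra hc
    push Not at hc
    have h4 : ∑ q : (Fin m → X) × (Fin m → X),
        3 * (univ.filter fun σ : Fin m → Bool => Ev (sw σ q)).card
        ≤ ∑ _q : (Fin m → X) × (Fin m → X), 2 ^ m := sum_le_sum fun q _ => hc q
    rw [← mul_sum, h3, sum_const, card_univ, Fintype.card_prod, Fintype.card_fun,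
      Fintype.card_fin, ← hN, smul_eq_mul] at h4
    have h5 : 0 < 2 ^ m := by positivity
    nlinarith
  set U : Fin m ⊕ Fin m → J := Sum.elim (fun i => π (q.1 i)) (fun i => π (q.2 i)) with hU
  set T : Finset (Set (Fin m ⊕ Fin m)) := univ.filter fun A => ∃ G ∈ 𝒮, A = U ⁻¹' G with hT
  have hTc : {A : Set (Fin m ⊕ Fin m) | ∃ G ∈ 𝒮, A = U ⁻¹' G}.ncard = T.card := by
    rw [← Set.ncard_coe_finset]
    congr 1
    ext A; simp [hT]
  set k := (m + 3) / 4 with hk
  set Sg : Set (Fin m ⊕ Fin m) → Finset (Fin m → Bool) := fun A => univ.filter fun σ =>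
    (∀ i, (if σ i then Sum.inr i else Sum.inl i) ∈ A) ∧
      m ≤ 4 * (univ.filter fun i => (if σ i then Sum.inl i else Sum.inr i) ∉ A).card with hSg
  have h5 : ∀ A, (Sg A).card ≤ 2 ^ (m - k) := by
    intro A
    rcases (Sg A).eq_empty_or_nonempty with h | ⟨σ0, h0⟩
    · rw [h]; simp
    set D := univ.filter fun i : Fin m => (if σ0 i then Sum.inl i else Sum.inr i) ∉ A with hD
    have hDk : k ≤ D.card := by
      have : m ≤ 4 * D.card := by convert (mem_filter.1 h0).2.2
      omega
    have hsub : Sg A ⊆ Fintype.piFinset fun i => if i ∈ D then {σ0 i} else univ := by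
      intro σ hσ
      rw [Fintype.mem_piFinset]
      intro i
      split_ifs with hi
      · rw [mem_singleton]
        have a1 := (mem_filter.1 hi).2
        have a2 := (mem_filter.1 hσ).2.1 i
        cases h1 : σ i <;> cases h2 : σ0 i <;> simp_all
      · exact mem_univ _
    refine (card_le_card hsub).trans ?_
    rw [Fintype.card_piFinset]
    have e : ∀ i, (if i ∈ D then ({σ0 i} : Finset Bool) else univ).card = if i ∈ D then 1 else 2 := by
      intro i; split_ifs <;> simp
    simp only [e]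
    rw [prod_ite, prod_const_one, one_mul, prod_const]
    apply Nat.pow_le_pow_right (by norm_num)
    have := card_filter_add_card_filter_not (s := (univ : Finset (Fin m))) (fun i => i ∈ D)
    rw [card_univ, Fintype.card_fin, filter_mem_eq_inter, univ_inter] at this
    omega
  have h6 : (univ.filter fun σ : Fin m → Bool => Ev (sw σ q)) ⊆ T.biUnion Sg := by
    intro σ hσ
    obtain ⟨G, hG, a1, a2⟩ := (mem_filter.1 hσ).2
    refine mem_biUnion.2 ⟨U ⁻¹' G, mem_filter.2 ⟨mem_univ _, G, hG, rfl⟩, mem_filter.2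
      ⟨mem_univ _, fun i => ?_, ?_⟩⟩
    · have := a1 i
      simp only [sw] at this
      split_ifs at this ⊢ <;> exact this
    · convert a2 using 4 with i
      simp only [sw]
      split_ifs <;> rfl
  have h7 : (T.biUnion Sg).card ≤ T.card * 2 ^ (m - k) :=
    card_biUnion_le_card_mul _ _ _ fun A _ => h5 A
  have h8 := (card_le_card h6).trans h7
  have h9 := hshat U
  rw [hTc] at h9
  have hkm : k ≤ m := by
    rcases Nat.eq_zero_or_pos m with h | h <;> omega
  have h10 : 2 ^ k * 2 ^ (m - k) < 3 * T.card * 2 ^ (m - k) := by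
    rw [← pow_add, Nat.add_sub_cancel' hkm]; nlinarith
  have h11 : 2 ^ k < 3 * T.card := Nat.lt_of_mul_lt_mul_right h10
  have h12 : (2 ^ k) ^ 4 ≤ (3 * T.card) ^ 4 := Nat.pow_le_pow_left h11.le 4
  rw [← pow_mul] at h12
  have h13 : 2 ^ m ≤ 2 ^ (k * 4) := Nat.pow_le_pow_right (by norm_num) (by omega)
  omega

lemma num (M : ℕ) : M * 81 ^ M < 2 * 128 ^ M := by
  induction M with
  | zero => norm_num
  | succ M ih =>
    have : 81 ^ M ≤ 128 ^ M := Nat.pow_le_pow_left (by norm_num) M
    rw [pow_succ, pow_succ]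
    have e : (M + 1) * (81 ^ M * 81) = 81 * (M * 81 ^ M) + 81 * 81 ^ M := by ring
    omega

end NetAux

open Classical in
/-- Half-nets by double sampling, then multiplicative weights. -/
theorem exists_cover_list {J : Type*} [Fintype J] [Nonempty J] (𝒮 : Set (Set J)) (m : ℕ)
    (hshat : ∀ U : Fin m ⊕ Fin m → J,
      (3 * {A : Set (Fin m ⊕ Fin m) | ∃ G ∈ 𝒮, A = U ⁻¹' G}.ncard) ^ 4 < 2 ^ m)
    (hcov : ∀ U : Fin m → J, ∃ G ∈ 𝒮, ∀ i, U i ∈ G) (M' : ℕ) (hM' : Fintype.card J ≤ M') :
    ∃ G : Fin (4 * M') → Set J, (∀ k, G k ∈ 𝒮) ∧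
      ∀ j, M' ≤ (Finset.univ.filter fun k => j ∈ G k).card := by
  have step : ∀ c : J → ℕ, ∃ G ∈ 𝒮,
      2 * ∑ j, 2 ^ (c j + if j ∈ G then 0 else 1) ≤ 3 * ∑ j, 2 ^ c j := by
    intro c
    have : Nonempty (Σ j : J, Fin (2 ^ c j)) :=
      ⟨⟨Classical.arbitrary J, ⟨0, by positivity⟩⟩⟩
    obtain ⟨G, hG, h⟩ := NetAux.half_net (X := Σ j : J, Fin (2 ^ c j)) (fun x => x.1) 𝒮 m hshat hcov
    refine ⟨G, hG, ?_⟩
    have e1 : (Finset.univ.filter fun x : (Σ j : J, Fin (2 ^ c j)) => x.1 ∈ G).card
        = ∑ j, if j ∈ G then 2 ^ c j else 0 := by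
      rw [Finset.card_filter, Fintype.sum_sigma]
      refine Finset.sum_congr rfl fun j _ => ?_
      split_ifs <;> simp
    rw [e1, Fintype.card_sigma] at h
    simp only [Fintype.card_fin] at h
    have e2 : ∑ j, 2 ^ (c j + if j ∈ G then 0 else 1) + ∑ j, (if j ∈ G then 2 ^ c j else 0)
        = 2 * ∑ j, 2 ^ c j := by
      rw [← Finset.sum_add_distrib, Finset.mul_sum]
      refine Finset.sum_congr rfl fun j _ => ?_
      split_ifs <;> ring
    omega
  choose pick hp1 hp2 using step
  let c : ℕ → J → ℕ := fun t =>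
    Nat.rec (fun _ => 0) (fun _ d j => d j + if j ∈ pick d then 0 else 1) t
  have hc : ∀ t j, c (t + 1) j = c t j + if j ∈ pick (c t) then 0 else 1 := fun _ _ => rfl
  have hW : ∀ t, 2 ^ t * ∑ j, 2 ^ c t j ≤ 3 ^ t * M' := by
    intro t
    induction t with
    | zero => simpa [c] using hM'
    | succ t ih =>
      have := hp2 (c t)
      simp only [hc, pow_succ (2 : ℕ) t, pow_succ (3 : ℕ) t]
      have h2 : 0 ≤ 2 ^ t := Nat.zero_le _
      nlinarith
  have hcount : ∀ t j, c t j + ∑ k ∈ Finset.range t, (if j ∈ pick (c k) then 1 else 0) = t := by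
    intro t j
    induction t with
    | zero => rfl
    | succ t ih =>
      rw [hc, Finset.sum_range_succ]
      split_ifs <;> omega
  refine ⟨fun k => pick (c k), fun k => hp1 _, fun j => ?_⟩
  rw [Finset.card_filter, Fin.sum_univ_eq_sum_range (fun k => if j ∈ pick (c k) then 1 else 0)]
  have h1 := hcount (4 * M') j
  by_contra hlt
  have h2 : 3 * M' + 1 ≤ c (4 * M') j := by omega
  have h3 : 2 ^ (3 * M' + 1) ≤ ∑ i, 2 ^ c (4 * M') i :=
    (Nat.pow_le_pow_right (by norm_num) h2).trans
      (Finset.single_le_sum (f := fun i => 2 ^ c (4 * M') i) (fun _ _ => Nat.zero_le _)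
        (Finset.mem_univ j))
  have h4 := (Nat.mul_le_mul_left (2 ^ (4 * M')) h3).trans (hW (4 * M'))
  have h5 := NetAux.num M'
  have e1 : 2 ^ (4 * M') * 2 ^ (3 * M' + 1) = 2 * 128 ^ M' := by
    rw [← pow_add, show (128 : ℕ) = 2 ^ 7 by norm_num, ← pow_mul, ← pow_succ']
    congr 1; ring
  have e2 : 3 ^ (4 * M') = 81 ^ M' := by rw [pow_mul]; norm_num
  rw [e1, e2, mul_comm (81 ^ M')] at h4
  omega

end Pool.Agent.Lib.PRank
end

-- merged part: Pool.Agent.Lib.PRank.Pattern
section
namespace Pool.Agent.Lib.PRank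

open MvPolynomial

variable {ι V J : Type*} [Fintype ι] [DecidableEq ι] [Fintype V] {sl : V → ι}

lemma choose_deg_le (N κ t δ : ℕ) (hN : 1 ≤ N) (ht : κ * N ≤ t) :
    κ ^ δ * (N + (t + δ) - 1).choose (t + δ) ≤ (κ + 1) ^ δ * (N + t - 1).choose t := by
  obtain ⟨n, rfl⟩ : ∃ n, N = n + 1 := ⟨N - 1, by omega⟩
  induction δ with
  | zero => simp
  | succ δ ih =>
    rw [show n + 1 + (t + δ) - 1 = n + t + δ by omega] at ih
    rw [show n + 1 + (t + (δ + 1)) - 1 = n + t + δ + 1 by omega, ← add_assoc t]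
    have h1 := Nat.add_one_mul_choose_eq (n + t + δ) (t + δ)
    refine Nat.le_of_mul_le_mul_right ?_ (Nat.succ_pos (t + δ))
    have h2 : κ * (n + t + δ + 1) ≤ (κ + 1) * (t + δ + 1) := by nlinarith
    calc κ ^ (δ + 1) * (n + t + δ + 1).choose (t + δ + 1) * (t + δ + 1)
        = κ * (n + t + δ + 1) * (κ ^ δ * (n + t + δ).choose (t + δ)) := by
          rw [mul_assoc, ← h1]; ring
      _ ≤ (κ + 1) * (t + δ + 1) * ((κ + 1) ^ δ * (n + 1 + t - 1).choose t) :=
          Nat.mul_le_mul h2 ih
      _ = _ := by rw [Nat.succ_eq_add_one]; ring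

lemma choose_var_le (n c t s : ℕ) (hn : 1 ≤ n) (ht : t ≤ c * n) :
    (n + s + t - 1).choose t ≤ (1 + c) ^ s * (n + t - 1).choose t := by
  obtain ⟨k, rfl⟩ : ∃ k, n = k + 1 := ⟨n - 1, by omega⟩
  induction s with
  | zero => simp
  | succ s ih =>
    rw [show k + 1 + s + t - 1 = k + s + t by omega] at ih
    rw [show k + 1 + (s + 1) + t - 1 = k + s + t + 1 by omega]
    have h1 := Nat.choose_mul_succ_eq (k + s + t) t
    rw [show k + s + t + 1 - t = k + s + 1 by omega] at h1
    refine Nat.le_of_mul_le_mul_right ?_ (Nat.succ_pos (k + s))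
    have h2 : k + s + t + 1 ≤ (1 + c) * (k + s + 1) := by nlinarith
    calc (k + s + t + 1).choose t * (k + s + 1) = (k + s + t).choose t * (k + s + t + 1) := h1.symm
      _ ≤ (1 + c) ^ s * (k + 1 + t - 1).choose t * ((1 + c) * (k + s + 1)) := Nat.mul_le_mul ih h2
      _ = _ := by rw [Nat.succ_eq_add_one]; ring

lemma succ_pow_le (D : ℕ) (hD : 1 ≤ D) : (32 * D + 1) ^ (16 * D) ≤ 2 * (32 * D) ^ (16 * D) := by
  have h0 : (0 : ℝ) < D := by exact_mod_cast hD
  have h1 : (32 * D + 1 : ℝ) ≤ 32 * D * Real.exp (1 / (32 * D)) := by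
    have := mul_le_mul_of_nonneg_left (Real.add_one_le_exp (1 / (32 * D : ℝ)))
      (by positivity : (0 : ℝ) ≤ 32 * D)
    rwa [mul_add, mul_one_div_cancel (by positivity), mul_one, add_comm] at this
  have h2 : Real.exp (1 / (32 * D)) ^ (16 * D) ≤ 2 := by
    rw [← Real.exp_nat_mul, show ((16 * D : ℕ) : ℝ) * (1 / (32 * D)) = 1 / 2 by
      push_cast; field_simp; norm_num]
    have h3 : Real.exp (1 / 2) ^ 2 ≤ 2 ^ 2 := by
      rw [← Real.exp_nat_mul]
      norm_num
      linarith [Real.exp_one_lt_d9]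
    exact le_of_sq_le_sq h3 (by norm_num) |>.trans_eq rfl
  have h3 : (32 * D + 1 : ℝ) ^ (16 * D) ≤ 2 * (32 * D) ^ (16 * D) := by
    refine (pow_le_pow_left₀ (by positivity) h1 _).trans ?_
    rw [mul_pow, mul_comm]
    gcongr
  exact_mod_cast h3

/-- The dimension count behind the bound on zero patterns. -/
lemma card_mul_choose_le {E K P : Type*} [Field E] [Field K] [Algebra E K] [Fintype P]
    [DecidableEq V] (φ : MvPolynomial V E →ₐ[E] K) (hφ : Function.Injective φ)
    (ξ : P → V → K) (B : P → Finset V) (hB : ∀ a, ∀ b ∈ B a, ξ a b = φ (X b)) (n t δ : ℕ)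
    (hn : ∀ a, (B a).card = n) (g : P → MvPolynomial V E) (hg : ∀ a, (g a).IsHomogeneous δ)
    (r : P → ℕ) (h0 : ∀ a, aeval (ξ a) (g a) ≠ 0)
    (h1 : ∀ a a', a' ≠ a → r a' ≤ r a → aeval (ξ a) (g a') = 0) :
    Fintype.card P * (n + t - 1).choose t ≤ (Fintype.card V + (t + δ) - 1).choose (t + δ) := by
  classical
  have hli : LinearIndependent E fun x : Σ a : P, (B a).finsuppAntidiag t =>
      monomial x.2.1 (1 : E) * g x.1 := by
    rw [Fintype.linearIndependent_iff]
    intro c hc
    by_contra hne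
    push Not at hne
    obtain ⟨x, hx⟩ := hne
    obtain ⟨y, hy, hmax⟩ := Finset.exists_max_image (Finset.univ.filter fun y => c y ≠ 0)
      (fun y => r y.1) ⟨x, by simpa using hx⟩
    obtain ⟨a, d⟩ := y
    have h2 := congrArg (aeval (ξ a)) hc
    rw [map_zero, map_sum, Fintype.sum_sigma, Finset.sum_eq_single a] at h2
    · have h3 : ∀ e : (B a).finsuppAntidiag t,
          aeval (ξ a) (monomial e.1 (1 : E)) = φ (monomial e.1 1) := fun e => by
        rw [aeval_monomial, map_one, one_mul, monomial_eq, C_1, one_mul, Finsupp.prod, Finsupp.prod,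
          map_prod]
        refine Finset.prod_congr rfl fun v hv => ?_
        rw [map_pow, hB a v ((Finset.mem_finsuppAntidiag.1 e.2).2 hv)]
      simp only [map_smul, map_mul, h3, ← smul_mul_assoc, ← Finset.sum_mul] at h2
      have h4 := (mul_eq_zero.1 h2).resolve_right (h0 a)
      simp only [← map_smul, ← map_sum] at h4
      have h5 := congrArg (coeff d.1) (hφ (h4.trans (map_zero φ).symm))
      rw [coeff_sum, Finset.sum_eq_single d] at h5
      · simp at h5 hy
        exact hy h5
      · intro e _ he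
        simp [coeff_monomial, show e.1 ≠ d.1 from fun h => he (Subtype.ext h)]
      · simp
    · intro a' _ ha'
      refine Finset.sum_eq_zero fun e _ => ?_
      by_cases hce : c ⟨a', e⟩ = 0
      · simp [hce]
      · rw [map_smul, map_mul, h1 a a' ha' (hmax ⟨a', e⟩ (by simpa using hce)), mul_zero, smul_zero]
    · simp
  have h2 := linearIndependent_le_span_aux' _ hli
    (((Finset.univ : Finset V).finsuppAntidiag (t + δ)).image fun d => monomial d (1 : E) :
      Finset (MvPolynomial V E)) (by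
      rintro _ ⟨x, rfl⟩
      have h3 : (monomial x.2.1 (1 : E) * g x.1).IsHomogeneous (t + δ) := by
        refine (isHomogeneous_monomial _ ?_).mul (hg _)
        have h4 := Finset.mem_finsuppAntidiag.1 x.2.2
        refine Eq.trans ?_ h4.1
        rw [Finsupp.degree_apply]
        exact Finset.sum_subset h4.2 fun v _ hv => Finsupp.notMem_support_iff.1 hv
      simp only
      generalize monomial x.2.1 (1 : E) * g x.1 = f at h3
      rw [f.as_sum]
      refine Submodule.sum_mem _ fun d hd => ?_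
      rw [show monomial d (coeff d f) = coeff d f • monomial d (1 : E) by simp [smul_monomial]]
      refine Submodule.smul_mem _ _ (Submodule.subset_span ?_)
      simp only [Finset.coe_image]
      refine ⟨d, Finset.mem_coe.2 (Finset.mem_finsuppAntidiag.2 ⟨?_, Finset.subset_univ _⟩), rfl⟩
      rw [← Finsupp.degree_eq_sum]
      by_contra h4
      exact mem_support_iff.1 hd (h3.coeff_eq_zero h4))
  simp only [Fintype.card_sigma, Fintype.card_coe, Finset.card_finsuppAntidiag_nat_eq_choose, hn,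
    Finset.sum_const, Finset.card_univ, smul_eq_mul, Finset.coe_sort_coe] at h2
  exact h2.trans (Finset.card_image_le.trans_eq (by
    rw [Finset.card_finsuppAntidiag_nat_eq_choose, Finset.card_univ]))

/-- The number of zero patterns of `s`-free points on a list of slices. -/
theorem card_patterns_le {E : Type*} [Field E] [Nonempty ι] (T : J → MvPolynomial V E)
    (hT : ∀ j, IsML sl Finset.univ (T j)) (s : ℕ) (hs1 : 1 ≤ s) (hs : 2 * s ≤ Fintype.card V)
    {U : Type*} [Fintype U] (u : U → J) :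
    {A : Set U | ∃ ξ : V → FractionRing (MvPolynomial V E), IsFree E id s ξ ∧
        A = {i | aeval ξ (T (u i)) = 0}}.ncard ^ 16 ≤
      2 ^ Fintype.card U * (1 + 64 * Fintype.card ι) ^ (16 * s) := by
  classical
  set P := {A : Set U | ∃ ξ : V → FractionRing (MvPolynomial V E), IsFree E id s ξ ∧
        A = {i | aeval ξ (T (u i)) = 0}} with hP
  have hex : ∀ A : P, ∃ (ξ : V → FractionRing (MvPolynomial V E)) (B : Finset V) (b : V),
      B.card = Fintype.card V - s ∧ b ∈ B ∧
      (∀ v ∈ B, ξ v = algebraMap (MvPolynomial V E) _ (X v)) ∧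
      ∀ i, i ∈ A.1 ↔ aeval ξ (T (u i)) = 0 := fun ⟨A, ξ, ⟨B, h1, h2⟩, h3⟩ => by
    obtain ⟨B', h4, h5⟩ := Finset.exists_subset_card_eq (s := B) (n := Fintype.card V - s) (by omega)
    obtain ⟨b, hb⟩ := Finset.card_pos.1 (show 0 < B'.card by omega)
    exact ⟨ξ, B', b, h5, hb, fun v hv => h2 v (h4 hv), fun i => by simp [h3]⟩
  choose ξ B b hB hb hξ hA using hex
  set D := Fintype.card ι with hD
  set N := Fintype.card V with hN
  have hD1 : 1 ≤ D := Fintype.card_pos
  have hinj := IsFractionRing.injective (MvPolynomial V E) (FractionRing (MvPolynomial V E))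
  have h1 := card_mul_choose_le (IsScalarTower.toAlgHom E (MvPolynomial V E) _) hinj ξ B hξ
    (N - s) (32 * D * N) (Fintype.card U * D) hB
    (fun A => ∏ i, if i ∈ A.1 then X (b A) ^ D else T (u i))
    (fun A => by
      have := IsHomogeneous.prod Finset.univ (fun i => if i ∈ A.1 then X (b A) ^ D else T (u i))
        (fun _ => D) fun i _ => by
          split_ifs
          · exact isHomogeneous_X_pow _ _
          · exact (hT _).isHomogeneous
      simpa using this)
    (fun A => A.1.ncard)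
    (fun A => by
      rw [map_prod]
      refine Finset.prod_ne_zero_iff.2 fun i _ => ?_
      split_ifs with h
      · rw [map_pow, aeval_X, hξ A _ (hb A)]
        exact pow_ne_zero _ fun h0 => X_ne_zero _ (hinj (h0.trans (map_zero _).symm))
      · exact fun h0 => h ((hA A i).2 h0))
    (fun A A' hne hle => by
      have : ¬A.1 ⊆ A'.1 := fun h =>
        hne (Subtype.ext (Set.eq_of_subset_of_ncard_le h hle).symm)
      obtain ⟨i, hi, hi'⟩ := Set.not_subset.1 this
      rw [map_prod]
      exact Finset.prod_eq_zero (Finset.mem_univ i) (by rw [if_neg hi']; exact (hA A i).1 hi))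
  have h2 := choose_deg_le N (32 * D) (32 * D * N) (Fintype.card U * D) (by omega) le_rfl
  have h3 := choose_var_le (N - s) (64 * D) (32 * D * N) s (by omega) (by
    have : N ≤ 2 * (N - s) := by omega
    calc 32 * D * N ≤ 32 * D * (2 * (N - s)) := Nat.mul_le_mul_left _ this
      _ = _ := by ring)
  rw [show N - s + s = N by omega] at h3
  have hpos : 0 < (N - s + 32 * D * N - 1).choose (32 * D * N) := Nat.choose_pos (by omega)
  rw [← hN, ← Set.toFinset_card, ← Set.ncard_eq_toFinset_card'] at h1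
  have h4 : (32 * D) ^ (Fintype.card U * D) * P.ncard ≤
      (32 * D + 1) ^ (Fintype.card U * D) * (1 + 64 * D) ^ s := by
    refine Nat.le_of_mul_le_mul_right ?_ hpos
    rw [mul_assoc, mul_assoc ((32 * D + 1) ^ _)]
    exact (Nat.mul_le_mul_left _ h1).trans (h2.trans (Nat.mul_le_mul_left _ h3))
  have h5 := Nat.pow_le_pow_left h4 16
  have h6 := Nat.pow_le_pow_left (succ_pow_le D hD1) (Fintype.card U)
  refine Nat.le_of_mul_le_mul_left ?_
    (show 0 < ((32 * D) ^ (Fintype.card U * D)) ^ 16 by positivity)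
  rw [← mul_pow]
  refine h5.trans ?_
  rw [mul_pow, ← pow_mul, ← pow_mul, ← pow_mul, show Fintype.card U * D * 16 =
    16 * D * Fintype.card U by ring, pow_mul (32 * D + 1), pow_mul (32 * D), mul_comm s 16,
    ← mul_assoc, ← mul_pow, mul_comm _ 2]
  exact Nat.mul_le_mul_right _ h6

end Pool.Agent.Lib.PRank
end

-- merged part: Pool.Agent.Lib.PRank.Slot
section
namespace Pool.Agent.Lib.PRank

open MvPolynomial

variable {ι V J : Type*} [Fintype ι] [DecidableEq ι] [Fintype V] {sl : V → ι}

lemma shatter_num {n D s : ℕ} (hs : 1 ≤ s)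
    (h : n ^ 16 ≤ 2 ^ (8 * (64 * D + 3) * s + 8 * (64 * D + 3) * s) * (1 + 64 * D) ^ (16 * s)) :
    (3 * n) ^ 4 < 2 ^ (8 * (64 * D + 3) * s) := by
  have h1 : (1 + 64 * D) ^ (16 * s) ≤ 2 ^ ((1 + 64 * D) * (16 * s)) := by
    rw [pow_mul 2]
    exact Nat.pow_le_pow_left Nat.lt_two_pow_self.le _
  have h2 : 3 ^ 16 < 2 ^ (32 * s) :=
    lt_of_lt_of_le (by norm_num : 3 ^ 16 < 2 ^ 32) (Nat.pow_le_pow_right two_pos (by omega))
  refine lt_of_pow_lt_pow_left₀ 4 (Nat.zero_le _) ?_
  calc ((3 * n) ^ 4) ^ 4 = 3 ^ 16 * n ^ 16 := by ring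
    _ ≤ 3 ^ 16 * (2 ^ (8 * (64 * D + 3) * s + 8 * (64 * D + 3) * s) *
        2 ^ ((1 + 64 * D) * (16 * s))) :=
      Nat.mul_le_mul_left _ (h.trans (Nat.mul_le_mul_left _ h1))
    _ < 2 ^ (32 * s) * (2 ^ (8 * (64 * D + 3) * s + 8 * (64 * D + 3) * s) *
        2 ^ ((1 + 64 * D) * (16 * s))) := Nat.mul_lt_mul_of_pos_right h2 (by positivity)
    _ = _ := by
      rw [← pow_add, ← pow_add, ← pow_mul]
      congr 1
      ring

/-- Local-to-global principle for partition rank in one slot, over an infinite field. -/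
theorem gen_of_local {E : Type*} [Field E] [Infinite E] [Nonempty ι] [Fintype J]
    {T : J → MvPolynomial V E} (hT : ∀ j, IsML sl Finset.univ (T j)) {s : ℕ} (hs : 1 ≤ s)
    (h : ∀ U : Fin (8 * (64 * Fintype.card ι + 3) * s) → J, Gen sl s (fun i => T (U i))) :
    Gen sl (4 * Fintype.card ι * 4 ^ Fintype.card ι * s) T := by
  classical
  have hD : 1 ≤ Fintype.card ι := Fintype.card_pos
  rcases isEmpty_or_nonempty J with hJ | hJ
  · exact Gen.zero fun j => isEmptyElim j
  rcases lt_or_ge (Fintype.card V) (2 * s) with hV | hV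
  · refine (Gen.of_card hT).mono (hV.le.trans (Nat.mul_le_mul_right _ ?_))
    have : 1 ≤ 4 ^ Fintype.card ι := Nat.one_le_pow _ _ (by norm_num)
    nlinarith
  have hm : 1 ≤ Fintype.card J := Fintype.card_pos
  obtain ⟨G, hG, hcov⟩ := exists_cover_list
    {G : Set J | ∃ ξ : V → FractionRing (MvPolynomial V E), IsFree E id s ξ ∧
      G = {j | aeval ξ (T j) = 0}} (8 * (64 * Fintype.card ι + 3) * s)
    (fun U => by
      have h1 := card_patterns_le T hT s hs hV U
      rw [Fintype.card_sum, Fintype.card_fin] at h1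
      convert shatter_num hs h1 using 4
      ext A
      constructor
      · rintro ⟨_, ⟨ξ, h2, rfl⟩, rfl⟩
        exact ⟨ξ, h2, rfl⟩
      · rintro ⟨ξ, h2, rfl⟩
        exact ⟨_, ⟨ξ, h2, rfl⟩, rfl⟩)
    (fun U => by
      obtain ⟨ξ, h1, h2⟩ := exists_free_zero (h U)
      exact ⟨_, ⟨ξ, h1, rfl⟩, h2⟩)
    (Fintype.card ι * Fintype.card J) (Nat.le_mul_of_pos_left _ hD)
  have h1 := gen_dsum_of_cover (sl := sl) (M := 4 * (Fintype.card ι * Fintype.card J))
    (m := Fintype.card J) (s := 2 ^ Fintype.card ι * s)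
    (fun k => Infinite.natEmbedding E k)
    ((Infinite.natEmbedding E).injective.comp Fin.val_injective)
    (fun k => Infinite.natEmbedding E k)
    ((Infinite.natEmbedding E).injective.comp Fin.val_injective) T hT G
    (fun k => by
      obtain ⟨ξ, h2, h3⟩ := hG k
      exact gen_of_free_zero Function.injective_id h2 (fun j : G k => hT j.1) fun j =>
        h3.subset j.2)
    (fun j => lt_of_lt_of_le (Nat.mul_lt_mul_of_pos_left (by omega) hD) (hcov j))
  refine (gen_of_gen_dsum hm hT h1).mono (le_of_eq ?_)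
  rw [show 4 * (Fintype.card ι * Fintype.card J) * (2 ^ Fintype.card ι * s) =
    Fintype.card J * (4 * Fintype.card ι * (2 ^ Fintype.card ι * s)) by ring,
    Nat.mul_div_cancel_left _ hm, show (4 : ℕ) ^ Fintype.card ι =
      2 ^ Fintype.card ι * 2 ^ Fintype.card ι from mul_pow 2 2 _]
  ring

end Pool.Agent.Lib.PRank
end
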