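import Pool.Agent.Lib.PRank.Basic

/-!
The combinatorial core of the random walk on a finite set of configurations: at step `i` the
coordinates of level `i` are resampled uniformly.
-/

namespace Pool.Agent.Lib.PRank

open Finset

section Walk

variable {V F : Type*}

/-- Coordinates of level `< i` from `z`, the others from `p`. -/
def mix (r : V → ℕ) (i : ℕ) (p z : V → F) : V → F := fun v => if r v < i then z v else p v

lemma mix_zero (r : V → ℕ) (p z : V → F) : mix r 0 p z = p := by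
  funext v; simp [mix]

variable [Fintype V] [DecidableEq V] [Fintype F] [DecidableEq F]

/-- The points of `Z` that agree with `ζ` off level `k`. -/
def fib (r : V → ℕ) (Z : Finset (V → F)) (k : ℕ) (ζ : V → F) : Finset (V → F) :=
  Z.filter fun ζ' => ∀ v, r v ≠ k → ζ' v = ζ v

omit [Fintype F] [DecidableEq V] in
lemma mem_fib {r : V → ℕ} {Z : Finset (V → F)} {k : ℕ} {ζ ζ' : V → F} :
    ζ' ∈ fib r Z k ζ ↔ ζ' ∈ Z ∧ ∀ v, r v ≠ k → ζ' v = ζ v := mem_filter

omit [Fintype F] [DecidableEq V] in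
lemma fib_eq_of_mem {r : V → ℕ} {Z : Finset (V → F)} {k : ℕ} {ζ ζ' : V → F}
    (h : ζ' ∈ fib r Z k ζ) : fib r Z k ζ' = fib r Z k ζ := by
  ext x
  simp only [mem_fib]
  refine and_congr_right fun _ => forall_congr' fun v => forall_congr' fun hv => ?_
  rw [(mem_fib.mp h).2 v hv]

omit [Fintype F] [DecidableEq V] in
/-- Resampling one level preserves the uniform measure. -/
lemma sum_avg_fib (r : V → ℕ) (Z : Finset (V → F)) (k : ℕ) (f : (V → F) → ℝ) :
    ∑ ζ ∈ Z, ((fib r Z k ζ).card : ℝ)⁻¹ * ∑ ζ' ∈ fib r Z k ζ, f ζ' = ∑ ζ ∈ Z, f ζ := by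
  have h1 : ∀ ζ ∈ Z, ((fib r Z k ζ).card : ℝ)⁻¹ * ∑ ζ' ∈ fib r Z k ζ, f ζ' =
      ∑ ζ' ∈ fib r Z k ζ, ((fib r Z k ζ').card : ℝ)⁻¹ * f ζ' := by
    intro ζ _
    rw [mul_sum]
    exact sum_congr rfl fun ζ' h => by rw [fib_eq_of_mem h]
  rw [sum_congr rfl h1, sum_comm' (t' := Z) (s' := fun ζ' => fib r Z k ζ')]
  · refine sum_congr rfl fun ζ' h => ?_
    rw [sum_const, nsmul_eq_mul, ← mul_assoc, mul_inv_cancel₀, one_mul]
    have : ζ' ∈ fib r Z k ζ' := mem_fib.mpr ⟨h, fun _ _ => rfl⟩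
    exact_mod_cast (card_pos.mpr ⟨_, this⟩).ne'
  · intro x y
    simp only [mem_fib]
    constructor
    · rintro ⟨h1, h2, h3⟩
      exact ⟨⟨h1, fun v hv => (h3 v hv).symm⟩, h2⟩
    · rintro ⟨⟨h1, h3⟩, h2⟩
      exact ⟨h1, h2, fun v hv => (h3 v hv).symm⟩

/-- End points of good paths that start at `ζ` at time `k`. -/
def paths (r : V → ℕ) (D : ℕ) (Z : Finset (V → F)) (good : ℕ → (V → F) → Prop)
    [∀ k ζ, Decidable (good k ζ)] (k : ℕ) (ζ : V → F) : Finset (V → F) :=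
  univ.filter fun z => (∀ v, r v < k → z v = ζ v) ∧
    ∀ i, k ≤ i → i < D → mix r (i + 1) ζ z ∈ Z ∧ good i (mix r i ζ z)

/-- The probability of the path from `ζ` (at time `k`) to `z`. -/
noncomputable def pw (r : V → ℕ) (D : ℕ) (Z : Finset (V → F)) (k : ℕ) (ζ z : V → F) : ℝ :=
  ∏ i ∈ Ico k D, ((fib r Z i (mix r i ζ z)).card : ℝ)⁻¹

variable {r : V → ℕ} {D : ℕ} {Z : Finset (V → F)} {good : ℕ → (V → F) → Prop}
  [∀ k ζ, Decidable (good k ζ)]

lemma mem_paths {k : ℕ} {ζ z : V → F} : z ∈ paths r D Z good k ζ ↔ (∀ v, r v < k → z v = ζ v) ∧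
    ∀ i, k ≤ i → i < D → mix r (i + 1) ζ z ∈ Z ∧ good i (mix r i ζ z) := by
  simp [paths]

omit [Fintype V] [DecidableEq V] [Fintype F] [DecidableEq F] in
lemma mix_eq_self {k : ℕ} {ζ z : V → F} (h : ∀ v, r v < k → z v = ζ v) : mix r k ζ z = ζ := by
  funext v
  by_cases hv : r v < k
  · simp [mix, hv, h v hv]
  · simp [mix, hv]

omit [Fintype V] [DecidableEq V] [Fintype F] [DecidableEq F] in
lemma mix_congr {k i : ℕ} {ζ ζ' : V → F} (h : ∀ v, r v ≠ k → ζ' v = ζ v) (hi : k < i)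
    (z : V → F) : mix r i ζ' z = mix r i ζ z := by
  funext v
  by_cases hv : r v < i
  · simp [mix, hv]
  · simp [mix, hv, h v (by omega)]

lemma sum_paths_rec {k : ℕ} (hk : k < D) (ζ : V → F) :
    ∑ z ∈ paths r D Z good k ζ, pw r D Z k ζ z =
      if good k ζ then ((fib r Z k ζ).card : ℝ)⁻¹ *
        ∑ ζ' ∈ fib r Z k ζ, ∑ z ∈ paths r D Z good (k + 1) ζ', pw r D Z (k + 1) ζ' z else 0 := by
  split_ifs with hg
  · have hm : ∀ z ∈ paths r D Z good k ζ, mix r (k + 1) ζ z ∈ fib r Z k ζ := by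
      intro z hz
      obtain ⟨h1, h2⟩ := mem_paths.mp hz
      refine mem_fib.mpr ⟨(h2 k le_rfl hk).1, fun v hv => ?_⟩
      by_cases h : r v < k + 1
      · simp [mix, h, h1 v (by omega)]
      · simp [mix, h]
    rw [← sum_fiberwise_of_maps_to hm, mul_sum]
    refine sum_congr rfl fun ζ' hζ' => ?_
    obtain ⟨hZ, hag⟩ := mem_fib.mp hζ'
    rw [mul_sum]
    refine sum_congr ?_ fun z hz => ?_
    · ext z
      rw [mem_filter, mem_paths, mem_paths]
      constructor
      · rintro ⟨⟨-, h2⟩, h3⟩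
        refine ⟨fun v hv => ?_, fun i hi hiD => ?_⟩
        · rw [← h3]; simp [mix, hv]
        · rw [mix_congr hag (by omega), mix_congr hag (by omega)]
          exact h2 i (by omega) hiD
      · rintro ⟨h1, h2⟩
        have h3 : ∀ v, r v < k → z v = ζ v := fun v hv => by
          rw [h1 v (by omega), hag v (by omega)]
        have h4 : mix r (k + 1) ζ z = ζ' := by
          rw [← mix_congr hag (Nat.lt_succ_self k), mix_eq_self h1]
        refine ⟨⟨h3, fun i hi hiD => ?_⟩, h4⟩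
        rcases hi.eq_or_lt with rfl | hi
        · rw [h4, mix_eq_self h3]; exact ⟨hZ, hg⟩
        · rw [← mix_congr hag (by omega), ← mix_congr hag hi]
          exact h2 i hi hiD
    · have h1 := (mem_paths.mp hz).1
      have h3 : ∀ v, r v < k → z v = ζ v := fun v hv => by
        rw [h1 v (by omega), hag v (by omega)]
      unfold pw
      rw [prod_eq_prod_Ico_succ_bot hk, mix_eq_self h3]
      congr 1
      refine prod_congr rfl fun i hi => ?_
      rw [mix_congr hag (mem_Ico.mp hi).1]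
  · refine sum_eq_zero fun z hz => absurd ?_ hg
    obtain ⟨h1, h2⟩ := mem_paths.mp hz
    have := (h2 k le_rfl hk).2
    rwa [mix_eq_self h1] at this

lemma sum_paths_top (hr : ∀ v, r v < D) (ζ : V → F) :
    ∑ z ∈ paths r D Z good D ζ, pw r D Z D ζ z = 1 := by
  have : paths r D Z good D ζ = {ζ} := by
    ext z
    rw [mem_paths, mem_singleton]
    constructor
    · exact fun h => funext fun v => h.1 v (hr v)
    · rintro rfl
      exact ⟨fun _ _ => rfl, fun i h1 h2 => by omega⟩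
  simp [this, pw]

lemma sum_paths_bounds (hr : ∀ v, r v < D) (β : ℝ)
    (hβ : ∀ k < D, ((Z.filter fun ζ => ¬ good k ζ).card : ℝ) ≤ β) (m : ℕ) (hm : m ≤ D) :
    (∀ ζ, ∑ z ∈ paths r D Z good (D - m) ζ, pw r D Z (D - m) ζ z ≤ 1) ∧
      (Z.card : ℝ) - m * β ≤
        ∑ ζ ∈ Z, ∑ z ∈ paths r D Z good (D - m) ζ, pw r D Z (D - m) ζ z := by
  induction m with
  | zero => simp [sum_paths_top hr]
  | succ m ih =>
    obtain ⟨ih1, ih2⟩ := ih (by omega)
    have hk : D - (m + 1) < D := by omega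
    have hk' : D - (m + 1) + 1 = D - m := by omega
    set k := D - (m + 1)
    set U : (V → F) → ℝ := fun ζ => ∑ z ∈ paths r D Z good (D - m) ζ, pw r D Z (D - m) ζ z
    have hA : ∀ ζ, ((fib r Z k ζ).card : ℝ)⁻¹ * ∑ ζ' ∈ fib r Z k ζ, U ζ' ≤ 1 := by
      intro ζ
      have h1 : ∑ ζ' ∈ fib r Z k ζ, U ζ' ≤ (fib r Z k ζ).card := by
        simpa using sum_le_card_nsmul (fib r Z k ζ) U 1 fun ζ' _ => ih1 ζ'
      exact (mul_le_mul_of_nonneg_left h1 (by positivity)).trans inv_mul_le_one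
    simp_rw [sum_paths_rec hk, hk']
    refine ⟨fun ζ => ?_, ?_⟩
    · split_ifs
      · exact hA ζ
      · exact zero_le_one
    · have h1 := sum_avg_fib r Z k U
      have h2 : ∑ ζ ∈ Z, ((fib r Z k ζ).card : ℝ)⁻¹ * ∑ ζ' ∈ fib r Z k ζ, U ζ' ≤
          ∑ ζ ∈ Z, ((if good k ζ then ((fib r Z k ζ).card : ℝ)⁻¹ * ∑ ζ' ∈ fib r Z k ζ, U ζ'
            else 0) + if ¬ good k ζ then (1 : ℝ) else 0) := by
        refine sum_le_sum fun ζ _ => ?_
        by_cases h : good k ζ
        · simp [h]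
        · simpa [h] using hA ζ
      rw [sum_add_distrib, sum_boole] at h2
      have h3 := hβ k hk
      push_cast
      linarith

/-- Some starting point sends most of its mass along good paths. -/
theorem exists_start (hr : ∀ v, r v < D) (hZ : Z.Nonempty) (β : ℝ)
    (hβ : ∀ k < D, ((Z.filter fun ζ => ¬ good k ζ).card : ℝ) ≤ β * Z.card) :
    ∃ p ∈ Z, 1 - D * β ≤ ∑ z ∈ paths r D Z good 0 p, pw r D Z 0 p z := by
  have h := (sum_paths_bounds hr (β * Z.card) hβ D le_rfl).2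
  rw [Nat.sub_self] at h
  refine exists_le_of_sum_le hZ (le_trans (le_of_eq ?_) h)
  rw [sum_const, nsmul_eq_mul]
  ring

end Walk

end Pool.Agent.Lib.PRank
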